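import Pool.Agent.Helper9.CA.Hat2

/-!
# Project FP (MP_0f6f3f_an): Cartan decomposition and product formula of `SL(2, ℂ)`
-/

set_option autoImplicit false
set_option linter.unusedSectionVars false
set_option linter.style.haveILetI false
set_option linter.unusedSimpArgs false

open MeasureTheory Measure Topology Matrix

namespace Pool.Agent.Helper9.CA

theorem nsq_mul_unitary {k : S2} (hk : k ∈ KU) (A : Matrix (Fin 2) (Fin 2) ℂ) : nsq (A * k.1) = nsq A := by
  have h1 : ∀ B : Matrix (Fin 2) (Fin 2) ℂ, nsq Bᴴ = nsq B := fun B => by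
    rw [nsq_two, nsq_two]
    simp only [conjTranspose_apply, norm_star]
    ring
  have h2 : (k⁻¹).1 = k.1ᴴ := by
    have h3 : (k⁻¹).1 * k.1 = 1 := congrArg Subtype.val (inv_mul_cancel k)
    calc (k⁻¹).1 = (k⁻¹).1 * (k.1 * k.1ᴴ) := by rw [mem_KU.1 hk, mul_one]
      _ = k.1ᴴ := by rw [← mul_assoc, h3, one_mul]
  rw [← h1 (A * k.1), conjTranspose_mul, ← h2, nsq_unitary_mul (KU.inv_mem hk), h1]

theorem N2_mul_K {k : S2} (hk : k ∈ KU) (g : S2) : N2 (g * k) = N2 g := by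
  apply NNReal.eq
  show Real.sqrt (nsq (g.1 * k.1)) = _
  rw [nsq_mul_unitary hk]
  rfl

theorem N2_sq (g : S2) : (N2 g : ℝ) ^ 2 = nsq g.1 := nF_sq g.1

/-- a matrix with orthogonal columns is in `K A` -/
theorem kak_aux (m : S2) (h : starRingEnd ℂ (m.1 0 0) * m.1 0 1 + starRingEnd ℂ (m.1 1 0) * m.1 1 1 = 0) :
    ∃ k ∈ KU, ∃ t : ℝ, m = k * aR t := by
  have h0 : ∀ z : ℂ, starRingEnd ℂ z * z = ((‖z‖ ^ 2 : ℝ) : ℂ) := fun z => by
    rw [mul_comm, Complex.mul_conj, Complex.normSq_eq_norm_sq]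
  set p : ℝ := ‖m.1 0 0‖ ^ 2 + ‖m.1 1 0‖ ^ 2 with hp
  set q : ℝ := ‖m.1 0 1‖ ^ 2 + ‖m.1 1 1‖ ^ 2 with hq
  -- the Gram matrix
  have hG : m.1ᴴ * m.1 = !![(p : ℂ), 0; 0, (q : ℂ)] := by
    have h' : starRingEnd ℂ (m.1 0 1) * m.1 0 0 + starRingEnd ℂ (m.1 1 1) * m.1 1 0 = 0 := by
      have := congrArg (starRingEnd ℂ) h
      simp only [map_add, map_mul, Complex.conj_conj, map_zero] at this
      linear_combination this
    ext i j
    fin_cases i <;> fin_cases j <;> simp only [Matrix.mul_apply, Fin.sum_univ_two, conjTranspose_apply, RCLike.star_def,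
      Matrix.of_apply, Matrix.cons_val_zero, Matrix.cons_val_one, Matrix.cons_val', Matrix.cons_val_fin_one,
      Fin.zero_eta, Fin.mk_one, Fin.isValue, h, h']
    · rw [h0, h0, ← Complex.ofReal_add]
    · rw [h0, h0, ← Complex.ofReal_add]
  have hdet : p * q = 1 := by
    have h1 := congrArg Matrix.det hG
    rw [det_mul, det_conjTranspose, m.2, star_one, one_mul, det_fin_two_of, mul_zero, sub_zero] at h1
    exact_mod_cast h1.symm
  have hp0 : 0 ≤ p := by positivity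
  have hppos : 0 < p := lt_of_le_of_ne hp0 (by intro h0; rw [← h0, zero_mul] at hdet; exact zero_ne_one hdet)
  have hqe : q = p⁻¹ := eq_inv_of_mul_eq_one_right hdet
  refine ⟨m * aR (-(Real.log p)), ?_, Real.log p, ?_⟩
  · rw [mem_KU']
    show (m.1 * (aR (-(Real.log p))).1)ᴴ * (m.1 * (aR (-(Real.log p))).1) = 1
    rw [conjTranspose_mul, mul_assoc, ← mul_assoc m.1ᴴ, hG, hqe]
    have e1 : Real.exp (-Real.log p / 2) ^ 2 * p = 1 := by
      rw [← Real.exp_nat_mul]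
      have : ((2 : ℕ) : ℝ) * (-Real.log p / 2) = -Real.log p := by push_cast; ring
      rw [this, Real.exp_neg, Real.exp_log hppos, inv_mul_cancel₀ hppos.ne']
    have e2 : Real.exp (-(-Real.log p) / 2) ^ 2 * p⁻¹ = 1 := by
      rw [← Real.exp_nat_mul]
      have : ((2 : ℕ) : ℝ) * (-(-Real.log p) / 2) = Real.log p := by push_cast; ring
      rw [this, Real.exp_log hppos, mul_inv_cancel₀ hppos.ne']
    have e1' : ((Real.exp (-Real.log p / 2) : ℝ) : ℂ) ^ 2 * (p : ℂ) = 1 := by exact_mod_cast e1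
    have e2' : ((Real.exp (-(-Real.log p) / 2) : ℝ) : ℂ) ^ 2 * ((p⁻¹ : ℝ) : ℂ) = 1 := by exact_mod_cast e2
    ext i j
    fin_cases i <;> fin_cases j <;> simp only [aR, Matrix.mul_apply, Fin.sum_univ_two, conjTranspose_apply, RCLike.star_def,
      Matrix.of_apply, Matrix.cons_val_zero, Matrix.cons_val_one, Matrix.cons_val', Matrix.cons_val_fin_one,
      Fin.zero_eta, Fin.mk_one, Fin.isValue, Complex.conj_ofReal, map_zero, Matrix.one_apply, if_true, zero_ne_one,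
      one_ne_zero, if_false]
    · linear_combination e1'
    · ring
    · ring
    · linear_combination e2'
  · rw [mul_assoc, ← aR_add, neg_add_cancel, aR_zero, mul_one]

theorem exists_diag (g : S2) : ∃ k ∈ KU, starRingEnd ℂ ((g * k).1 0 0) * (g * k).1 0 1 +
    starRingEnd ℂ ((g * k).1 1 0) * (g * k).1 1 1 = 0 := by
  have h0 : ∀ z : ℂ, starRingEnd ℂ z * z = ((‖z‖ ^ 2 : ℝ) : ℂ) := fun z => by
    rw [mul_comm, Complex.mul_conj, Complex.normSq_eq_norm_sq]
  set al : ℝ := ‖g.1 0 0‖ ^ 2 + ‖g.1 1 0‖ ^ 2 with hal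
  set de : ℝ := ‖g.1 0 1‖ ^ 2 + ‖g.1 1 1‖ ^ 2 with hde
  set be : ℂ := starRingEnd ℂ (g.1 0 0) * g.1 0 1 + starRingEnd ℂ (g.1 1 0) * g.1 1 1 with hbe
  have hbe' : starRingEnd ℂ be = starRingEnd ℂ (g.1 0 1) * g.1 0 0 + starRingEnd ℂ (g.1 1 1) * g.1 1 0 := by
    rw [hbe]
    simp only [map_add, map_mul, Complex.conj_conj]
    ring
  have halC : (al : ℂ) = starRingEnd ℂ (g.1 0 0) * g.1 0 0 + starRingEnd ℂ (g.1 1 0) * g.1 1 0 := by
    rw [h0, h0, hal]; push_cast; ring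
  have hdeC : (de : ℂ) = starRingEnd ℂ (g.1 0 1) * g.1 0 1 + starRingEnd ℂ (g.1 1 1) * g.1 1 1 := by
    rw [h0, h0, hde]; push_cast; ring
  have hdet : (al : ℂ) * de - be * starRingEnd ℂ be = 1 := by
    have h1 := g.2
    rw [det_fin_two] at h1
    have h2 := congrArg (starRingEnd ℂ) h1
    simp only [map_sub, map_mul, map_one] at h2
    rw [halC, hdeC, hbe', hbe]
    linear_combination (starRingEnd ℂ (g.1 0 0) * starRingEnd ℂ (g.1 1 1) - starRingEnd ℂ (g.1 0 1) * starRingEnd ℂ (g.1 1 0)) * h1 + h2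
  by_cases hb : be = 0
  · refine ⟨1, KU.one_mem, ?_⟩
    rw [mul_one]
    exact hb
  · have hs2 : 2 ≤ al + de := by
      have := nsq_ge g
      rw [nsq_two] at this
      rw [hal, hde]
      linarith
    -- an eigenvalue
    set la : ℝ := ((al + de) + Real.sqrt ((al + de) ^ 2 - 4)) / 2 with hla
    have hla2 : la ^ 2 - (al + de) * la + 1 = 0 := by
      have h3 : Real.sqrt ((al + de) ^ 2 - 4) ^ 2 = (al + de) ^ 2 - 4 := Real.sq_sqrt (by nlinarith)
      rw [hla]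
      linear_combination (1 / 4 : ℝ) * h3
    have hbn : (la - al) * (la - de) = ‖be‖ ^ 2 := by
      have h4 : al * de - ‖be‖ ^ 2 = 1 := by
        have h5 : be * starRingEnd ℂ be = ((‖be‖ ^ 2 : ℝ) : ℂ) := by rw [mul_comm, h0]
        rw [h5] at hdet
        exact_mod_cast hdet
      nlinarith
    have hbnC : ((la : ℂ) - al) * ((la : ℂ) - de) = be * starRingEnd ℂ be := by
      have h5 : be * starRingEnd ℂ be = ((‖be‖ ^ 2 : ℝ) : ℂ) := by rw [mul_comm, h0]
      rw [h5, ← hbn]; push_cast; ring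
    set n : ℝ := Real.sqrt (‖be‖ ^ 2 + (la - al) ^ 2) with hn
    have hbpos : 0 < ‖be‖ := norm_pos_iff.2 hb
    have hn2 : n ^ 2 = ‖be‖ ^ 2 + (la - al) ^ 2 := Real.sq_sqrt (by positivity)
    have hn0 : 0 < n := Real.sqrt_pos.2 (by positivity)
    have hcol : Complex.normSq (be / n) + Complex.normSq (((la - al : ℝ) : ℂ) / n) = 1 := by
      rw [Complex.normSq_div, Complex.normSq_div, Complex.normSq_ofReal, Complex.normSq_ofReal, Complex.normSq_eq_norm_sq,
        ← add_div, ← pow_two n, div_eq_one_iff_eq (by positivity), hn2]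
      ring
    refine ⟨ofCol _ _ hcol, ofCol_mem _ _ hcol, ?_⟩
    have hnC : (n : ℂ) ≠ 0 := by exact_mod_cast hn0.ne'
    have e : ∀ i j, (g * ofCol _ _ hcol).1 i j = ∑ l, g.1 i l * (ofCol _ _ hcol).1 l j := fun i j => rfl
    have e0 : ∀ i, (g * ofCol _ _ hcol).1 i 0 = (g.1 i 0 * be + g.1 i 1 * ((la : ℂ) - al)) / n := by
      intro i
      rw [e, Fin.sum_univ_two]
      show g.1 i 0 * (be / n) + g.1 i 1 * (((la - al : ℝ) : ℂ) / n) = _
      push_cast
      ring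
    have e1 : ∀ i, (g * ofCol _ _ hcol).1 i 1 = (-g.1 i 0 * ((la : ℂ) - al) + g.1 i 1 * starRingEnd ℂ be) / n := by
      intro i
      rw [e, Fin.sum_univ_two]
      show g.1 i 0 * (-(starRingEnd ℂ (((la - al : ℝ) : ℂ) / n))) + g.1 i 1 * starRingEnd ℂ (be / n) = _
      rw [map_div₀, map_div₀, Complex.conj_ofReal, Complex.conj_ofReal]
      push_cast
      ring
    rw [e0, e0, e1, e1]
    simp only [map_add, map_mul, map_div₀, map_sub, Complex.conj_ofReal]
    have key : starRingEnd ℂ be * (be * starRingEnd ℂ be - ((la : ℂ) - al) * ((la : ℂ) - de)) = 0 := by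
      rw [hbnC]; ring
    have hx : be = starRingEnd ℂ (g.1 0 0) * g.1 0 1 + starRingEnd ℂ (g.1 1 0) * g.1 1 1 := hbe
    have n2 : ((n : ℂ)) * n ≠ 0 := mul_ne_zero hnC hnC
    rw [div_mul_div_comm, div_mul_div_comm, ← add_div, div_eq_zero_iff]
    left
    linear_combination key + (starRingEnd ℂ be * ((la : ℂ) - al)) * halC - (starRingEnd ℂ be * ((la : ℂ) - al)) * hdeC
      + ((la : ℂ) - al) ^ 2 * hbe' - (starRingEnd ℂ be) ^ 2 * hbe

/-- the Weyl element -/
theorem aR_weyl (t : ℝ) : aR (-t) = (ofCol 0 1 (by simp))⁻¹ * aR t * ofCol 0 1 (by simp) := by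
  rw [mul_assoc, eq_inv_mul_iff_mul_eq]
  apply Subtype.ext
  show (ofCol 0 1 (by simp)).1 * (aR (-t)).1 = (aR t).1 * (ofCol 0 1 (by simp)).1
  ext i j
  fin_cases i <;> fin_cases j <;> simp [aR, ofCol, Matrix.mul_apply, Fin.sum_univ_two]

/-- **Cartan decomposition.** -/
theorem cartan (g : S2) : ∃ k ∈ KU, ∃ k' ∈ KU, ∃ t : ℝ, 0 ≤ t ∧ g = k * aR t * k' ∧ nsq g.1 = 2 * Real.cosh t := by
  obtain ⟨k₁, hk₁, h1⟩ := exists_diag g
  obtain ⟨k₂, hk₂, t, ht⟩ := kak_aux _ h1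
  have hg : g = k₂ * aR t * k₁⁻¹ := by rw [← ht, mul_inv_cancel_right]
  have hns : ∀ (a b : S2) (s : ℝ), a ∈ KU → b ∈ KU → nsq (a * aR s * b).1 = 2 * Real.cosh s := by
    intro a b s ha hb
    show nsq ((a.1 * (aR s).1) * b.1) = _
    rw [nsq_mul_unitary hb, nsq_unitary_mul ha, nsq_aR]
  rcases le_total 0 t with h0 | h0
  · exact ⟨k₂, hk₂, k₁⁻¹, KU.inv_mem hk₁, t, h0, hg, by rw [hg]; exact hns _ _ _ hk₂ (KU.inv_mem hk₁)⟩
  · have hw : ofCol 0 1 (by simp) ∈ KU := ofCol_mem _ _ _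
    have e : aR t = (ofCol 0 1 (by simp))⁻¹ * aR (-t) * ofCol 0 1 (by simp) := by
      have := aR_weyl (-t)
      rwa [neg_neg] at this
    refine ⟨k₂ * (ofCol 0 1 (by simp))⁻¹, KU.mul_mem hk₂ (KU.inv_mem hw), ofCol 0 1 (by simp) * k₁⁻¹,
      KU.mul_mem hw (KU.inv_mem hk₁), -t, by linarith, ?_, ?_⟩
    · rw [hg, e]
      simp only [mul_assoc]
    · rw [hg]
      rw [hns _ _ _ hk₂ (KU.inv_mem hk₁), Real.cosh_neg]

/-- `g⁻¹ ∈ K g K` -/
theorem inv_mem_KgK (g : S2) : ∃ k ∈ KU, ∃ k' ∈ KU, g⁻¹ = k * g * k' := by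
  obtain ⟨k₁, hk₁, k₂, hk₂, t, -, hg, -⟩ := cartan g
  have hw : ofCol 0 1 (by simp) ∈ KU := ofCol_mem _ _ _
  refine ⟨k₂⁻¹ * (ofCol 0 1 (by simp))⁻¹ * k₁⁻¹, KU.mul_mem (KU.mul_mem (KU.inv_mem hk₂) (KU.inv_mem hw)) (KU.inv_mem hk₁),
    k₂⁻¹ * ofCol 0 1 (by simp) * k₁⁻¹, KU.mul_mem (KU.mul_mem (KU.inv_mem hk₂) hw) (KU.inv_mem hk₁), ?_⟩
  have e := aR_weyl t
  rw [aR_neg] at e
  rw [hg]
  have e2 : (k₁ * aR t * k₂)⁻¹ = k₂⁻¹ * (aR t)⁻¹ * k₁⁻¹ := by group
  rw [e2, e]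
  group

/-- A function invariant under `K` on both sides is a function of the norm. -/
theorem biinv_eq {E : Type*} {F : S2 → E} (hl : ∀ k ∈ KU, ∀ g, F (k * g) = F g) (hr : ∀ k ∈ KU, ∀ g, F (g * k) = F g)
    (g : S2) : F g = F (aR (Real.arcosh (nsq g.1 / 2))) := by
  obtain ⟨k₁, hk₁, k₂, hk₂, t, ht, hg, hn⟩ := cartan g
  have e : Real.arcosh (nsq g.1 / 2) = t := by
    rw [hn, mul_div_cancel_left₀ _ (two_ne_zero), Real.arcosh_cosh ht]
  rw [e, hg, hr k₂ hk₂, hl k₁ hk₁]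

theorem nsq_aRkaR {k : S2} (hk : k ∈ KU) (r s : ℝ) : nsq (aR r * k * aR s).1 / 2 =
    Real.cosh (r - s) + ‖k.1 0 0‖ ^ 2 * (Real.cosh (r + s) - Real.cosh (r - s)) := by
  have h1 := mem_KU.1 hk
  have h2 := mem_KU'.1 hk
  have h0 : ∀ z : ℂ, starRingEnd ℂ z * z = ((‖z‖ ^ 2 : ℝ) : ℂ) := fun z => by
    rw [mul_comm, Complex.mul_conj, Complex.normSq_eq_norm_sq]
  have h0' : ∀ z : ℂ, z * starRingEnd ℂ z = ((‖z‖ ^ 2 : ℝ) : ℂ) := fun z => by
    rw [Complex.mul_conj, Complex.normSq_eq_norm_sq]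
  have r0 : ‖k.1 0 0‖ ^ 2 + ‖k.1 0 1‖ ^ 2 = 1 := by
    have := congrFun (congrFun h1 0) 0
    simp only [Matrix.mul_apply, Fin.sum_univ_two, conjTranspose_apply, RCLike.star_def, Matrix.one_apply_eq, h0'] at this
    exact_mod_cast this
  have c0 : ‖k.1 0 0‖ ^ 2 + ‖k.1 1 0‖ ^ 2 = 1 := by
    have := congrFun (congrFun h2 0) 0
    simp only [Matrix.mul_apply, Fin.sum_univ_two, conjTranspose_apply, RCLike.star_def, Matrix.one_apply_eq, h0] at this
    exact_mod_cast this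
  have c1 : ‖k.1 0 1‖ ^ 2 + ‖k.1 1 1‖ ^ 2 = 1 := by
    have := congrFun (congrFun h2 1) 1
    simp only [Matrix.mul_apply, Fin.sum_univ_two, conjTranspose_apply, RCLike.star_def, Matrix.one_apply_eq, h0] at this
    exact_mod_cast this
  have hexp : ∀ x : ℝ, ‖((Real.exp x : ℝ) : ℂ)‖ ^ 2 = Real.exp (2 * x) := fun x => by
    rw [Complex.norm_real, Real.norm_of_nonneg (Real.exp_pos _).le, ← Real.exp_nat_mul]
    norm_num
  have e : ∀ i j, (aR r * k * aR s).1 i j = ∑ l, (∑ m, (aR r).1 i m * k.1 m l) * (aR s).1 l j := fun i j => rfl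
  rw [nsq_two]
  simp only [e]
  simp only [Fin.sum_univ_two, aR, Matrix.of_apply, Matrix.cons_val_zero, Matrix.cons_val_one, Matrix.cons_val',
    Matrix.cons_val_fin_one, Fin.isValue, mul_zero, zero_mul, add_zero, zero_add, norm_mul, mul_pow, hexp]
  have a1 : Real.exp (2 * (r / 2)) = Real.exp r := by congr 1; ring
  have a2 : Real.exp (2 * (-r / 2)) = Real.exp (-r) := by congr 1; ring
  have a3 : Real.exp (2 * (s / 2)) = Real.exp s := by congr 1; ring
  have a4 : Real.exp (2 * (-s / 2)) = Real.exp (-s) := by congr 1; ring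
  rw [a1, a2, a3, a4]
  have b1 : ‖k.1 0 1‖ ^ 2 = 1 - ‖k.1 0 0‖ ^ 2 := by linarith
  have b2 : ‖k.1 1 0‖ ^ 2 = 1 - ‖k.1 0 0‖ ^ 2 := by linarith
  have b3 : ‖k.1 1 1‖ ^ 2 = ‖k.1 0 0‖ ^ 2 := by linarith
  rw [b1, b2, b3, Real.cosh_eq, Real.cosh_eq]
  have f1 : Real.exp (r + s) = Real.exp r * Real.exp s := Real.exp_add _ _
  have f2 : Real.exp (-(r + s)) = Real.exp (-r) * Real.exp (-s) := by rw [← Real.exp_add]; congr 1; ring
  have f3 : Real.exp (r - s) = Real.exp r * Real.exp (-s) := by rw [← Real.exp_add]; congr 1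
  have f4 : Real.exp (-(r - s)) = Real.exp (-r) * Real.exp s := by rw [← Real.exp_add]; congr 1; ring
  rw [f1, f2, f3, f4]
  ring

theorem continuous_aR : Continuous aR := by
  refine Continuous.subtype_mk ?_ _
  refine continuous_matrix fun i j => ?_
  fin_cases i <;> fin_cases j <;> simp <;> fun_prop

variable [MeasurableSpace S2] [BorelSpace S2]

/-- **Product formula.** -/
theorem product_formula {ν : Measure S2} (hν : HaarOn KU ν) {F : S2 → ℂ} (hF : Continuous F)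
    (hl : ∀ k ∈ KU, ∀ g, F (k * g) = F g) (hr : ∀ k ∈ KU, ∀ g, F (g * k) = F g) (r s : ℝ) (hr0 : 0 ≤ r) (hs0 : 0 ≤ s) :
    2 * Real.sinh r * Real.sinh s * ∫ k : S2, F (aR r * k * aR s) ∂ν = ∫ t in (|r - s|)..(r + s), (Real.sinh t : ℂ) * F (aR t) := by
  set c0 : ℝ := Real.cosh (r - s) with hc0
  set d : ℝ := Real.cosh (r + s) - Real.cosh (r - s) with hd
  have hdss : d = 2 * Real.sinh r * Real.sinh s := by
    rw [hd, Real.cosh_add, Real.cosh_sub]; ring
  have hd0 : 0 ≤ d := by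
    rw [hdss]
    have := Real.sinh_nonneg_iff.2 hr0
    have := Real.sinh_nonneg_iff.2 hs0
    positivity
  let h : ℝ → ℂ := fun p => F (aR (Real.arcosh (c0 + p * d)))
  have hh : ContinuousOn h (Set.Icc 0 1) := by
    refine (hF.comp continuous_aR).comp_continuousOn ?_
    refine Real.continuousOn_arcosh.comp (by fun_prop) fun p hp => ?_
    have h1 : 1 ≤ c0 := Real.one_le_cosh _
    have : 0 ≤ p * d := mul_nonneg hp.1 hd0
    exact Set.mem_Ici.2 (by linarith)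
  have e1 : ∫ k : S2, F (aR r * k * aR s) ∂ν = ∫ p in (0 : ℝ)..1, h p := by
    rw [← hatC hν hh]
    refine integral_congr_ae ?_
    filter_upwards [hν.supp] with k hk
    rw [biinv_eq hl hr, nsq_aRkaR hk]
  rcases eq_or_lt_of_le hd0 with hd1 | hd1
  · -- degenerate case
    have h2 : Real.sinh r * Real.sinh s = 0 := by
      rw [hdss] at hd1
      linarith
    have h3 : |r - s| = r + s := by
      rcases mul_eq_zero.1 h2 with h4 | h4
      · rw [Real.sinh_eq_zero] at h4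
        rw [h4, zero_sub, abs_neg, abs_of_nonneg hs0, zero_add]
      · rw [Real.sinh_eq_zero] at h4
        rw [h4, sub_zero, abs_of_nonneg hr0, add_zero]
    rw [h3, intervalIntegral.integral_same]
    have h5 : (2 : ℂ) * (Real.sinh r : ℂ) * (Real.sinh s : ℂ) = 0 := by
      rw [mul_assoc, ← Complex.ofReal_mul, h2]; simp
    rw [h5, zero_mul]
  · rw [e1]
    have hdC : (d : ℂ) ≠ 0 := by exact_mod_cast hd1.ne'
    let f : ℝ → ℝ := fun t => (Real.cosh t - c0) / d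
    have hf' : ∀ t, HasDerivAt f (Real.sinh t / d) t := fun t => ((Real.hasDerivAt_cosh t).sub_const c0).div_const d
    have hf0 : f |r - s| = 0 := by
      show (Real.cosh |r - s| - c0) / d = 0
      rw [Real.cosh_abs, hc0, sub_self, zero_div]
    have hf1 : f (r + s) = 1 := by
      show (Real.cosh (r + s) - c0) / d = 1
      rw [hc0, ← hd, div_self hd1.ne']
    have hle : |r - s| ≤ r + s := abs_le.2 ⟨by linarith, by linarith⟩
    have hmaps : f '' Set.uIcc |r - s| (r + s) ⊆ Set.Icc 0 1 := by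
      rintro _ ⟨t, ht, rfl⟩
      rw [Set.uIcc_of_le hle] at ht
      have ht0 : 0 ≤ t := (abs_nonneg _).trans ht.1
      have h6 : Real.cosh |r - s| ≤ Real.cosh t := by
        rw [Real.cosh_le_cosh, abs_abs, abs_of_nonneg ht0]
        exact ht.1
      have h7 : Real.cosh t ≤ Real.cosh (r + s) := by
        rw [Real.cosh_le_cosh, abs_of_nonneg ht0, abs_of_nonneg (by linarith)]
        exact ht.2
      rw [Real.cosh_abs] at h6
      refine ⟨div_nonneg (by rw [hc0]; linarith) hd1.le, ?_⟩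
      rw [div_le_one hd1, hd, hc0]
      linarith
    have hsub := intervalIntegral.integral_deriv_smul_comp' (a := |r - s|) (b := r + s) (f := f)
      (f' := fun t => Real.sinh t / d) (g := h) (fun t _ => hf' t) (by
        exact (Real.continuous_sinh.div_const d).continuousOn) (hh.mono hmaps)
    rw [hf0, hf1] at hsub
    rw [← hsub, ← intervalIntegral.integral_const_mul]
    refine intervalIntegral.integral_congr fun t ht => ?_
    rw [Set.uIcc_of_le hle] at ht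
    have ht0 : 0 ≤ t := (abs_nonneg _).trans ht.1
    have h8 : h (f t) = F (aR t) := by
      show F (aR (Real.arcosh (c0 + (Real.cosh t - c0) / d * d))) = _
      rw [div_mul_cancel₀ _ hd1.ne', add_sub_cancel, Real.arcosh_cosh ht0]
    simp only [Function.comp_apply, Complex.real_smul]
    rw [h8]
    have h9 : (2 : ℂ) * (Real.sinh r : ℂ) * (Real.sinh s : ℂ) = (d : ℂ) := by
      rw [hdss]; push_cast; ring
    rw [h9]
    push_cast
    field_simp

end Pool.Agent.Helper9.CA
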