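import Mathlib

/-!
# Project FF (MP_0f6f3f_an): harmonic functions with finite Dirichlet energy vanish

`G` a locally compact group, `ν` the Haar probability measure of a compact subgroup `K`, `μ` a left Haar measure of `G`, `N` a length function with
`∫ N⁻⁴ dμ = ∞` such that each `k ∈ K` is a power `τ ^ n`, `n ≤ C N(g)²`, of an element `τ` of `K` with `g⁻¹ τ g` in a fixed compact set. A continuous function
with the mean value property for `K`, with `f 1 = 0` and with finite Dirichlet energy is zero.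
-/

set_option autoImplicit false
set_option linter.unusedSectionVars false
set_option linter.style.haveILetI false

open MeasureTheory Measure ENNReal Topology

namespace Pool.Agent.Helper9.CA

section Aux

variable {Ω : Type*} [MeasurableSpace Ω]

/-- Jensen's inequality for the square. -/
theorem sq_lintegral_le (ν : Measure Ω) [IsProbabilityMeasure ν] {F : Ω → ℝ≥0∞} (hF : AEMeasurable F ν) :
    (∫⁻ x, F x ∂ν) ^ 2 ≤ ∫⁻ x, F x ^ 2 ∂ν := by
  have h := ENNReal.lintegral_mul_le_Lp_mul_Lq ν (p := 2) (q := 2) (by constructor <;> norm_num) hF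
    (aemeasurable_const (b := (1 : ℝ≥0∞)))
  simp only [Pi.mul_apply, mul_one, ENNReal.one_rpow, lintegral_const, measure_univ] at h
  have h2 : (∫⁻ x, F x ∂ν) ^ 2 ≤ ((∫⁻ x, F x ^ (2 : ℝ) ∂ν) ^ (1 / 2 : ℝ)) ^ 2 := by
    gcongr
  refine h2.trans (le_of_eq ?_)
  rw [← ENNReal.rpow_natCast, ← ENNReal.rpow_mul]
  norm_num

theorem sq_enorm_integral_le {E : Type*} [NormedAddCommGroup E] [NormedSpace ℝ E] (ν : Measure Ω)
    [IsProbabilityMeasure ν] {F : Ω → E} (hF : AEStronglyMeasurable F ν) :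
    ‖∫ x, F x ∂ν‖ₑ ^ 2 ≤ ∫⁻ x, ‖F x‖ₑ ^ 2 ∂ν := by
  calc ‖∫ x, F x ∂ν‖ₑ ^ 2 ≤ (∫⁻ x, ‖F x‖ₑ ∂ν) ^ 2 := by
        gcongr
        exact enorm_integral_le_lintegral_enorm F
    _ ≤ _ := sq_lintegral_le ν hF.enorm

theorem sq_enorm_telescope {E : Type*} [NormedAddCommGroup E] (u : ℕ → E) (n : ℕ) :
    ‖u n - u 0‖ₑ ^ 2 ≤ n * ∑ i ∈ Finset.range n, ‖u (i + 1) - u i‖ₑ ^ 2 := by
  rw [← Finset.sum_range_sub u n]
  have h1 : ‖∑ i ∈ Finset.range n, (u (i + 1) - u i)‖₊ ≤ ∑ i ∈ Finset.range n, ‖u (i + 1) - u i‖₊ :=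
    nnnorm_sum_le _ _
  have h2 : (∑ i ∈ Finset.range n, ‖u (i + 1) - u i‖₊) ^ 2 ≤
      (n : NNReal) * ∑ i ∈ Finset.range n, ‖u (i + 1) - u i‖₊ ^ 2 := by
    have := sq_sum_le_card_mul_sum_sq (s := Finset.range n) (f := fun i => ‖u (i + 1) - u i‖₊)
    rwa [Finset.card_range] at this
  have h3 : ‖∑ i ∈ Finset.range n, (u (i + 1) - u i)‖₊ ^ 2 ≤
      (n : NNReal) * ∑ i ∈ Finset.range n, ‖u (i + 1) - u i‖₊ ^ 2 := by
    refine le_trans ?_ h2
    gcongr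
  have h4 : ((‖∑ i ∈ Finset.range n, (u (i + 1) - u i)‖₊ ^ 2 : NNReal) : ℝ≥0∞) ≤
      (((n : NNReal) * ∑ i ∈ Finset.range n, ‖u (i + 1) - u i‖₊ ^ 2 : NNReal) : ℝ≥0∞) := by
    exact_mod_cast h3
  simpa [enorm] using h4

end Aux

section Main

variable {G : Type*} [Group G] [TopologicalSpace G] [IsTopologicalGroup G] [MeasurableSpace G] [BorelSpace G]
  [SecondCountableTopology G]

/-- `ν` is a probability measure carried by the subgroup `K` and invariant under left and right translations by `K`. -/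
structure HaarOn (K : Subgroup G) (ν : Measure G) : Prop where
  prob : IsProbabilityMeasure ν
  supp : ∀ᵐ k ∂ν, k ∈ K
  left : ∀ k ∈ K, ν.map (fun x => k * x) = ν
  right : ∀ k ∈ K, ν.map (fun x => x * k) = ν

variable {K : Subgroup G} {ν μ : Measure G}

theorem HaarOn.lintegral_left (h : HaarOn K ν) {k : G} (hk : k ∈ K) {F : G → ℝ≥0∞} (hF : Measurable F) :
    ∫⁻ x, F (k * x) ∂ν = ∫⁻ x, F x ∂ν := by
  conv_rhs => rw [← h.left k hk]
  rw [lintegral_map hF (measurable_const_mul k)]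

theorem HaarOn.lintegral_right (h : HaarOn K ν) {k : G} (hk : k ∈ K) {F : G → ℝ≥0∞} (hF : Measurable F) :
    ∫⁻ x, F (x * k) ∂ν = ∫⁻ x, F x ∂ν := by
  conv_rhs => rw [← h.right k hk]
  rw [lintegral_map hF (measurable_mul_const k)]

/-- averaging over `K` does not change the integral of `F` over `G` -/
theorem lintegral_avg (h : HaarOn K ν) [SFinite μ] [μ.IsMulLeftInvariant] {F : G → ℝ≥0∞} (hF : Measurable F) :
    ∫⁻ g, ∫⁻ k, F (k * g) ∂ν ∂μ = ∫⁻ g, F g ∂μ := by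
  haveI := h.prob
  rw [lintegral_lintegral_swap]
  · simp only [lintegral_mul_left_eq_self (μ := μ) F]
    simp
  · exact (hF.comp (measurable_snd.mul measurable_fst)).aemeasurable

variable {E : Type*} [NormedAddCommGroup E] [NormedSpace ℝ E]

/-- the local energy over the set `B` -/
noncomputable def locE (μ : Measure G) (f : G → E) (B : Set G) (g : G) : ℝ≥0∞ :=
  ∫⁻ h in B, ‖f (g * h) - f g‖ₑ ^ 2 ∂μ

theorem measurable_enorm_diff {f : G → E} (hf : Continuous f) :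
    Measurable fun p : G × G => ‖f (p.1 * p.2) - f p.1‖ₑ ^ 2 := by
  have : Continuous fun p : G × G => ‖f (p.1 * p.2) - f p.1‖ₑ ^ 2 := by fun_prop
  exact this.measurable

theorem measurable_locE [SFinite μ] {f : G → E} (hf : Continuous f) (B : Set G) : Measurable (locE μ f B) := by
  unfold locE
  exact (measurable_enorm_diff hf).lintegral_prod_right'

theorem lintegral_locE_le [SFinite μ] {f : G → E} (hf : Continuous f) {B : Set G} (hB : MeasurableSet B) {C : ℝ≥0∞}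
    (hC : ∀ h ∈ B, ∫⁻ g, ‖f (g * h) - f g‖ₑ ^ 2 ∂μ ≤ C) : ∫⁻ g, locE μ f B g ∂μ ≤ C * μ B := by
  unfold locE
  rw [lintegral_lintegral_swap ((measurable_enorm_diff hf).aemeasurable)]
  calc ∫⁻ h in B, ∫⁻ g, ‖f (g * h) - f g‖ₑ ^ 2 ∂μ ∂μ ≤ ∫⁻ _ in B, C ∂μ := setLIntegral_mono' hB fun h hh => hC h hh
    _ = _ := by simp

variable [CompleteSpace E]

/-- the mean value property for `K` -/
structure Harm (K : Subgroup G) (ν : Measure G) (f : G → E) : Prop where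
  cont : Continuous f
  right : ∀ g, ∀ k ∈ K, f (g * k) = f g
  int : ∀ x g, Integrable (fun k => f (x * k * g)) ν
  mean : ∀ x g, ∫ k, f (x * k * g) ∂ν = f x

variable {f : G → E}

/-- the increment at `g` in terms of the increments over a ball -/
theorem local_bound (h : HaarOn K ν) [SFinite μ] [μ.IsMulLeftInvariant] (hf : Harm K ν f) {B : Set G}
    (hB : MeasurableSet B) (hBK : ∀ k ∈ K, ∀ g, k * g ∈ B ↔ g ∈ B) (g τ : G) :
    μ B * ‖f (g * τ) - f g‖ₑ ^ 2 ≤ ∫⁻ b in B, ‖f (g * τ * b) - f g‖ₑ ^ 2 ∂μ := by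
  haveI := h.prob
  have hm : Measurable fun p : G × G => ‖f (g * τ * p.1 * p.2) - f g‖ₑ ^ 2 := by
    have := hf.cont
    have : Continuous fun p : G × G => ‖f (g * τ * p.1 * p.2) - f g‖ₑ ^ 2 := by fun_prop
    exact this.measurable
  have hm1 : Measurable fun b : G => ‖f (g * τ * b) - f g‖ₑ ^ 2 := by
    have := hf.cont
    have : Continuous fun b : G => ‖f (g * τ * b) - f g‖ₑ ^ 2 := by fun_prop
    exact this.measurable
  have h1 : ∀ b : G, ‖f (g * τ) - f g‖ₑ ^ 2 ≤ ∫⁻ k, ‖f (g * τ * k * b) - f g‖ₑ ^ 2 ∂ν := by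
    intro b
    have e : f (g * τ) - f g = ∫ k, (f (g * τ * k * b) - f g) ∂ν := by
      rw [integral_sub (hf.int _ _) (integrable_const _), hf.mean]
      simp
    rw [e]
    apply sq_enorm_integral_le
    exact ((hf.int _ _).sub (integrable_const _)).aestronglyMeasurable
  calc μ B * ‖f (g * τ) - f g‖ₑ ^ 2 = ∫⁻ _ in B, ‖f (g * τ) - f g‖ₑ ^ 2 ∂μ := by
        rw [setLIntegral_const, mul_comm]
    _ ≤ ∫⁻ b in B, ∫⁻ k, ‖f (g * τ * k * b) - f g‖ₑ ^ 2 ∂ν ∂μ := lintegral_mono h1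
    _ = ∫⁻ b, ∫⁻ k, B.indicator (fun b => ‖f (g * τ * b) - f g‖ₑ ^ 2) (k * b) ∂ν ∂μ := by
        rw [← lintegral_indicator hB]
        refine lintegral_congr fun b => ?_
        by_cases hb : b ∈ B
        · rw [Set.indicator_of_mem hb]
          refine lintegral_congr_ae ?_
          filter_upwards [h.supp] with k hk
          rw [Set.indicator_of_mem ((hBK k hk b).2 hb)]
          simp only [mul_assoc]
        · rw [Set.indicator_of_notMem hb]
          symm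
          rw [lintegral_eq_zero_iff']
          · filter_upwards [h.supp] with k hk
            rw [Set.indicator_of_notMem (fun hh => hb ((hBK k hk b).1 hh))]
            rfl
          · exact ((hm1.indicator hB).comp (measurable_mul_const b)).aemeasurable
    _ = ∫⁻ b, B.indicator (fun b => ‖f (g * τ * b) - f g‖ₑ ^ 2) b ∂μ := lintegral_avg h (hm1.indicator hB)
    _ = _ := lintegral_indicator hB _

theorem local_bound' (h : HaarOn K ν) [SFinite μ] [μ.IsMulLeftInvariant] (hf : Harm K ν f) {B B' : Set G}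
    (hB : MeasurableSet B) (hB' : MeasurableSet B') (hBK : ∀ k ∈ K, ∀ g, k * g ∈ B ↔ g ∈ B) {τ : G}
    (hτ : ∀ b ∈ B, τ * b ∈ B') (g : G) :
    μ B * ‖f (g * τ) - f g‖ₑ ^ 2 ≤ locE μ f B' g := by
  refine (local_bound h hf hB hBK g τ).trans ?_
  have e : ∫⁻ b in B, ‖f (g * τ * b) - f g‖ₑ ^ 2 ∂μ ≤
      ∫⁻ b, B'.indicator (fun b => ‖f (g * b) - f g‖ₑ ^ 2) (τ * b) ∂μ := by
    rw [← lintegral_indicator hB]
    refine lintegral_mono fun b => ?_
    by_cases hb : b ∈ B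
    · rw [Set.indicator_of_mem hb, Set.indicator_of_mem (hτ b hb)]
      simp only [mul_assoc]
      exact le_rfl
    · rw [Set.indicator_of_notMem hb]
      exact bot_le
  refine e.trans (le_of_eq ?_)
  rw [lintegral_mul_left_eq_self (μ := μ) (fun b => B'.indicator (fun b => ‖f (g * b) - f g‖ₑ ^ 2) b),
    lintegral_indicator hB']
  rfl

/-- `k` is a power of length at most `n` of an element `τ` of `K` which conjugated by `g⁻¹` is in `B₁`. -/
def Chain (K : Subgroup G) (B₁ : Set G) (C : NNReal) (N : G → NNReal) : Prop :=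
  ∀ k ∈ K, ∀ g, ∃ τ ∈ K, ∃ n : ℕ, τ ^ n = k ∧ (n : NNReal) ≤ C * N g ^ 2 ∧ g⁻¹ * τ * g ∈ B₁

theorem chain_bound (h : HaarOn K ν) [SFinite μ] [μ.IsMulLeftInvariant] (hf : Harm K ν f) {B B₁ B' : Set G}
    (hB : MeasurableSet B) (hB' : MeasurableSet B') (hBK : ∀ k ∈ K, ∀ g, k * g ∈ B ↔ g ∈ B)
    (hB₁ : ∀ τ ∈ B₁, ∀ b ∈ B, τ * b ∈ B') {C : NNReal} {N : G → NNReal} (hch : Chain K B₁ C N) (g : G) {k₀ : G}
    (hk₀ : k₀ ∈ K) :
    μ B * ∫⁻ k, ‖f (k * k₀ * g) - f (k * g)‖ₑ ^ 2 ∂ν ≤ (C * N g ^ 2) ^ 2 * ∫⁻ k, locE μ f B' (k * g) ∂ν := by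
  obtain ⟨τ, hτK, n, rfl, hn, hτ⟩ := hch k₀ hk₀ g
  have hm : Measurable fun x : G => locE μ f B' (x * g) := (measurable_locE hf.cont B').comp (measurable_mul_const g)
  have h1 : ∀ k, μ B * ‖f (k * τ ^ n * g) - f (k * g)‖ₑ ^ 2 ≤
      n * ∑ i ∈ Finset.range n, locE μ f B' (k * τ ^ i * g) := by
    intro k
    have h2 := sq_enorm_telescope (fun i => f (k * τ ^ i * g)) n
    simp only [pow_zero, mul_one] at h2
    calc μ B * ‖f (k * τ ^ n * g) - f (k * g)‖ₑ ^ 2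
        ≤ μ B * (n * ∑ i ∈ Finset.range n, ‖f (k * τ ^ (i + 1) * g) - f (k * τ ^ i * g)‖ₑ ^ 2) := by gcongr
      _ = n * ∑ i ∈ Finset.range n, μ B * ‖f (k * τ ^ (i + 1) * g) - f (k * τ ^ i * g)‖ₑ ^ 2 := by
          rw [← Finset.mul_sum]; ring
      _ ≤ _ := by
          gcongr with i hi
          have e : k * τ ^ (i + 1) * g = k * τ ^ i * g * (g⁻¹ * τ * g) := by
            rw [pow_succ]; group
          rw [e]
          exact local_bound' h hf hB hB' hBK (hB₁ _ hτ) _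
  calc μ B * ∫⁻ k, ‖f (k * τ ^ n * g) - f (k * g)‖ₑ ^ 2 ∂ν
      = ∫⁻ k, μ B * ‖f (k * τ ^ n * g) - f (k * g)‖ₑ ^ 2 ∂ν := by
        rw [lintegral_const_mul]
        have := hf.cont
        have : Continuous fun k : G => ‖f (k * τ ^ n * g) - f (k * g)‖ₑ ^ 2 := by fun_prop
        exact this.measurable
    _ ≤ ∫⁻ k, n * ∑ i ∈ Finset.range n, locE μ f B' (k * τ ^ i * g) ∂ν := lintegral_mono h1
    _ = n * ∑ i ∈ Finset.range n, ∫⁻ k, locE μ f B' (k * τ ^ i * g) ∂ν := by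
        have hm2 : ∀ i : ℕ, Measurable fun k : G => locE μ f B' (k * τ ^ i * g) := fun i =>
          hm.comp (measurable_mul_const (τ ^ i))
        rw [lintegral_const_mul _ (Finset.measurable_fun_sum _ fun i _ => hm2 i), lintegral_finsetSum _ fun i _ => hm2 i]
    _ = n * ∑ i ∈ Finset.range n, ∫⁻ k, locE μ f B' (k * g) ∂ν := by
        congr 1
        refine Finset.sum_congr rfl fun i _ => ?_
        exact h.lintegral_right (K.pow_mem hτK i) hm
    _ = (n : ℝ≥0∞) ^ 2 * ∫⁻ k, locE μ f B' (k * g) ∂ν := by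
        rw [Finset.sum_const, Finset.card_range, nsmul_eq_mul]; ring
    _ ≤ _ := by
        have : (n : ℝ≥0∞) ≤ C * N g ^ 2 := by exact_mod_cast hn
        gcongr

/-- the spherical mean of `‖f‖²` is controlled by the spherical mean of the local energy -/
theorem mean_sq_bound (h : HaarOn K ν) [SFinite μ] [μ.IsMulLeftInvariant] (hf : Harm K ν f) (h1 : f 1 = 0)
    {B B₁ B' : Set G}
    (hB : MeasurableSet B) (hB' : MeasurableSet B') (hBK : ∀ k ∈ K, ∀ g, k * g ∈ B ↔ g ∈ B)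
    (hB₁ : ∀ τ ∈ B₁, ∀ b ∈ B, τ * b ∈ B') {C : NNReal} {N : G → NNReal} (hch : Chain K B₁ C N) (g : G) :
    μ B * ∫⁻ k, ‖f (k * g)‖ₑ ^ 2 ∂ν ≤ (C * N g ^ 2) ^ 2 * ∫⁻ k, locE μ f B' (k * g) ∂ν := by
  haveI := h.prob
  have hm : Measurable fun p : G × G => ‖f (p.1 * p.2 * g) - f (p.1 * g)‖ₑ ^ 2 := by
    have := hf.cont
    have : Continuous fun p : G × G => ‖f (p.1 * p.2 * g) - f (p.1 * g)‖ₑ ^ 2 := by fun_prop
    exact this.measurable
  have h2 : ∀ k ∈ K, ‖f (k * g)‖ₑ ^ 2 ≤ ∫⁻ k₀, ‖f (k * k₀ * g) - f (k * g)‖ₑ ^ 2 ∂ν := by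
    intro k hk
    have e : - f (k * g) = ∫ k₀, (f (k * k₀ * g) - f (k * g)) ∂ν := by
      rw [integral_sub (hf.int _ _) (integrable_const _), hf.mean]
      have : f k = 0 := by
        have := hf.right 1 k hk
        rw [one_mul, h1] at this
        exact this
      rw [this]
      simp
    rw [← enorm_neg, e]
    apply sq_enorm_integral_le
    exact ((hf.int _ _).sub (integrable_const _)).aestronglyMeasurable
  calc μ B * ∫⁻ k, ‖f (k * g)‖ₑ ^ 2 ∂ν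
      ≤ μ B * ∫⁻ k, ∫⁻ k₀, ‖f (k * k₀ * g) - f (k * g)‖ₑ ^ 2 ∂ν ∂ν := by
        gcongr 1
        refine lintegral_mono_ae ?_
        filter_upwards [h.supp] with k hk
        exact h2 k hk
    _ = ∫⁻ k₀, μ B * ∫⁻ k, ‖f (k * k₀ * g) - f (k * g)‖ₑ ^ 2 ∂ν ∂ν := by
        rw [lintegral_lintegral_swap hm.aemeasurable, lintegral_const_mul]
        exact hm.lintegral_prod_left'
    _ ≤ ∫⁻ _, (C * N g ^ 2) ^ 2 * ∫⁻ k, locE μ f B' (k * g) ∂ν ∂ν := by
        refine lintegral_mono_ae ?_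
        filter_upwards [h.supp] with k₀ hk₀
        exact chain_bound h hf hB hB' hBK hB₁ hch g hk₀
    _ = _ := by simp

/-- a harmonic function with finite Dirichlet energy which vanishes at `1` is zero. -/
theorem eq_zero_of_energy (h : HaarOn K ν) [SFinite μ] [μ.IsMulLeftInvariant] (hf : Harm K ν f) (h1 : f 1 = 0)
    {B B₁ B' : Set G}
    (hB : MeasurableSet B) (hB' : MeasurableSet B') (hBK : ∀ k ∈ K, ∀ g, k * g ∈ B ↔ g ∈ B)
    (hB₁ : ∀ τ ∈ B₁, ∀ b ∈ B, τ * b ∈ B') (hμB : μ B ≠ 0) (hμB' : μ B' ≠ ∞)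
    {C : NNReal} {N : G → NNReal} (hch : Chain K B₁ C N)
    (hN : Measurable N) (hN1 : ∀ g, 1 ≤ N g) (hNmul : ∀ x y, N (x * y) ≤ N x * N y) (hNK : ∀ k ∈ K, ∀ g, N (k * g) = N g)
    (hdiv : ∫⁻ g, ((N g : ℝ≥0∞) ^ 4)⁻¹ ∂μ = ∞)
    {D : ℝ≥0∞} (hD : D ≠ ∞) (hen : ∀ b ∈ B', ∫⁻ g, ‖f (g * b) - f g‖ₑ ^ 2 ∂μ ≤ D) (x : G) : f x = 0 := by
  haveI := h.prob
  set W : G → ℝ≥0∞ := fun g => ((N g : ℝ≥0∞) ^ 4)⁻¹ with hW
  have hWm : Measurable W := by
    rw [hW]
    exact ((hN.coe_nnreal_ennreal).pow_const 4).inv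
  have hN0 : ∀ g, (N g : ℝ≥0∞) ≠ 0 := fun g => by
    have := hN1 g
    have h0 : N g ≠ 0 := by
      intro h0
      rw [h0] at this
      exact absurd this (by norm_num)
    exact_mod_cast h0
  have hWK : ∀ k ∈ K, ∀ g, W (k * g) = W g := fun k hk g => by rw [hW]; simp only [hNK k hk g]
  have hfm : Measurable fun g => ‖f g‖ₑ ^ 2 := by
    have := hf.cont
    have : Continuous fun g : G => ‖f g‖ₑ ^ 2 := by fun_prop
    exact this.measurable
  have hFm : Measurable fun g => W g * ‖f g‖ₑ ^ 2 := hWm.mul hfm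
  -- (c)
  have hc : μ B * ∫⁻ g, W g * ‖f g‖ₑ ^ 2 ∂μ ≤ C ^ 2 * (D * μ B') := by
    have hm3 : Measurable fun g => ∫⁻ k, ‖f (k * g)‖ₑ ^ 2 ∂ν := by
      have := hf.cont
      have : Continuous fun p : G × G => ‖f (p.2 * p.1)‖ₑ ^ 2 := by fun_prop
      exact this.measurable.lintegral_prod_right'
    have e1 : ∫⁻ g, W g * ‖f g‖ₑ ^ 2 ∂μ = ∫⁻ g, W g * ∫⁻ k, ‖f (k * g)‖ₑ ^ 2 ∂ν ∂μ := by
      rw [← lintegral_avg h hFm]
      refine lintegral_congr fun g => ?_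
      have hm4 : Measurable fun k => ‖f (k * g)‖ₑ ^ 2 := hfm.comp (measurable_mul_const g)
      rw [← lintegral_const_mul _ hm4]
      refine lintegral_congr_ae ?_
      filter_upwards [h.supp] with k hk
      rw [hWK k hk g]
    have hWt : ∀ g, W g * (N g : ℝ≥0∞) ^ 4 = 1 := fun g => by
      rw [hW]
      exact ENNReal.inv_mul_cancel (pow_ne_zero _ (hN0 g)) (ENNReal.pow_ne_top ENNReal.coe_ne_top)
    calc μ B * ∫⁻ g, W g * ‖f g‖ₑ ^ 2 ∂μ
        = ∫⁻ g, W g * (μ B * ∫⁻ k, ‖f (k * g)‖ₑ ^ 2 ∂ν) ∂μ := by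
          have hm5 : Measurable fun g => W g * ∫⁻ k, ‖f (k * g)‖ₑ ^ 2 ∂ν := hWm.mul hm3
          rw [e1, ← lintegral_const_mul _ hm5]
          refine lintegral_congr fun g => ?_
          ring
      _ ≤ ∫⁻ g, W g * ((C * N g ^ 2) ^ 2 * ∫⁻ k, locE μ f B' (k * g) ∂ν) ∂μ := by
          refine lintegral_mono fun g => ?_
          exact mul_le_mul_right (mean_sq_bound h hf h1 hB hB' hBK hB₁ hch g) (W g)
      _ = ∫⁻ g, C ^ 2 * ∫⁻ k, locE μ f B' (k * g) ∂ν ∂μ := by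
          refine lintegral_congr fun g => ?_
          calc W g * ((C * N g ^ 2) ^ 2 * ∫⁻ k, locE μ f B' (k * g) ∂ν)
              = (W g * (N g : ℝ≥0∞) ^ 4) * (C ^ 2 * ∫⁻ k, locE μ f B' (k * g) ∂ν) := by ring
            _ = _ := by rw [hWt, one_mul]
      _ = C ^ 2 * ∫⁻ g, ∫⁻ k, locE μ f B' (k * g) ∂ν ∂μ := by
          rw [lintegral_const_mul']
          exact ENNReal.pow_ne_top ENNReal.coe_ne_top
      _ = C ^ 2 * ∫⁻ g, locE μ f B' g ∂μ := by rw [lintegral_avg h (measurable_locE hf.cont B')]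
      _ ≤ _ := by
          gcongr
          exact lintegral_locE_le hf.cont hB' hen
  have hfin : ∫⁻ g, W g * ‖f g‖ₑ ^ 2 ∂μ ≠ ∞ := by
    intro htop
    rw [htop, ENNReal.mul_top hμB, top_le_iff] at hc
    exact ENNReal.mul_ne_top (ENNReal.pow_ne_top ENNReal.coe_ne_top) (ENNReal.mul_ne_top hD hμB') hc
  -- (d)
  have hd1 : ∀ g, ‖f x‖ₑ ^ 2 ≤ ∫⁻ k, ‖f (x * k * g)‖ₑ ^ 2 ∂ν := fun g => by
    rw [← hf.mean x g]
    exact sq_enorm_integral_le ν (hf.int x g).aestronglyMeasurable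
  have hxm : Measurable fun g => ‖f (x * g)‖ₑ ^ 2 := hfm.comp (measurable_const_mul x)
  have hd : ‖f x‖ₑ ^ 2 * ∫⁻ g, W g ∂μ ≤ N x ^ 4 * ∫⁻ g, W g * ‖f g‖ₑ ^ 2 ∂μ := by
    calc ‖f x‖ₑ ^ 2 * ∫⁻ g, W g ∂μ = ∫⁻ g, ‖f x‖ₑ ^ 2 * W g ∂μ := by rw [lintegral_const_mul _ hWm]
      _ ≤ ∫⁻ g, ∫⁻ k, W (k * g) * ‖f (x * (k * g))‖ₑ ^ 2 ∂ν ∂μ := by
          refine lintegral_mono fun g => ?_
          have e : ∫⁻ k, W (k * g) * ‖f (x * (k * g))‖ₑ ^ 2 ∂ν = W g * ∫⁻ k, ‖f (x * k * g)‖ₑ ^ 2 ∂ν := by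
            rw [← lintegral_const_mul]
            · refine lintegral_congr_ae ?_
              filter_upwards [h.supp] with k hk
              rw [hWK k hk g, mul_assoc]
            · have := hf.cont
              have : Continuous fun k : G => ‖f (x * k * g)‖ₑ ^ 2 := by fun_prop
              exact this.measurable
          rw [e, mul_comm]
          gcongr
          exact hd1 g
      _ = ∫⁻ g, W g * ‖f (x * g)‖ₑ ^ 2 ∂μ := lintegral_avg h (hWm.mul hxm)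
      _ = ∫⁻ g, W (x⁻¹ * g) * ‖f (x * (x⁻¹ * g))‖ₑ ^ 2 ∂μ :=
          (lintegral_mul_left_eq_self (μ := μ) (fun g => W g * ‖f (x * g)‖ₑ ^ 2) x⁻¹).symm
      _ ≤ ∫⁻ g, N x ^ 4 * (W g * ‖f g‖ₑ ^ 2) ∂μ := by
          refine lintegral_mono fun g => ?_
          rw [mul_inv_cancel_left, ← mul_assoc]
          gcongr
          have e : (N g : ℝ≥0∞) ≤ N x * N (x⁻¹ * g) := by
            have := hNmul x (x⁻¹ * g)
            rw [mul_inv_cancel_left] at this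
            exact_mod_cast this
          rw [hW]
          simp only
          rw [← div_eq_mul_inv, ENNReal.le_div_iff_mul_le (Or.inl (pow_ne_zero _ (hN0 g)))
            (Or.inl (ENNReal.pow_ne_top ENNReal.coe_ne_top)), mul_comm, ← div_eq_mul_inv]
          refine ENNReal.div_le_of_le_mul ?_
          rw [← mul_pow]
          gcongr
      _ = _ := by rw [lintegral_const_mul _ hFm]
  by_contra hne
  have hne2 : ‖f x‖ₑ ^ 2 ≠ 0 := pow_ne_zero _ (enorm_ne_zero.2 hne)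
  rw [hdiv, ENNReal.mul_top hne2, top_le_iff] at hd
  exact ENNReal.mul_ne_top (ENNReal.pow_ne_top ENNReal.coe_ne_top) hfin hd

/-- the integral of `N⁻⁴` is infinite as soon as there is a separated family with infinite sum. -/
theorem lintegral_eq_top_of_family [μ.IsMulLeftInvariant] {ι : Type*} [Countable ι] (h : ι → G) {U : Set G}
    (hU : MeasurableSet U) (hμU : μ U ≠ 0) (hdisj : ∀ i j, i ≠ j → ∀ u ∈ U, ∀ v ∈ U, h i * u ≠ h j * v)
    {N : G → NNReal} (hNmul : ∀ x y, N (x * y) ≤ N x * N y) {M : NNReal} (hM : ∀ u ∈ U, N u ≤ M)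
    (hsum : ∑' i, ((N (h i) : ℝ≥0∞) ^ 4)⁻¹ = ∞) : ∫⁻ g, ((N g : ℝ≥0∞) ^ 4)⁻¹ ∂μ = ∞ := by
  have hm : ∀ i, MeasurableSet ((fun x => (h i)⁻¹ * x) ⁻¹' U) := fun i => measurable_const_mul (h i)⁻¹ hU
  have hd : Pairwise (Function.onFun Disjoint fun i => (fun x => (h i)⁻¹ * x) ⁻¹' U) := by
    intro i j hij
    rw [Function.onFun, Set.disjoint_left]
    intro x hx hx'
    exact hdisj i j hij _ hx _ hx' (by simp)
  have h1 : ∀ i, ((N (h i) : ℝ≥0∞) ^ 4)⁻¹ * (((M : ℝ≥0∞) ^ 4)⁻¹ * μ U) ≤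
      ∫⁻ g in (fun x => (h i)⁻¹ * x) ⁻¹' U, ((N g : ℝ≥0∞) ^ 4)⁻¹ ∂μ := by
    intro i
    calc ((N (h i) : ℝ≥0∞) ^ 4)⁻¹ * (((M : ℝ≥0∞) ^ 4)⁻¹ * μ U)
        ≤ ∫⁻ _ in (fun x => (h i)⁻¹ * x) ⁻¹' U, ((N (h i) : ℝ≥0∞) ^ 4)⁻¹ * ((M : ℝ≥0∞) ^ 4)⁻¹ ∂μ := by
          rw [setLIntegral_const, measure_preimage_mul, mul_assoc]
      _ ≤ _ := by
          refine setLIntegral_mono' (hm i) fun g hg => ?_
          have e : (N g : ℝ≥0∞) ≤ N (h i) * M := by
            have h2 := hNmul (h i) ((h i)⁻¹ * g)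
            rw [mul_inv_cancel_left] at h2
            exact_mod_cast h2.trans (mul_le_mul_right (hM _ hg) _)
          have e2 : ((N g : ℝ≥0∞)) ^ 4 ≤ ((N (h i) : ℝ≥0∞)) ^ 4 * (M : ℝ≥0∞) ^ 4 := by
            rw [← mul_pow]
            gcongr
          calc ((N (h i) : ℝ≥0∞) ^ 4)⁻¹ * ((M : ℝ≥0∞) ^ 4)⁻¹ ≤ (((N (h i) : ℝ≥0∞)) ^ 4 * (M : ℝ≥0∞) ^ 4)⁻¹ := by
                rw [ENNReal.mul_inv (Or.inr (ENNReal.pow_ne_top ENNReal.coe_ne_top))
                  (Or.inl (ENNReal.pow_ne_top ENNReal.coe_ne_top))]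
            _ ≤ _ := ENNReal.inv_le_inv.2 e2
  have h2 : ∑' i, ((N (h i) : ℝ≥0∞) ^ 4)⁻¹ * (((M : ℝ≥0∞) ^ 4)⁻¹ * μ U) ≤ ∫⁻ g, ((N g : ℝ≥0∞) ^ 4)⁻¹ ∂μ := by
    calc ∑' i, ((N (h i) : ℝ≥0∞) ^ 4)⁻¹ * (((M : ℝ≥0∞) ^ 4)⁻¹ * μ U)
        ≤ ∑' i, ∫⁻ g in (fun x => (h i)⁻¹ * x) ⁻¹' U, ((N g : ℝ≥0∞) ^ 4)⁻¹ ∂μ := ENNReal.tsum_le_tsum h1
      _ = ∫⁻ g in ⋃ i, (fun x => (h i)⁻¹ * x) ⁻¹' U, ((N g : ℝ≥0∞) ^ 4)⁻¹ ∂μ :=
          (lintegral_iUnion hm hd _).symm
      _ ≤ _ := setLIntegral_le_lintegral _ _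
  rw [ENNReal.tsum_mul_right, hsum, ENNReal.top_mul, top_le_iff] at h2
  · exact h2
  · exact mul_ne_zero (ENNReal.inv_ne_zero.2 (ENNReal.pow_ne_top ENNReal.coe_ne_top)) hμU

/-- the Haar probability measure of a compact subgroup, as a measure on the group -/
theorem exists_haarOn [T2Space G] (K : Subgroup G) (hK : IsCompact (K : Set G)) : ∃ ν : Measure G, HaarOn K ν := by
  haveI : CompactSpace K := isCompact_iff_compactSpace.1 hK
  haveI : Nonempty K := ⟨1⟩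
  let ν₀ : Measure K := haarMeasure (⊤ : TopologicalSpace.PositiveCompacts K)
  haveI : IsProbabilityMeasure ν₀ := ⟨haarMeasure_self⟩
  have hr : ∀ k : K, ν₀.map (fun x => x * k) = ν₀ := by
    intro k
    haveI : (ν₀.map (fun x => x * k)).IsMulLeftInvariant := inferInstance
    haveI : IsProbabilityMeasure (ν₀.map (fun x => x * k)) :=
      isProbabilityMeasure_map (measurable_mul_const k).aemeasurable
    have h1 := isMulInvariant_eq_smul_of_compactSpace (ν₀.map (fun x => x * k)) ν₀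
    have h2 : ν₀.map (fun x => x * k) Set.univ = 1 := measure_univ
    rw [h1, Measure.smul_apply, measure_univ] at h2
    rw [h1]
    have h3 : haarScalarFactor (ν₀.map (fun x => x * k)) ν₀ = 1 := by
      have h4 : (haarScalarFactor (ν₀.map (fun x => x * k)) ν₀ : ℝ≥0∞) * 1 = 1 := h2
      rw [mul_one] at h4
      exact_mod_cast h4
    rw [h3, one_smul]
  have hv : Measurable (Subtype.val : K → G) := measurable_subtype_coe
  refine ⟨ν₀.map Subtype.val, isProbabilityMeasure_map hv.aemeasurable, ?_, ?_, ?_⟩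
  · have hKm : MeasurableSet {x : G | x ∈ K} := hK.measurableSet
    exact (ae_map_iff hv.aemeasurable hKm).2 (Filter.Eventually.of_forall fun x => x.2)
  · intro k hk
    rw [Measure.map_map (measurable_const_mul k) hv]
    have : (fun x => k * x) ∘ (Subtype.val : K → G) = Subtype.val ∘ fun x : K => ⟨k, hk⟩ * x := rfl
    rw [this, ← Measure.map_map hv (measurable_const_mul _), map_mul_left_eq_self]
  · intro k hk
    rw [Measure.map_map (measurable_mul_const k) hv]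
    have : (fun x => x * k) ∘ (Subtype.val : K → G) = Subtype.val ∘ fun x : K => x * ⟨k, hk⟩ := rfl
    rw [this, ← Measure.map_map hv (measurable_mul_const _), hr]

end Main

end Pool.Agent.Helper9.CA
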