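import Pool.Agent.Helper9.CA.Fock6

/-!
# Project FP (MP_0f6f3f_an): the orthogonal complement of the vacuum is a multiple of the regular representation

`D = L²(S; V)` with left translations. `exp z - 1 = z φ(z)`, `φ(z) = Σ zⁿ / (n + 1)!` positive semidefinite: `⟪E v, E w⟫ = φ ⟪v, w⟫`, and for a representation
`ρ` of `S` on `L` the map `x ⊗ (Exp v - Exp 0) ↦ (h ↦ v(h) ⊗ E (λ(h)⁻¹ v) ⊗ ρ(h)⁻¹ x)` is an isometry into `L²(S; N)`, equivariant for the left translations.
-/

set_option autoImplicit false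
set_option linter.unusedSectionVars false

open Filter Topology MeasureTheory
open scoped ComplexOrder ComplexConjugate

namespace Pool.Agent.Helper9.Fock

section Phi

/-- `φ(z) = (exp z - 1) / z` -/
noncomputable def phi (z : ℂ) : ℂ := dslope Complex.exp 0 z

theorem mul_phi (z : ℂ) : z * phi z = Complex.exp z - 1 := by
  have h := sub_smul_dslope Complex.exp 0 z
  rw [sub_zero, smul_eq_mul, Complex.exp_zero] at h
  exact h

theorem continuous_phi : Continuous phi := by
  rw [continuous_iff_continuousAt]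
  intro z
  by_cases hz : z = 0
  · subst hz
    exact continuousAt_dslope_same.2 Complex.differentiable_exp.differentiableAt
  · exact (continuousAt_dslope_of_ne hz).2 Complex.continuous_exp.continuousAt

theorem hasSum_phi (z : ℂ) : HasSum (fun n : ℕ => ((((n + 1).factorial : ℝ)⁻¹ : ℝ) : ℂ) * z ^ n) (phi z) := by
  by_cases hz : z = 0
  · subst hz
    have h1 : phi 0 = 1 := by
      unfold phi
      rw [dslope_same, Complex.deriv_exp, Complex.exp_zero]
    rw [h1]
    have h2 : HasSum (fun n : ℕ => if n = 0 then (1 : ℂ) else 0) 1 := hasSum_ite_eq 0 1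
    convert! h2 using 1
    funext n
    by_cases hn : n = 0
    · subst hn
      simp
    · simp [hn]
  · have h1 := hasSum_exp z
    have h2 := (hasSum_nat_add_iff' 1).2 h1
    simp only [Finset.range_one, Finset.sum_singleton, Nat.factorial_zero, Nat.cast_one, inv_one, Complex.ofReal_one,
      pow_zero, mul_one] at h2
    have h3 := h2.mul_left z⁻¹
    have h4 : z⁻¹ * (Complex.exp z - 1) = phi z := by
      rw [← mul_phi z, inv_mul_cancel_left₀ hz]
    rw [h4] at h3
    convert! h3 using 1
    funext n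
    rw [pow_succ]
    field_simp

variable (D : Type) [NormedAddCommGroup D] [InnerProductSpace ℂ D]

theorem exists_F1 : ∃ (L : Type) (_ : NormedAddCommGroup L) (_ : InnerProductSpace ℂ L) (_ : CompleteSpace L)
    (e : D → L), (∀ x y, inner ℂ (e x) (e y) = phi (inner ℂ x y)) ∧ Continuous e := by
  have hpsd : (Matrix.of fun v w : D => phi (inner ℂ v w)).PosSemidef :=
    psd_series (psd_gram (X := D) fun v : D => v) (c := fun n => ((n + 1).factorial : ℝ)⁻¹) (fun n => by positivity)
      fun v w => hasSum_phi (inner ℂ v w)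
  obtain ⟨L, i1, i2, i3, e, he, -⟩ := Pool.Agent.Helper90.Fib.exists_gns _ hpsd
  have he' : ∀ x y, inner ℂ (e x) (e y) = phi (inner ℂ x y) := he
  refine ⟨L, i1, i2, i3, e, he', ?_⟩
  rw [continuous_iff_continuousAt]
  intro v
  rw [ContinuousAt, tendsto_iff_norm_sub_tendsto_zero]
  have h1 : ∀ w : D, ‖e w - e v‖ ^ 2 = (phi (inner ℂ w w)).re - 2 * (phi (inner ℂ w v)).re + (phi (inner ℂ v v)).re := by
    intro w
    have n1 : ∀ u : D, ‖e u‖ ^ 2 = (phi (inner ℂ u u)).re := fun u => by
      rw [← he', inner_self_eq_norm_sq_to_K]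
      norm_cast
    rw [norm_sub_sq (𝕜 := ℂ), he', n1, n1]
    rfl
  have h2 : Tendsto (fun w : D => ‖e w - e v‖ ^ 2) (𝓝 v) (𝓝 0) := by
    simp only [h1]
    have c1 : Continuous fun w : D => (phi (inner ℂ w w)).re :=
      Complex.continuous_re.comp (continuous_phi.comp (continuous_id.inner continuous_id))
    have c2 : Continuous fun w : D => (phi (inner ℂ w v)).re :=
      Complex.continuous_re.comp (continuous_phi.comp (continuous_id.inner continuous_const))
    have hc : Continuous fun w : D => (phi (inner ℂ w w)).re - 2 * (phi (inner ℂ w v)).re + (phi (inner ℂ v v)).re :=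
      (c1.sub (c2.const_mul 2)).add continuous_const
    have h4 := hc.tendsto v
    have h5 : (phi (inner ℂ v v)).re - 2 * (phi (inner ℂ v v)).re + (phi (inner ℂ v v)).re = 0 := by ring
    rw [h5] at h4
    exact h4
  have h3 : (fun w : D => ‖e w - e v‖) = fun w => Real.sqrt (‖e w - e v‖ ^ 2) := by
    funext w
    rw [Real.sqrt_sq (norm_nonneg _)]
  rw [h3]
  have := (Real.continuous_sqrt.tendsto 0).comp h2
  rw [Real.sqrt_zero] at this
  exact this

end Phi

section HT

open scoped TensorProduct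

variable (E F : Type) [NormedAddCommGroup E] [InnerProductSpace ℂ E] [NormedAddCommGroup F] [InnerProductSpace ℂ F]

/-- the Hilbert space tensor product -/
abbrev HT : Type := UniformSpace.Completion (E ⊗[ℂ] F)

variable {E F}

/-- the elementary tensors -/
noncomputable def ht : E →L[ℂ] F →L[ℂ] HT E F :=
  (ContinuousLinearMap.compL ℂ F (E ⊗[ℂ] F) (HT E F) (UniformSpace.Completion.toComplL (𝕜 := ℂ) (E := E ⊗[ℂ] F))).comp
    (TensorProduct.mkL ℂ E F)

theorem ht_apply (x : E) (y : F) : ht x y = ((x ⊗ₜ[ℂ] y : E ⊗[ℂ] F) : HT E F) := rfl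

theorem inner_ht (x x' : E) (y y' : F) : inner ℂ (ht x y) (ht x' y') = inner ℂ x x' * inner ℂ y y' := by
  rw [ht_apply, ht_apply, UniformSpace.Completion.inner_coe, TensorProduct.inner_tmul]

theorem norm_ht (x : E) (y : F) : ‖ht x y‖ = ‖x‖ * ‖y‖ := by
  rw [ht_apply, UniformSpace.Completion.norm_coe, TensorProduct.norm_tmul]

end HT

section Reg

variable {S : Type} [Group S] [TopologicalSpace S] [IsTopologicalGroup S] [LocallyCompactSpace S] [SecondCountableTopology S]
  [MeasurableSpace S] [BorelSpace S] (μ : Measure S) [μ.IsHaarMeasure]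
  (V : Type) [NormedAddCommGroup V] [InnerProductSpace ℂ V] [CompleteSpace V]

/-- left translation on `L²(S; V)`, as an isometry -/
noncomputable def lamI (g : S) : Lp V 2 μ →ₗᵢ[ℂ] Lp V 2 μ :=
  Lp.compMeasurePreservingₗᵢ ℂ (fun h => g⁻¹ * h) (measurePreserving_mul_left μ g⁻¹)

theorem lamI_ae (g : S) (f : Lp V 2 μ) : lamI μ V g f =ᵐ[μ] fun h => f (g⁻¹ * h) :=
  Lp.coeFn_compMeasurePreserving f (measurePreserving_mul_left μ g⁻¹)

theorem lamI_mul (g g' : S) (f : Lp V 2 μ) : lamI μ V g (lamI μ V g' f) = lamI μ V (g * g') f := by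
  apply Lp.ext
  have h1 := lamI_ae μ V g (lamI μ V g' f)
  have h2 := lamI_ae μ V (g * g') f
  have h3 : ∀ᵐ h ∂μ, lamI μ V g' f (g⁻¹ * h) = f (g'⁻¹ * (g⁻¹ * h)) :=
    (measurePreserving_mul_left μ g⁻¹).quasiMeasurePreserving.ae (lamI_ae μ V g' f)
  filter_upwards [h1, h2, h3] with h a1 a2 a3
  rw [a1, a2, a3, mul_inv_rev, mul_assoc]

theorem lamI_one (f : Lp V 2 μ) : lamI μ V (1 : S) f = f := by
  apply Lp.ext
  filter_upwards [lamI_ae μ V (1 : S) f] with h a1
  rw [a1, inv_one, one_mul]

/-- **The left regular representation on `L²(S; V)`.** -/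
noncomputable def lamL : S →* (Lp V 2 μ ≃ₗᵢ[ℂ] Lp V 2 μ) where
  toFun g := LinearIsometryEquiv.ofSurjective (lamI μ V g) fun w =>
    ⟨lamI μ V g⁻¹ w, by rw [lamI_mul, mul_inv_cancel, lamI_one]⟩
  map_one' := by
    ext1 w
    exact lamI_one μ V w
  map_mul' g g' := by
    ext1 w
    exact (lamI_mul μ V g g' w).symm

variable {V}

theorem lamL_ae (g : S) (f : Lp V 2 μ) : lamL μ V g f =ᵐ[μ] fun h => f (g⁻¹ * h) := lamI_ae μ V g f

theorem continuous_lamL (f : Lp V 2 μ) : Continuous fun g => lamL μ V g f := by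
  let G : C(S, C(S, S)) := (ContinuousMap.mk (fun a : S × S => a.1⁻¹ * a.2) (by fun_prop)).curry
  have h := Continuous.compMeasurePreservingLp (μ := μ) (ν := μ) (p := 2) (E := V) (X := S) (Y := S)
    (f := fun _ : S => f) (g := fun g => G g) continuous_const G.continuous
    (fun g => measurePreserving_mul_left μ g⁻¹) (by norm_num)
  exact h

end Reg

end Pool.Agent.Helper9.Fock
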