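import Pool.Agent.Helper9.CA.Absorb

/-!
# Project FP (MP_0f6f3f_an): the absorption theorem

For every strongly continuous unitary representation `ρ` of `S` on `L` there is a bounded bilinear map `A : L → Fk D → L²(S; N)` (`D = L²(S; V)`) with
`⟪A x y, A x' y'⟫ = ⟪x, x'⟫ (⟪y, y'⟫ - ⟪y, Ω⟫ ⟪Ω, y'⟫)` and `A (ρ g x) (Γ(λ g) y) = λ g (A x y)`.
-/

set_option autoImplicit false
set_option linter.unusedSectionVars false

open Filter Topology MeasureTheory
open scoped ComplexOrder ComplexConjugate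

namespace Pool.Agent.Helper9.Fock

variable {S : Type} [Group S] [TopologicalSpace S] [IsTopologicalGroup S] [LocallyCompactSpace S] [SecondCountableTopology S]
  [MeasurableSpace S] [BorelSpace S] (μ : Measure S) [μ.IsHaarMeasure]
  {V : Type} [NormedAddCommGroup V] [InnerProductSpace ℂ V] [CompleteSpace V]
  {L : Type} [NormedAddCommGroup L] [InnerProductSpace ℂ L] [CompleteSpace L]
  {F1 : Type} [NormedAddCommGroup F1] [InnerProductSpace ℂ F1] [CompleteSpace F1]

section J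

variable {μ} (e : Lp V 2 μ → F1) (ρ : S →* (L ≃ₗᵢ[ℂ] L))

/-- the function `h ↦ v(h) ⊗ (E (λ(h)⁻¹ v) ⊗ ρ(h)⁻¹ x)` -/
noncomputable def jf (x : L) (v : Lp V 2 μ) (h : S) : HT V (HT F1 L) := ht (v h) (ht (e (lamL μ V h⁻¹ v)) (ρ h⁻¹ x))

variable {e ρ}

theorem continuous_jf_aux (he : Continuous e) (hρ : ∀ x, Continuous fun g => ρ g x) (x : L) (v : Lp V 2 μ) :
    Continuous fun h : S => ht (e (lamL μ V h⁻¹ v)) (ρ h⁻¹ x) := by
  have h1 : Continuous fun h : S => e (lamL μ V h⁻¹ v) := he.comp ((continuous_lamL μ v).comp continuous_inv)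
  have h2 : Continuous fun h : S => ρ h⁻¹ x := (hρ x).comp continuous_inv
  have h3 : Continuous fun h : S => (ht (E := F1) (F := L)) (e (lamL μ V h⁻¹ v)) := (ht (E := F1) (F := L)).continuous.comp h1
  have h4 : Continuous fun p : (L →L[ℂ] HT F1 L) × L => p.1 p.2 := isBoundedBilinearMap_apply.continuous
  exact h4.comp (h3.prodMk h2)

theorem norm_jf_aux (hi : ∀ x y, inner ℂ (e x) (e y) = phi (inner ℂ x y)) (x : L) (v : Lp V 2 μ) (h : S) :
    ‖ht (e (lamL μ V h⁻¹ v)) (ρ h⁻¹ x)‖ = ‖e v‖ * ‖x‖ := by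
  rw [norm_ht, LinearIsometryEquiv.norm_map]
  congr 1
  have h1 : ∀ w : Lp V 2 μ, ((‖e w‖ : ℝ) : ℂ) ^ 2 = phi (inner ℂ w w) := fun w => by
    rw [← hi]
    exact (inner_self_eq_norm_sq_to_K (𝕜 := ℂ) (e w)).symm
  have h2 : ‖e (lamL μ V h⁻¹ v)‖ ^ 2 = ‖e v‖ ^ 2 := by
    have h3 := h1 (lamL μ V h⁻¹ v)
    rw [LinearIsometryEquiv.inner_map_map, ← h1 v] at h3
    exact_mod_cast h3
  exact (sq_eq_sq₀ (norm_nonneg _) (norm_nonneg _)).1 h2

theorem memLp_jf (he : Continuous e) (hi : ∀ x y, inner ℂ (e x) (e y) = phi (inner ℂ x y))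
    (hρ : ∀ x, Continuous fun g => ρ g x) (x : L) (v : Lp V 2 μ) : MemLp (jf e ρ x v) 2 μ := by
  have h1 : AEStronglyMeasurable (fun h : S => ht (e (lamL μ V h⁻¹ v)) (ρ h⁻¹ x)) μ :=
    (continuous_jf_aux he hρ x v).aestronglyMeasurable
  have h2 : AEStronglyMeasurable (jf e ρ x v) μ :=
    (ht (E := V) (F := HT F1 L)).aestronglyMeasurable_comp₂ (Lp.aestronglyMeasurable v) h1
  refine MemLp.of_le_mul (g := v) (c := ‖e v‖ * ‖x‖) (Lp.memLp v) h2 (Filter.Eventually.of_forall fun h => ?_)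
  unfold jf
  rw [norm_ht, norm_jf_aux hi, mul_comm]

/-- the vector `x ⊗ (Exp v - Exp 0)` in `L²(S; N)` -/
noncomputable def jv (he : Continuous e) (hi : ∀ x y, inner ℂ (e x) (e y) = phi (inner ℂ x y))
    (hρ : ∀ x, Continuous fun g => ρ g x) (x : L) (v : Lp V 2 μ) : Lp (HT V (HT F1 L)) 2 μ :=
  (memLp_jf he hi hρ x v).toLp _

theorem jv_ae (he : Continuous e) (hi : ∀ x y, inner ℂ (e x) (e y) = phi (inner ℂ x y))
    (hρ : ∀ x, Continuous fun g => ρ g x) (x : L) (v : Lp V 2 μ) : jv he hi hρ x v =ᵐ[μ] jf e ρ x v :=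
  MemLp.coeFn_toLp _

theorem inner_jv (he : Continuous e) (hi : ∀ x y, inner ℂ (e x) (e y) = phi (inner ℂ x y))
    (hρ : ∀ x, Continuous fun g => ρ g x) (x x' : L) (v v' : Lp V 2 μ) :
    inner ℂ (jv he hi hρ x v) (jv he hi hρ x' v') = inner ℂ x x' * (Complex.exp (inner ℂ v v') - 1) := by
  rw [L2.inner_def]
  have h1 : (fun h => inner ℂ (jv he hi hρ x v h) (jv he hi hρ x' v' h)) =ᵐ[μ]
      fun h => inner ℂ (v h) (v' h) * (phi (inner ℂ v v') * inner ℂ x x') := by
    filter_upwards [jv_ae he hi hρ x v, jv_ae he hi hρ x' v'] with h a1 a2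
    rw [a1, a2]
    unfold jf
    rw [inner_ht, inner_ht, hi, LinearIsometryEquiv.inner_map_map, LinearIsometryEquiv.inner_map_map]
  rw [integral_congr_ae h1, integral_mul_const, ← L2.inner_def, ← mul_phi]
  ring

theorem jv_add (he : Continuous e) (hi : ∀ x y, inner ℂ (e x) (e y) = phi (inner ℂ x y))
    (hρ : ∀ x, Continuous fun g => ρ g x) (x x' : L) (v : Lp V 2 μ) :
    jv he hi hρ (x + x') v = jv he hi hρ x v + jv he hi hρ x' v := by
  apply Lp.ext
  filter_upwards [jv_ae he hi hρ (x + x') v, jv_ae he hi hρ x v, jv_ae he hi hρ x' v,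
    Lp.coeFn_add (jv he hi hρ x v) (jv he hi hρ x' v)] with h a1 a2 a3 a4
  rw [a4, Pi.add_apply, a1, a2, a3]
  unfold jf
  rw [map_add, map_add, map_add]

theorem jv_smul (he : Continuous e) (hi : ∀ x y, inner ℂ (e x) (e y) = phi (inner ℂ x y))
    (hρ : ∀ x, Continuous fun g => ρ g x) (c : ℂ) (x : L) (v : Lp V 2 μ) :
    jv he hi hρ (c • x) v = c • jv he hi hρ x v := by
  apply Lp.ext
  filter_upwards [jv_ae he hi hρ (c • x) v, jv_ae he hi hρ x v, Lp.coeFn_smul c (jv he hi hρ x v)] with h a1 a2 a3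
  rw [a3, Pi.smul_apply, a1, a2]
  unfold jf
  rw [map_smul, map_smul, map_smul]

/-- the equivariance -/
theorem lamL_jv (he : Continuous e) (hi : ∀ x y, inner ℂ (e x) (e y) = phi (inner ℂ x y))
    (hρ : ∀ x, Continuous fun g => ρ g x) (g : S) (x : L) (v : Lp V 2 μ) :
    jv he hi hρ (ρ g x) (lamL μ V g v) = lamL μ (HT V (HT F1 L)) g (jv he hi hρ x v) := by
  apply Lp.ext
  have h3 : ∀ᵐ h ∂μ, jv he hi hρ x v (g⁻¹ * h) = jf e ρ x v (g⁻¹ * h) :=
    (measurePreserving_mul_left μ g⁻¹).quasiMeasurePreserving.ae (jv_ae he hi hρ x v)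
  filter_upwards [jv_ae he hi hρ (ρ g x) (lamL μ V g v), lamL_ae μ g (jv he hi hρ x v), lamL_ae μ g v, h3] with h a1 a2 a3 a4
  rw [a1, a2, a4]
  unfold jf
  rw [a3]
  have e1 : lamL μ V h⁻¹ (lamL μ V g v) = lamL μ V (g⁻¹ * h)⁻¹ v := by
    rw [mul_inv_rev, inv_inv, map_mul]
    rfl
  have e2 : ρ h⁻¹ (ρ g x) = ρ (g⁻¹ * h)⁻¹ x := by
    rw [mul_inv_rev, inv_inv, map_mul]
    rfl
  rw [e1, e2]

end J

/-- **The absorption theorem.** -/
theorem exists_absorb (ρ : S →* (L ≃ₗᵢ[ℂ] L)) (hρ : ∀ x, Continuous fun g => ρ g x) :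
    ∃ (N : Type) (_ : NormedAddCommGroup N) (_ : InnerProductSpace ℂ N) (_ : CompleteSpace N)
      (A : L →L[ℂ] Fk (Lp V 2 μ) →L[ℂ] Lp N 2 μ),
      (∀ x x' y y', inner ℂ (A x y) (A x' y') =
        inner ℂ x x' * (inner ℂ y y' - inner ℂ y (Exp 0) * inner ℂ (Exp 0) y')) ∧
      (∀ g x y, A (ρ g x) (Gam (lamL μ V g).toLinearIsometry y) = lamL μ N g (A x y)) := by
  obtain ⟨F1, i1, i2, i3, e, hi, he⟩ := exists_F1 (Lp V 2 μ)
  -- for fixed `x`
  have hx : ∀ x : L, ∃ T : Fk (Lp V 2 μ) →L[ℂ] Lp (HT V (HT F1 L)) 2 μ, (∀ v, T (Exp v) = jv he hi hρ x v) ∧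
      ∀ y, ‖T y‖ ≤ ‖x‖ * ‖y‖ := by
    intro x
    refine exists_bdd (Exp : Lp V 2 μ → Fk (Lp V 2 μ)) total_Exp _ (norm_nonneg _) ?_
    have h1 := psd_rank (X := Lp V 2 μ) (fun _ => ((‖x‖ : ℝ) : ℂ))
    convert! h1 using 1
    ext v w
    rw [Matrix.of_apply, Matrix.of_apply, inner_jv, inner_Exp, Complex.conj_ofReal]
    have h2 : inner ℂ x x = ((‖x‖ : ℝ) : ℂ) ^ 2 := inner_self_eq_norm_sq_to_K (𝕜 := ℂ) x
    rw [h2]
    push_cast
    ring
  choose T hT hTn using hx
  have hadd : ∀ x x' y, T (x + x') y = T x y + T x' y := by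
    intro x x' y
    have h : T (x + x') = T x + T x' := clm_ext total_Exp fun v => by
      show T (x + x') (Exp v) = T x (Exp v) + T x' (Exp v)
      rw [hT, hT, hT, jv_add]
    rw [h]
    rfl
  have hsmul : ∀ (c : ℂ) x y, T (c • x) y = c • T x y := by
    intro c x y
    have h : T (c • x) = c • T x := clm_ext total_Exp fun v => by
      show T (c • x) (Exp v) = c • T x (Exp v)
      rw [hT, hT, jv_smul]
    rw [h]
    rfl
  let A : L →L[ℂ] Fk (Lp V 2 μ) →L[ℂ] Lp (HT V (HT F1 L)) 2 μ :=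
    LinearMap.mkContinuous₂ (LinearMap.mk₂ ℂ (fun x y => T x y) hadd hsmul (fun x y y' => map_add (T x) y y')
      (fun c x y => map_smul (T x) c y)) 1 (fun x y => by
        rw [one_mul]
        exact hTn x y)
  have hA : ∀ x v, A x (Exp v) = jv he hi hρ x v := fun x v => hT x v
  refine ⟨HT V (HT F1 L), inferInstance, inferInstance, inferInstance, A, fun x x' y y' => ?_, fun g x y => ?_⟩
  · have h1 : ∀ (v : Lp V 2 μ) (x x' : L) (y' : Fk (Lp V 2 μ)), inner ℂ (A x (Exp v)) (A x' y') =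
        inner ℂ x x' * (inner ℂ (Exp v) y' - inner ℂ (Exp v) (Exp 0) * inner ℂ (Exp 0) y') := by
      intro v x x' y'
      let M : Submodule ℂ (Fk (Lp V 2 μ)) :=
        { carrier := {y' | inner ℂ (A x (Exp v)) (A x' y') =
            inner ℂ x x' * (inner ℂ (Exp v) y' - inner ℂ (Exp v) (Exp 0) * inner ℂ (Exp 0) y')}
          add_mem' := fun {a b} ha hb => by
            simp only [Set.mem_ofPred_eq, map_add, inner_add_right] at ha hb ⊢
            rw [ha, hb]; ring
          zero_mem' := by simp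
          smul_mem' := fun c a ha => by
            simp only [Set.mem_ofPred_eq, map_smul, inner_smul_right] at ha ⊢
            rw [ha]; ring }
      have hMc : IsClosed (M : Set (Fk (Lp V 2 μ))) := by
        refine isClosed_eq (continuous_const.inner (A x').continuous) ?_
        exact continuous_const.mul ((continuous_const.inner continuous_id).sub
          (continuous_const.mul (continuous_const.inner continuous_id)))
      refine total_induction total_Exp M hMc (fun w => ?_) y'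
      show inner ℂ (A x (Exp v)) (A x' (Exp w)) = _
      rw [hA, hA, inner_jv, inner_Exp, inner_Exp, inner_Exp, inner_zero_left, inner_zero_right, Complex.exp_zero, mul_one]
    let M : Submodule ℂ (Fk (Lp V 2 μ)) :=
      { carrier := {y | inner ℂ (A x' y') (A x y) =
          inner ℂ x' x * (inner ℂ y' y - inner ℂ y' (Exp 0) * inner ℂ (Exp 0) y)}
        add_mem' := fun {a b} ha hb => by
          simp only [Set.mem_ofPred_eq, map_add, inner_add_right] at ha hb ⊢
          rw [ha, hb]; ring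
        zero_mem' := by simp
        smul_mem' := fun c a ha => by
          simp only [Set.mem_ofPred_eq, map_smul, inner_smul_right] at ha ⊢
          rw [ha]; ring }
    have hMc : IsClosed (M : Set (Fk (Lp V 2 μ))) := by
      refine isClosed_eq (continuous_const.inner (A x).continuous) ?_
      exact continuous_const.mul ((continuous_const.inner continuous_id).sub
        (continuous_const.mul (continuous_const.inner continuous_id)))
    have h2 := total_induction total_Exp M hMc (fun w => by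
      show inner ℂ (A x' y') (A x (Exp w)) = inner ℂ x' x * (inner ℂ y' (Exp w) - inner ℂ y' (Exp 0) * inner ℂ (Exp 0) (Exp w))
      rw [← inner_conj_symm, h1 w x x' y', map_mul, map_sub, map_mul, inner_conj_symm, inner_conj_symm, inner_conj_symm,
        inner_conj_symm]
      ring) y
    have h3 : inner ℂ (A x' y') (A x y) = inner ℂ x' x * (inner ℂ y' y - inner ℂ y' (Exp 0) * inner ℂ (Exp 0) y) := h2
    rw [← inner_conj_symm, h3, map_mul, map_sub, map_mul, inner_conj_symm, inner_conj_symm, inner_conj_symm,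
      inner_conj_symm]
    ring
  · have h : (A (ρ g x)).comp (Gam (lamL μ V g).toLinearIsometry).toContinuousLinearMap =
        ((lamL μ (HT V (HT F1 L)) g).toContinuousLinearEquiv : Lp (HT V (HT F1 L)) 2 μ →L[ℂ] Lp (HT V (HT F1 L)) 2 μ).comp
          (A x) := clm_ext total_Exp fun v => by
      show A (ρ g x) (Gam (lamL μ V g).toLinearIsometry (Exp v)) = lamL μ (HT V (HT F1 L)) g (A x (Exp v))
      rw [Gam_Exp, hA]
      have e1 : (lamL μ V g).toLinearIsometry v = lamL μ V g v := rfl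
      rw [e1, hA, lamL_jv]
    exact congrArg (fun R => R y) h

end Pool.Agent.Helper9.Fock
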