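import Pool.Agent.Helper9.CA.SL2Cdiv

/-!
# Project FF (MP_0f6f3f_an): harmonic cocycles of `SL(2, ℂ)` with square integrable coefficients vanish

`ρ` a representation of `SL(2, ℂ)` by bounded operators on a Hilbert space `H` such that for a dense set of `ξ` the coefficients `g ↦ ⟪ξ, ρ(g) z⟫` are square
integrable with `∫ |⟪ξ, ρ(g) z⟫|² dg ≤ C_ξ ‖z‖²`. A continuous cocycle `Z` with `Z = 0` on `SU(2)` and `∫ ρ(k) Z(g) dk = 0` is zero.
-/

set_option autoImplicit false
set_option linter.unusedSectionVars false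
set_option linter.style.haveILetI false

open MeasureTheory Measure ENNReal Topology Matrix

namespace Pool.Agent.Helper9.CA

section Gen

variable {G : Type*} [Group G] [TopologicalSpace G] [IsTopologicalGroup G] [MeasurableSpace G] [BorelSpace G]
  [SecondCountableTopology G]
variable {𝕜 : Type*} [RCLike 𝕜] {H : Type*} [NormedAddCommGroup H] [InnerProductSpace 𝕜 H] [CompleteSpace H]

theorem integrable_of_continuous {K : Subgroup G} (hKc : IsCompact (K : Set G)) {ν : Measure G} (hν : HaarOn K ν)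
    {F : G → 𝕜} (hF : Continuous F) : Integrable F ν := by
  haveI := hν.prob
  have hKm : ∀ᵐ k ∂ν, k ∈ (K : Set G) := hν.supp
  obtain ⟨C, hC⟩ := (hKc.image hF).isBounded.exists_norm_le
  refine Integrable.of_bound hF.measurable.aestronglyMeasurable C ?_
  filter_upwards [hKm] with k hk
  exact hC _ ⟨k, hk, rfl⟩

/-- the coefficient function of a cocycle is harmonic -/
theorem harm_coef {K : Subgroup G} (hKc : IsCompact (K : Set G)) {ν : Measure G} (hν : HaarOn K ν)
    (ρ : G →* (H →L[𝕜] H)) (Z : G → H) (hZc : Continuous Z)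
    (hZ : ∀ g h, Z (g * h) = Z g + ρ g (Z h)) (hZK : ∀ k ∈ K, Z k = 0)
    (hmean : ∀ g ξ, ∫ k, inner 𝕜 ξ (ρ k (Z g)) ∂ν = 0) (ξ : H) : Harm K ν fun g => inner 𝕜 ξ (Z g) := by
  haveI := hν.prob
  have hc : Continuous fun g => inner 𝕜 ξ (Z g) := continuous_const.inner hZc
  refine ⟨hc, fun g k hk => ?_, fun x g => integrable_of_continuous hKc hν (by fun_prop), fun x g => ?_⟩
  · show inner 𝕜 ξ (Z (g * k)) = inner 𝕜 ξ (Z g)
    rw [hZ, hZK k hk, map_zero, add_zero]
  · show ∫ k, inner 𝕜 ξ (Z (x * k * g)) ∂ν = inner 𝕜 ξ (Z x)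
    have e2 : ∀ k, ρ k (Z g) = Z (k * g) - Z k := fun k => by rw [hZ]; abel
    have e : (fun k => inner 𝕜 ξ (Z (x * k * g))) =ᵐ[ν]
        fun k => inner 𝕜 ξ (Z x) + inner 𝕜 ((ρ x).adjoint ξ) (ρ k (Z g)) := by
      filter_upwards [hν.supp] with k hk
      rw [hZ (x * k) g, hZ x k, hZK k hk, map_zero, add_zero, inner_add_right, map_mul,
        ContinuousLinearMap.adjoint_inner_left]
      rfl
    rw [integral_congr_ae e, integral_add (integrable_const _), hmean, add_zero]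
    · simp
    · refine integrable_of_continuous hKc hν ?_
      simp only [e2]
      exact continuous_const.inner ((hZc.comp (continuous_mul_const g)).sub hZc)

end Gen

section SL2C

variable [MeasurableSpace S2] [BorelSpace S2]
variable {𝕜 : Type*} [RCLike 𝕜] {H : Type*} [NormedAddCommGroup H] [InnerProductSpace 𝕜 H] [CompleteSpace H]

/-- **Harmonic cocycles with square integrable coefficients vanish.** -/
theorem cocycle_eq_zero {ν : Measure S2} (hν : HaarOn KU ν) (μ : Measure S2) [μ.IsHaarMeasure]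
    (ρ : S2 →* (H →L[𝕜] H)) (Z : S2 → H) (hZc : Continuous Z)
    (hZ : ∀ g h, Z (g * h) = Z g + ρ g (Z h)) (hZK : ∀ k ∈ KU, Z k = 0)
    (hmean : ∀ g ξ, ∫ k, inner 𝕜 ξ (ρ k (Z g)) ∂ν = 0)
    (D : Set H) (hD : (Submodule.span 𝕜 D).topologicalClosure = ⊤)
    (hsq : ∀ ξ ∈ D, ∃ C : ℝ≥0∞, C ≠ ∞ ∧ ∀ z : H, ∫⁻ g, ‖inner 𝕜 ξ (ρ g z)‖ₑ ^ 2 ∂μ ≤ C * ‖z‖ₑ ^ 2) (x : S2) :
    Z x = 0 := by
  have h1 : ∀ ξ ∈ D, inner 𝕜 ξ (Z x) = 0 := by
    intro ξ hξ
    have hf := harm_coef isCompact_KU hν ρ Z hZc hZ hZK hmean ξ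
    refine eq_zero_SL2C hν μ hf ?_ ?_ x
    · show inner 𝕜 ξ (Z 1) = 0
      rw [hZK 1 KU.one_mem, inner_zero_right]
    · intro B hB
      obtain ⟨C, hC, hCz⟩ := hsq ξ hξ
      obtain ⟨M, hM⟩ := (hB.image hZc).isBounded.exists_norm_le
      refine ⟨C * ENNReal.ofReal M ^ 2, ENNReal.mul_ne_top hC (ENNReal.pow_ne_top ENNReal.ofReal_ne_top), fun b hb => ?_⟩
      have h2 : ∀ g, inner 𝕜 ξ (Z (g * b)) - inner 𝕜 ξ (Z g) = inner 𝕜 ξ (ρ g (Z b)) := fun g => by
        rw [hZ g b, inner_add_right, add_sub_cancel_left]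
      simp only [h2]
      refine (hCz (Z b)).trans ?_
      gcongr
      rw [← ofReal_norm_eq_enorm]
      exact ENNReal.ofReal_le_ofReal (hM _ ⟨b, hb, rfl⟩)
  have h2 : ∀ ξ ∈ Submodule.span 𝕜 D, inner 𝕜 ξ (Z x) = 0 := by
    intro ξ hξ
    induction hξ using Submodule.span_induction with
    | mem y hy => exact h1 y hy
    | zero => exact inner_zero_left _
    | add y z _ _ hy hz => rw [inner_add_left, hy, hz, add_zero]
    | smul a y _ hy => rw [inner_smul_left, hy, mul_zero]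
  have h3 : Z x ∈ (Submodule.span 𝕜 D).topologicalClosure := by rw [hD]; trivial
  have h4 : Z x ∈ closure ((Submodule.span 𝕜 D : Submodule 𝕜 H) : Set H) := h3
  have h5 : closure ((Submodule.span 𝕜 D : Submodule 𝕜 H) : Set H) ⊆ {ξ | inner 𝕜 ξ (Z x) = 0} := by
    refine closure_minimal (fun ξ hξ => h2 ξ hξ) ?_
    exact isClosed_eq (continuous_id.inner continuous_const) continuous_const
  exact inner_self_eq_zero.1 (h5 h4)

end SL2C

end Pool.Agent.Helper9.CA
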