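import Pool.Agent.Helper90.Fib.Gns
import Pool.Agent.Helper90.Fib.Uni
import Pool.Agent.Helper90.Fib.Psd

/-!
# Project FP (MP_0f6f3f_an): the Fock space of a complex Hilbert space

`Fk D`: Hilbert space with a total family `Exp v`, `v ∈ D`, `⟪Exp v, Exp w⟫ = exp ⟪v, w⟫`. Operators are constructed from their values on the total family.
-/

set_option autoImplicit false
set_option linter.unusedSectionVars false

open Filter Topology
open scoped ComplexOrder ComplexConjugate

namespace Pool.Agent.Helper9.Fock

section Psd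

variable {X : Type}

theorem psd_lim {A : ℕ → Matrix X X ℂ} {B : Matrix X X ℂ} (hA : ∀ n, (A n).PosSemidef)
    (h : ∀ x y, Tendsto (fun n => A n x y) atTop (𝓝 (B x y))) : B.PosSemidef :=
  Pool.Agent.Helper90.Fib.psd_lim hA h

/-- the kernel `conj (f x) f y` -/
theorem psd_rank (v : X → ℂ) : (Matrix.of fun x y => conj (v x) * v y).PosSemidef := by
  refine ⟨?_, ?_⟩
  · ext x y
    rw [Matrix.conjTranspose_apply, Matrix.of_apply, Matrix.of_apply]
    simp [mul_comm]
  · intro f
    have e : (f.sum fun i xi => f.sum fun j xj => star xi * (Matrix.of fun x y => conj (v x) * v y) i j * xj) =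
        conj (f.sum fun i xi => v i * xi) * (f.sum fun i xi => v i * xi) := by
      simp only [Finsupp.sum, map_sum, Finset.sum_mul_sum, Matrix.of_apply, map_mul, RCLike.star_def]
      refine Finset.sum_congr rfl fun i _ => Finset.sum_congr rfl fun j _ => by ring
    rw [e, ← Complex.normSq_eq_conj_mul_self]
    exact_mod_cast Complex.normSq_nonneg _

theorem psd_mul {A B : Matrix X X ℂ} (hA : A.PosSemidef) (hB : B.PosSemidef) :
    (Matrix.of fun x y => A x y * B x y).PosSemidef := hA.hadamard hB

theorem psd_smul {A : Matrix X X ℂ} (hA : A.PosSemidef) {c : ℝ} (hc : 0 ≤ c) :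
    (Matrix.of fun x y => (c : ℂ) * A x y).PosSemidef := by
  have h1 := psd_rank (X := X) (fun _ => ((√c : ℝ) : ℂ))
  have h2 := psd_mul h1 hA
  refine (congrArg Matrix.PosSemidef ?_).mp h2
  ext x y
  rw [Matrix.of_apply, Matrix.of_apply, Matrix.of_apply, Complex.conj_ofReal, ← Complex.ofReal_mul, Real.mul_self_sqrt hc]

theorem psd_add {A B : Matrix X X ℂ} (hA : A.PosSemidef) (hB : B.PosSemidef) :
    (Matrix.of fun x y => A x y + B x y).PosSemidef := hA.add hB

theorem psd_pow {A : Matrix X X ℂ} (hA : A.PosSemidef) (n : ℕ) :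
    (Matrix.of fun x y => A x y ^ n).PosSemidef := by
  induction n with
  | zero =>
    refine (congrArg Matrix.PosSemidef ?_).mp (psd_rank (X := X) (fun _ => 1))
    ext x y
    simp
  | succ n ih =>
    refine (congrArg Matrix.PosSemidef ?_).mp (psd_mul ih hA)
    ext x y
    rw [Matrix.of_apply, Matrix.of_apply, Matrix.of_apply, pow_succ]

theorem psd_sum {A : ℕ → Matrix X X ℂ} (hA : ∀ n, (A n).PosSemidef) (n : ℕ) :
    (Matrix.of fun x y => ∑ k ∈ Finset.range n, A k x y).PosSemidef := by
  induction n with
  | zero =>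
    refine (congrArg Matrix.PosSemidef ?_).mp (psd_rank (X := X) (fun _ => 0))
    ext x y
    simp
  | succ n ih =>
    refine (congrArg Matrix.PosSemidef ?_).mp (psd_add ih (hA n))
    ext x y
    rw [Matrix.of_apply, Matrix.of_apply, Matrix.of_apply, Finset.sum_range_succ]

theorem psd_exp {A : Matrix X X ℂ} (hA : A.PosSemidef) :
    (Matrix.of fun x y => Complex.exp (A x y)).PosSemidef := by
  have h1 : ∀ n : ℕ, (Matrix.of fun x y => (((n.factorial : ℝ)⁻¹ : ℝ) : ℂ) *
      (Matrix.of fun x y => A x y ^ n) x y).PosSemidef :=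
    fun n => psd_smul (psd_pow hA n) (by positivity)
  refine psd_lim (fun n => psd_sum h1 n) fun x y => ?_
  have h2 : HasSum (fun n : ℕ => (((n.factorial : ℝ)⁻¹ : ℝ) : ℂ) * A x y ^ n) (Complex.exp (A x y)) := by
    have h3 := NormedSpace.expSeries_div_hasSum_exp (𝔸 := ℂ) (A x y)
    rw [← Complex.exp_eq_exp_ℂ] at h3
    convert! h3 using 2
    push_cast
    field_simp
  exact h2.tendsto_sum_nat

/-- the Gram matrix of a family of vectors -/
theorem psd_gram {E : Type} [NormedAddCommGroup E] [InnerProductSpace ℂ E] (v : X → E) :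
    (Matrix.of fun x y => inner ℂ (v x) (v y)).PosSemidef := by
  refine ⟨?_, ?_⟩
  · ext x y
    rw [Matrix.conjTranspose_apply, Matrix.of_apply, Matrix.of_apply, RCLike.star_def, inner_conj_symm]
  · intro f
    have e : (f.sum fun i xi => f.sum fun j xj => star xi * (Matrix.of fun x y => inner ℂ (v x) (v y)) i j * xj) =
        inner ℂ (f.sum fun i xi => xi • v i) (f.sum fun i xi => xi • v i) := by
      simp only [Finsupp.sum]
      rw [sum_inner]
      refine Finset.sum_congr rfl fun i _ => ?_
      rw [inner_smul_left, inner_sum, Finset.mul_sum]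
      refine Finset.sum_congr rfl fun j _ => ?_
      rw [inner_smul_right, Matrix.of_apply, RCLike.star_def]
      ring
    rw [e, inner_self_eq_norm_sq_to_K]
    have h0 : (0 : ℝ) ≤ ‖f.sum fun i xi => xi • v i‖ ^ 2 := by positivity
    have : ((0 : ℝ) : ℂ) ≤ ((‖f.sum fun i xi => xi • v i‖ ^ 2 : ℝ) : ℂ) := by
      exact_mod_cast h0
    rw [Complex.ofReal_zero, Complex.ofReal_pow] at this
    exact this

end Psd

section Def

variable (D : Type) [NormedAddCommGroup D] [InnerProductSpace ℂ D]

/-- the scalar kernel `exp ⟪v, w⟫` -/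
noncomputable def ker0 : Matrix D D ℂ := Matrix.of fun v w => Complex.exp (inner ℂ v w)

theorem psd_ker0 : (ker0 D).PosSemidef := by
  have h := psd_exp (psd_gram (X := D) (fun v : D => v))
  exact h

theorem exists_fock : ∃ (L : Type) (_ : NormedAddCommGroup L) (_ : InnerProductSpace ℂ L) (_ : CompleteSpace L)
      (e : D → L), (∀ x y, inner ℂ (e x) (e y) = ker0 D x y) ∧
        (Submodule.span ℂ (Set.range e)).topologicalClosure = ⊤ :=
  Pool.Agent.Helper90.Fib.exists_gns (ker0 D) (psd_ker0 D)

/-- the Fock space -/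
def Fk : Type := (exists_fock D).choose

noncomputable instance : NormedAddCommGroup (Fk D) := (exists_fock D).choose_spec.choose

noncomputable instance : InnerProductSpace ℂ (Fk D) := (exists_fock D).choose_spec.choose_spec.choose

instance : CompleteSpace (Fk D) := (exists_fock D).choose_spec.choose_spec.choose_spec.choose

variable {D}

/-- the exponential vectors -/
noncomputable def Exp (v : D) : Fk D := (exists_fock D).choose_spec.choose_spec.choose_spec.choose_spec.choose v

theorem inner_Exp (v w : D) : inner ℂ (Exp v) (Exp w) = Complex.exp (inner ℂ v w) :=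
  (exists_fock D).choose_spec.choose_spec.choose_spec.choose_spec.choose_spec.1 v w

theorem total_Exp : (Submodule.span ℂ (Set.range (Exp : D → Fk D))).topologicalClosure = ⊤ :=
  (exists_fock D).choose_spec.choose_spec.choose_spec.choose_spec.choose_spec.2

end Def

end Pool.Agent.Helper9.Fock
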