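import Pool.Agent.Helper9.CA.Fock

/-!
# Project FP (MP_0f6f3f_an): second quantisation and affine unitaries on the Fock space
-/

set_option autoImplicit false
set_option linter.unusedSectionVars false

open Filter Topology
open scoped ComplexOrder ComplexConjugate

namespace Pool.Agent.Helper9.Fock

section Ext

variable {X : Type} {L L' : Type} [NormedAddCommGroup L] [InnerProductSpace ℂ L] [CompleteSpace L]
  [NormedAddCommGroup L'] [InnerProductSpace ℂ L'] [CompleteSpace L']

theorem denseRange_comb {e : X → L} (ht : (Submodule.span ℂ (Set.range e)).topologicalClosure = ⊤) :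
    DenseRange (Finsupp.linearCombination ℂ e) := by
  have h1 := (Submodule.dense_iff_topologicalClosure_eq_top).2 ht
  rw [← Finsupp.range_linearCombination] at h1
  exact h1

theorem norm_sq_comb (e : X → L) (c : X →₀ ℂ) :
    ((‖Finsupp.linearCombination ℂ e c‖ ^ 2 : ℝ) : ℂ) =
      c.sum fun i xi => c.sum fun j xj => star xi * (Matrix.of fun x y => inner ℂ (e x) (e y)) i j * xj := by
  rw [Complex.ofReal_pow]
  have h0 := inner_self_eq_norm_sq_to_K (𝕜 := ℂ) (Finsupp.linearCombination ℂ e c)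
  have h1 : inner ℂ (Finsupp.linearCombination ℂ e c) (Finsupp.linearCombination ℂ e c) =
      c.sum fun i xi => c.sum fun j xj => star xi * (Matrix.of fun x y => inner ℂ (e x) (e y)) i j * xj := by
    simp only [Finsupp.linearCombination_apply, Finsupp.sum]
    rw [sum_inner]
    refine Finset.sum_congr rfl fun i _ => ?_
    rw [inner_smul_left, inner_sum, Finset.mul_sum]
    refine Finset.sum_congr rfl fun j _ => ?_
    rw [inner_smul_right, Matrix.of_apply, RCLike.star_def]
    ring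
  rw [← h1, h0]
  rfl

/-- An operator is determined by its values on a total family; it exists if the Gram matrix is dominated. -/
theorem exists_bdd (e : X → L) (ht : (Submodule.span ℂ (Set.range e)).topologicalClosure = ⊤) (e' : X → L') {C : ℝ}
    (hC : 0 ≤ C)
    (h : (Matrix.of fun x y => ((C ^ 2 : ℝ) : ℂ) * inner ℂ (e x) (e y) - inner ℂ (e' x) (e' y)).PosSemidef) :
    ∃ T : L →L[ℂ] L', (∀ x, T (e x) = e' x) ∧ ∀ w, ‖T w‖ ≤ C * ‖w‖ := by
  have hn : ∀ c : X →₀ ℂ, ‖Finsupp.linearCombination ℂ e' c‖ ≤ C * ‖Finsupp.linearCombination ℂ e c‖ := by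
    intro c
    have h1 := h.2 c
    have h2 : (c.sum fun i xi => c.sum fun j xj => star xi *
        (Matrix.of fun x y => ((C ^ 2 : ℝ) : ℂ) * inner ℂ (e x) (e y) - inner ℂ (e' x) (e' y)) i j * xj) =
        ((C ^ 2 * ‖Finsupp.linearCombination ℂ e c‖ ^ 2 - ‖Finsupp.linearCombination ℂ e' c‖ ^ 2 : ℝ) : ℂ) := by
      rw [Complex.ofReal_sub, Complex.ofReal_mul, norm_sq_comb e c, norm_sq_comb e' c]
      simp only [Finsupp.sum, Matrix.of_apply, Finset.mul_sum, ← Finset.sum_sub_distrib]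
      refine Finset.sum_congr rfl fun i _ => Finset.sum_congr rfl fun j _ => by ring
    rw [h2] at h1
    have h3 : (0 : ℝ) ≤ C ^ 2 * ‖Finsupp.linearCombination ℂ e c‖ ^ 2 - ‖Finsupp.linearCombination ℂ e' c‖ ^ 2 := by
      exact_mod_cast h1
    refine le_of_sq_le_sq ?_ (by positivity)
    rw [mul_pow]
    linarith
  refine ⟨(Finsupp.linearCombination ℂ e').extendOfNorm (Finsupp.linearCombination ℂ e), fun x => ?_, fun w => ?_⟩
  · have h1 := LinearMap.extendOfNorm_eq (f := Finsupp.linearCombination ℂ e') (e := Finsupp.linearCombination ℂ e)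
      (denseRange_comb ht) ⟨C, hn⟩ (Finsupp.single x 1)
    simpa using h1
  · exact LinearMap.norm_extendOfNorm_apply_le (denseRange_comb ht) C hn w

/-- Isometry from equality of the Gram matrices. -/
theorem exists_isom (e : X → L) (ht : (Submodule.span ℂ (Set.range e)).topologicalClosure = ⊤) (e' : X → L')
    (h : ∀ x y, inner ℂ (e x) (e y) = inner ℂ (e' x) (e' y)) :
    ∃ T : L →ₗᵢ[ℂ] L', ∀ x, T (e x) = e' x := by
  have hn : ∀ c : X →₀ ℂ, ‖Finsupp.linearCombination ℂ e' c‖ = ‖Finsupp.linearCombination ℂ e c‖ := by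
    intro c
    have h1 : ((‖Finsupp.linearCombination ℂ e' c‖ ^ 2 : ℝ) : ℂ) = ((‖Finsupp.linearCombination ℂ e c‖ ^ 2 : ℝ) : ℂ) := by
      rw [norm_sq_comb, norm_sq_comb]
      simp only [Finsupp.sum, Matrix.of_apply, h]
    have h2 : ‖Finsupp.linearCombination ℂ e' c‖ ^ 2 = ‖Finsupp.linearCombination ℂ e c‖ ^ 2 := by exact_mod_cast h1
    exact (sq_eq_sq₀ (norm_nonneg _) (norm_nonneg _)).1 h2
  have hn' : ∀ c : X →₀ ℂ, ‖Finsupp.linearCombination ℂ e' c‖ ≤ 1 * ‖Finsupp.linearCombination ℂ e c‖ := fun c => by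
    rw [one_mul, hn]
  set T := (Finsupp.linearCombination ℂ e').extendOfNorm (Finsupp.linearCombination ℂ e) with hT
  have hTe : ∀ c, T (Finsupp.linearCombination ℂ e c) = Finsupp.linearCombination ℂ e' c := fun c =>
    LinearMap.extendOfNorm_eq (f := Finsupp.linearCombination ℂ e') (e := Finsupp.linearCombination ℂ e)
      (denseRange_comb ht) ⟨1, hn'⟩ c
  have hiso : ∀ w, ‖T w‖ = ‖w‖ := by
    intro w
    refine (denseRange_comb ht).induction_on (p := fun w => ‖T w‖ = ‖w‖) w ?_ fun c => ?_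
    · exact isClosed_eq T.continuous.norm continuous_norm
    · rw [hTe, hn]
  refine ⟨⟨T.toLinearMap, hiso⟩, fun x => ?_⟩
  have h1 := hTe (Finsupp.single x 1)
  simpa using h1

/-- Bounded operators which agree on a total family are equal. -/
theorem clm_ext {e : X → L} (ht : (Submodule.span ℂ (Set.range e)).topologicalClosure = ⊤) {S T : L →L[ℂ] L'}
    (h : ∀ x, S (e x) = T (e x)) : S = T := by
  have h1 := (Submodule.dense_iff_topologicalClosure_eq_top).2 ht
  exact ContinuousLinearMap.ext_on h1 (by rintro _ ⟨x, rfl⟩; exact h x)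

/-- Convergence of a bounded net of operators may be checked on a total family. -/
theorem tendsto_of_total {ι : Type*} {l : Filter ι} {e : X → L}
    (ht : (Submodule.span ℂ (Set.range e)).topologicalClosure = ⊤) (T : ι → (L →L[ℂ] L')) (T₀ : L →L[ℂ] L') {C : ℝ}
    (hT : ∀ i w, ‖T i w‖ ≤ C * ‖w‖) (hT₀ : ∀ w, ‖T₀ w‖ ≤ C * ‖w‖)
    (h : ∀ x, Tendsto (fun i => T i (e x)) l (𝓝 (T₀ (e x)))) (w : L) :
    Tendsto (fun i => T i w) l (𝓝 (T₀ w)) := by
  have h2 : ∀ v ∈ Submodule.span ℂ (Set.range e), Tendsto (fun i => T i v) l (𝓝 (T₀ v)) := by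
    intro v hv
    induction hv using Submodule.span_induction with
    | mem v hv =>
      obtain ⟨x, rfl⟩ := hv
      exact h x
    | zero =>
      simp only [map_zero]
      exact tendsto_const_nhds
    | add x y _ _ hx hy =>
      simp only [map_add]
      exact hx.add hy
    | smul a x _ hx =>
      simp only [map_smul]
      exact hx.const_smul a
  have hd := (Submodule.dense_iff_topologicalClosure_eq_top).2 ht
  rw [Metric.tendsto_nhds]
  intro ε hε
  obtain ⟨v, hv, hvw⟩ := Metric.mem_closure_iff.1 (hd w) (ε / (3 * (|C| + 1))) (by positivity)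
  have hvw' : (|C| + 1) * ‖w - v‖ < ε / 3 := by
    rw [dist_eq_norm] at hvw
    calc (|C| + 1) * ‖w - v‖ < (|C| + 1) * (ε / (3 * (|C| + 1))) := by gcongr
      _ = ε / 3 := by field_simp
  have hb : C * ‖w - v‖ ≤ (|C| + 1) * ‖w - v‖ := by
    have := le_abs_self C
    gcongr
    linarith
  filter_upwards [(Metric.tendsto_nhds.1 (h2 v hv)) (ε / 3) (by positivity)] with i hi
  calc dist (T i w) (T₀ w) ≤ dist (T i w) (T i v) + dist (T i v) (T₀ v) + dist (T₀ v) (T₀ w) := dist_triangle4 _ _ _ _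
    _ < ε / 3 + ε / 3 + ε / 3 := by
        have a1 : dist (T i w) (T i v) ≤ C * ‖w - v‖ := by
          rw [dist_eq_norm, ← map_sub]; exact hT i _
        have a2 : dist (T₀ v) (T₀ w) ≤ C * ‖w - v‖ := by
          rw [dist_comm, dist_eq_norm, ← map_sub]; exact hT₀ _
        linarith
    _ = ε := by ring

end Ext

section Gam

variable {D D' D'' : Type} [NormedAddCommGroup D] [InnerProductSpace ℂ D] [NormedAddCommGroup D'] [InnerProductSpace ℂ D']
  [NormedAddCommGroup D''] [InnerProductSpace ℂ D'']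

theorem norm_Exp (v : D) : ‖Exp v‖ = Real.exp (‖v‖ ^ 2 / 2) := by
  have h1 := inner_Exp v v
  rw [inner_self_eq_norm_sq_to_K, inner_self_eq_norm_sq_to_K] at h1
  have h2 : ((‖Exp v‖ ^ 2 : ℝ) : ℂ) = ((Real.exp (‖v‖ ^ 2) : ℝ) : ℂ) := by
    push_cast
    exact h1
  have h3 : ‖Exp v‖ ^ 2 = Real.exp (‖v‖ ^ 2) := by exact_mod_cast h2
  have h4 : Real.exp (‖v‖ ^ 2 / 2) ^ 2 = Real.exp (‖v‖ ^ 2) := by
    rw [← Real.exp_nat_mul]; congr 1; push_cast; ring
  rw [← h4] at h3
  exact (sq_eq_sq₀ (norm_nonneg _) (Real.exp_pos _).le).1 h3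

/-- the exponential map is continuous -/
theorem continuous_Exp : Continuous (Exp : D → Fk D) := by
  rw [continuous_iff_continuousAt]
  intro v
  rw [ContinuousAt, tendsto_iff_norm_sub_tendsto_zero]
  have h1 : ∀ w : D, ‖Exp w - Exp v‖ ^ 2 = Real.exp (‖w‖ ^ 2) - 2 * (Complex.exp (inner ℂ w v)).re + Real.exp (‖v‖ ^ 2) := by
    intro w
    rw [norm_sub_sq (𝕜 := ℂ), inner_Exp, norm_Exp, norm_Exp, ← Real.exp_nat_mul, ← Real.exp_nat_mul]
    have e : ∀ x : ℝ, ((2 : ℕ) : ℝ) * (x / 2) = x := fun x => by push_cast; ring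
    rw [e, e]
    rfl
  have h2 : Tendsto (fun w : D => ‖Exp w - Exp v‖ ^ 2) (𝓝 v) (𝓝 0) := by
    simp only [h1]
    have hc : Continuous fun w : D => Real.exp (‖w‖ ^ 2) - 2 * (Complex.exp (inner ℂ w v)).re + Real.exp (‖v‖ ^ 2) := by
      have : Continuous fun w : D => inner ℂ w v := continuous_id.inner continuous_const
      have h3 : Continuous fun w : D => (Complex.exp (inner ℂ w v)).re :=
        Complex.continuous_re.comp (Complex.continuous_exp.comp this)
      fun_prop
    have h4 := hc.tendsto v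
    have h5 : Real.exp (‖v‖ ^ 2) - 2 * (Complex.exp (inner ℂ v v)).re + Real.exp (‖v‖ ^ 2) = 0 := by
      have h6 := h1 v
      rw [sub_self, norm_zero] at h6
      rw [← h6]
      norm_num
    rw [h5] at h4
    exact h4
  have h3 : (fun w : D => ‖Exp w - Exp v‖) = fun w => Real.sqrt (‖Exp w - Exp v‖ ^ 2) := by
    funext w
    rw [Real.sqrt_sq (norm_nonneg _)]
  rw [h3]
  have := (Real.continuous_sqrt.tendsto 0).comp h2
  rw [Real.sqrt_zero] at this
  exact this

/-- second quantisation of an isometry -/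
noncomputable def Gam (U : D →ₗᵢ[ℂ] D') : Fk D →ₗᵢ[ℂ] Fk D' :=
  (exists_isom (Exp : D → Fk D) total_Exp (fun v => Exp (U v)) (fun v w => by
    rw [inner_Exp, inner_Exp, U.inner_map_map])).choose

theorem Gam_Exp (U : D →ₗᵢ[ℂ] D') (v : D) : Gam U (Exp v) = Exp (U v) :=
  (exists_isom (Exp : D → Fk D) total_Exp (fun v => Exp (U v)) (fun v w => by
    rw [inner_Exp, inner_Exp, U.inner_map_map])).choose_spec v

/-- the image of `Exp v` under the affine isometry `v ↦ h v + √t c` -/
noncomputable def affVec (t : ℝ) (c : D') (h : D →ₗᵢ[ℂ] D') (v : D) : Fk D' :=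
  Complex.exp (-(t * ‖c‖ ^ 2 / 2 : ℝ) - Real.sqrt t * inner ℂ c (h v)) • Exp (h v + (Real.sqrt t : ℂ) • c)

theorem inner_affVec {t : ℝ} (ht : 0 ≤ t) (c : D') (h : D →ₗᵢ[ℂ] D') (v w : D) :
    inner ℂ (affVec t c h v) (affVec t c h w) = Complex.exp (inner ℂ v w) := by
  unfold affVec
  rw [inner_smul_left, inner_smul_right, inner_Exp, ← Complex.exp_conj, ← Complex.exp_add, ← Complex.exp_add]
  congr 1
  have h2 : ((Real.sqrt t : ℝ) : ℂ) * (Real.sqrt t : ℝ) = (t : ℂ) := by exact_mod_cast Real.mul_self_sqrt ht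
  have h3 : inner ℂ c c = ((‖c‖ : ℝ) : ℂ) ^ 2 := inner_self_eq_norm_sq_to_K c
  have h4 : conj (inner ℂ c (h v)) = inner ℂ (h v) c := inner_conj_symm _ _
  simp only [map_sub, map_neg, map_mul, Complex.conj_ofReal, inner_add_left, inner_add_right, inner_smul_left,
    inner_smul_right, h3, h4, h.inner_map_map]
  push_cast
  linear_combination (-(‖c‖ : ℂ) ^ 2 * 0 + (‖c‖ : ℂ) ^ 2) * h2

/-- the isometry of an affine isometry -/
noncomputable def AffI {t : ℝ} (ht : 0 ≤ t) (c : D') (h : D →ₗᵢ[ℂ] D') : Fk D →ₗᵢ[ℂ] Fk D' :=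
  (exists_isom (Exp : D → Fk D) total_Exp (fun v => affVec t c h v) (fun v w => by
    rw [inner_Exp, inner_affVec ht])).choose

theorem AffI_Exp {t : ℝ} (ht : 0 ≤ t) (c : D') (h : D →ₗᵢ[ℂ] D') (v : D) :
    AffI ht c h (Exp v) = Complex.exp (-(t * ‖c‖ ^ 2 / 2 : ℝ) - Real.sqrt t * inner ℂ c (h v)) •
      Exp (h v + (Real.sqrt t : ℂ) • c) :=
  (exists_isom (Exp : D → Fk D) total_Exp (fun v => affVec t c h v) (fun v w => by
    rw [inner_Exp, inner_affVec ht])).choose_spec v

/-- composition of affine isometries with real phase -/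
theorem AffI_comp {t : ℝ} (ht : 0 ≤ t) (c : D'') (h : D' →ₗᵢ[ℂ] D'') (c' : D') (h' : D →ₗᵢ[ℂ] D')
    (hreal : (inner ℂ c (h c')).im = 0) (w : Fk D) :
    AffI ht c h (AffI ht c' h' w) = AffI ht (c + h c') (h.comp h') w := by
  have key : (AffI ht c h).toContinuousLinearMap.comp (AffI ht c' h').toContinuousLinearMap =
      (AffI ht (c + h c') (h.comp h')).toContinuousLinearMap := by
    refine clm_ext total_Exp fun v => ?_
    show AffI ht c h (AffI ht c' h' (Exp v)) = AffI ht (c + h c') (h.comp h') (Exp v)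
    rw [AffI_Exp, map_smul, AffI_Exp, AffI_Exp, smul_smul, ← Complex.exp_add]
    have e1 : h (h' v + (Real.sqrt t : ℂ) • c') + (Real.sqrt t : ℂ) • c =
        (h.comp h') v + (Real.sqrt t : ℂ) • (c + h c') := by
      rw [map_add, map_smul, smul_add]
      show h (h' v) + _ + _ = h (h' v) + _
      abel
    rw [e1]
    congr 2
    have h2 : ((Real.sqrt t : ℝ) : ℂ) * (Real.sqrt t : ℝ) = (t : ℂ) := by exact_mod_cast Real.mul_self_sqrt ht
    have h5 : inner ℂ (h c') c = inner ℂ c (h c') := by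
      rw [← inner_conj_symm]
      exact Complex.conj_eq_iff_im.2 hreal
    have h6 : ((‖c + h c'‖ : ℝ) : ℂ) ^ 2 = ((‖c‖ : ℝ) : ℂ) ^ 2 + 2 * inner ℂ c (h c') + ((‖c'‖ : ℝ) : ℂ) ^ 2 := by
      have a1 : inner ℂ (c + h c') (c + h c') = ((‖c + h c'‖ : ℝ) : ℂ) ^ 2 := inner_self_eq_norm_sq_to_K _
      have a2 : inner ℂ c c = ((‖c‖ : ℝ) : ℂ) ^ 2 := inner_self_eq_norm_sq_to_K _
      have a3 : inner ℂ c' c' = ((‖c'‖ : ℝ) : ℂ) ^ 2 := inner_self_eq_norm_sq_to_K _
      rw [← a1, ← a2, ← a3, inner_add_left, inner_add_right, inner_add_right, h5, h.inner_map_map]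
      ring
    have h7 : inner ℂ (c + h c') ((h.comp h') v) = inner ℂ c (h (h' v)) + inner ℂ c' (h' v) := by
      rw [inner_add_left]
      show inner ℂ c (h (h' v)) + inner ℂ (h c') (h (h' v)) = _
      rw [h.inner_map_map]
    rw [h7, map_add, map_smul, inner_add_right, inner_smul_right]
    push_cast
    rw [h6]
    linear_combination (- inner ℂ c (h c')) * h2
  exact congrArg (fun T => T w) key

theorem AffI_one {t : ℝ} (ht : 0 ≤ t) (w : Fk D) : AffI ht (0 : D) (LinearIsometry.id : D →ₗᵢ[ℂ] D) w = w := by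
  have key : (AffI ht (0 : D) (LinearIsometry.id : D →ₗᵢ[ℂ] D)).toContinuousLinearMap = ContinuousLinearMap.id ℂ (Fk D) := by
    refine clm_ext total_Exp fun v => ?_
    show AffI ht (0 : D) (LinearIsometry.id : D →ₗᵢ[ℂ] D) (Exp v) = Exp v
    rw [AffI_Exp]
    simp
  exact congrArg (fun T => T w) key

end Gam

end Pool.Agent.Helper9.Fock
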