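import Pool.Agent.Helper9.CA.Fock2

/-!
# Project FP (MP_0f6f3f_an): the representations `π_t` on the Fock space attached to a real cocycle
-/

set_option autoImplicit false
set_option linter.unusedSectionVars false

open Filter Topology
open scoped ComplexOrder ComplexConjugate

namespace Pool.Agent.Helper9.Fock

section Conv

variable {D D' : Type} [NormedAddCommGroup D] [InnerProductSpace ℂ D] [NormedAddCommGroup D'] [InnerProductSpace ℂ D']

/-- joint continuity of the affine isometries -/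
theorem tendsto_AffI {ι : Type*} {l : Filter ι} {t : ι → ℝ} (ht : ∀ i, 0 ≤ t i) {t₀ : ℝ} (ht₀ : 0 ≤ t₀)
    (htt : Tendsto t l (𝓝 t₀)) {c : ι → D'} {c₀ : D'} (hc : Tendsto c l (𝓝 c₀)) {h : ι → (D →ₗᵢ[ℂ] D')}
    {h₀ : D →ₗᵢ[ℂ] D'} (hh : ∀ v, Tendsto (fun i => h i v) l (𝓝 (h₀ v))) (w : Fk D) :
    Tendsto (fun i => AffI (ht i) (c i) (h i) w) l (𝓝 (AffI ht₀ c₀ h₀ w)) := by
  refine tendsto_of_total (total_Exp (D := D)) (fun i => (AffI (ht i) (c i) (h i)).toContinuousLinearMap)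
    (AffI ht₀ c₀ h₀).toContinuousLinearMap (C := 1) (fun i w => ?_) (fun w => ?_) (fun v => ?_) w
  · rw [one_mul]
    exact ((AffI (ht i) (c i) (h i)).norm_map w).le
  · rw [one_mul]
    exact ((AffI ht₀ c₀ h₀).norm_map w).le
  · show Tendsto (fun i => AffI (ht i) (c i) (h i) (Exp v)) l (𝓝 (AffI ht₀ c₀ h₀ (Exp v)))
    simp only [AffI_Exp]
    have h1 : Tendsto (fun i => Real.sqrt (t i)) l (𝓝 (Real.sqrt t₀)) := (Real.continuous_sqrt.tendsto _).comp htt
    have h2 : Tendsto (fun i => ((Real.sqrt (t i) : ℝ) : ℂ)) l (𝓝 ((Real.sqrt t₀ : ℝ) : ℂ)) :=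
      (Complex.continuous_ofReal.tendsto _).comp h1
    have h3 : Tendsto (fun i => ((t i * ‖c i‖ ^ 2 / 2 : ℝ) : ℂ)) l (𝓝 ((t₀ * ‖c₀‖ ^ 2 / 2 : ℝ) : ℂ)) :=
      (Complex.continuous_ofReal.tendsto _).comp ((htt.mul (hc.norm.pow 2)).div_const 2)
    have h4 : Tendsto (fun i => inner ℂ (c i) (h i v)) l (𝓝 (inner ℂ c₀ (h₀ v))) := hc.inner (hh v)
    refine Tendsto.smul ((Complex.continuous_exp.tendsto _).comp (h3.neg.sub (h2.mul h4))) ?_
    exact (continuous_Exp.tendsto _).comp ((hh v).add (h2.smul hc))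

theorem AffI_zero (c : D') (h : D →ₗᵢ[ℂ] D') (w : Fk D) : AffI le_rfl c h w = Gam h w := by
  have key : (AffI le_rfl c h).toContinuousLinearMap = (Gam h).toContinuousLinearMap := by
    refine clm_ext total_Exp fun v => ?_
    show AffI le_rfl c h (Exp v) = Gam h (Exp v)
    rw [AffI_Exp, Gam_Exp]
    simp
  exact congrArg (fun T => T w) key

theorem AffI_zero_vec {t : ℝ} (ht : 0 ≤ t) (h : D →ₗᵢ[ℂ] D') (w : Fk D) : AffI ht 0 h w = Gam h w := by
  have key : (AffI ht 0 h).toContinuousLinearMap = (Gam h).toContinuousLinearMap := by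
    refine clm_ext total_Exp fun v => ?_
    show AffI ht 0 h (Exp v) = Gam h (Exp v)
    rw [AffI_Exp, Gam_Exp]
    simp
  exact congrArg (fun T => T w) key

end Conv

section Rep

variable {D : Type} [NormedAddCommGroup D] [InnerProductSpace ℂ D] {S : Type*} [Group S]

/-- a unitary representation with a real 1-cocycle -/
structure RCoc (S : Type*) [Group S] (D : Type) [NormedAddCommGroup D] [InnerProductSpace ℂ D] where
  /-- the representation -/
  lam : S →* (D ≃ₗᵢ[ℂ] D)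
  /-- the cocycle -/
  c : S → D
  coc : ∀ g g', c (g * g') = c g + lam g (c g')
  real : ∀ g g', (inner ℂ (c g) (lam g (c g'))).im = 0

variable (P : RCoc S D)

theorem RCoc.c_one : P.c 1 = 0 := by
  have h := P.coc 1 1
  rw [mul_one, map_one] at h
  have h2 : P.c 1 = P.c 1 + P.c 1 := h
  exact left_eq_add.1 h2

/-- the isometries `π_t(g)` -/
noncomputable def RCoc.iso {t : ℝ} (ht : 0 ≤ t) (g : S) : Fk D →ₗᵢ[ℂ] Fk D := AffI ht (P.c g) (P.lam g).toLinearIsometry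

theorem RCoc.iso_mul {t : ℝ} (ht : 0 ≤ t) (g g' : S) (w : Fk D) : P.iso ht g (P.iso ht g' w) = P.iso ht (g * g') w := by
  unfold RCoc.iso
  rw [AffI_comp ht _ _ _ _ (P.real g g')]
  have e1 : (P.lam g).toLinearIsometry (P.c g') = P.lam g (P.c g') := rfl
  have e2 : (P.lam g).toLinearIsometry.comp (P.lam g').toLinearIsometry = (P.lam (g * g')).toLinearIsometry := by
    ext v
    rw [map_mul]
    rfl
  rw [e1, e2, ← P.coc]

theorem RCoc.iso_one {t : ℝ} (ht : 0 ≤ t) (w : Fk D) : P.iso ht 1 w = w := by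
  unfold RCoc.iso
  rw [P.c_one, map_one]
  exact AffI_one ht w

/-- **The representation `π_t`.** -/
noncomputable def RCoc.piT {t : ℝ} (ht : 0 ≤ t) : S →* (Fk D ≃ₗᵢ[ℂ] Fk D) where
  toFun g := LinearIsometryEquiv.ofSurjective (P.iso ht g) fun w =>
    ⟨P.iso ht g⁻¹ w, by rw [P.iso_mul, mul_inv_cancel, P.iso_one]⟩
  map_one' := by
    ext w
    exact P.iso_one ht w
  map_mul' g g' := by
    ext w
    exact (P.iso_mul ht g g' w).symm

theorem RCoc.piT_apply {t : ℝ} (ht : 0 ≤ t) (g : S) (w : Fk D) :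
    P.piT ht g w = AffI ht (P.c g) (P.lam g).toLinearIsometry w := rfl

theorem RCoc.piT_Exp {t : ℝ} (ht : 0 ≤ t) (g : S) (v : D) :
    P.piT ht g (Exp v) = Complex.exp (-(t * ‖P.c g‖ ^ 2 / 2 : ℝ) - Real.sqrt t * inner ℂ (P.c g) (P.lam g v)) •
      Exp (P.lam g v + (Real.sqrt t : ℂ) • P.c g) := AffI_Exp ht _ _ v

/-- the vacuum coefficient -/
theorem RCoc.vac_coef {t : ℝ} (ht : 0 ≤ t) (g : S) :
    inner ℂ (Exp (0 : D)) (P.piT ht g (Exp 0)) = Real.exp (-(t * ‖P.c g‖ ^ 2 / 2)) := by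
  rw [P.piT_Exp, inner_smul_right, inner_Exp]
  simp

/-- on the isotropy group of the cocycle all `π_t` agree -/
theorem RCoc.piT_of_c_eq_zero {t : ℝ} (ht : 0 ≤ t) {g : S} (hg : P.c g = 0) (w : Fk D) :
    P.piT ht g w = Gam (P.lam g).toLinearIsometry w := by
  rw [P.piT_apply, hg, AffI_zero_vec]

theorem RCoc.piT_zero (g : S) (w : Fk D) : P.piT le_rfl g w = Gam (P.lam g).toLinearIsometry w := by
  rw [P.piT_apply, AffI_zero]

/-- joint continuity in `(t, g)` -/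
theorem RCoc.tendsto_piT {ι : Type*} {l : Filter ι} {t : ι → ℝ} (ht : ∀ i, 0 ≤ t i) {t₀ : ℝ} (ht₀ : 0 ≤ t₀)
    (htt : Tendsto t l (𝓝 t₀)) {g : ι → S} {g₀ : S} (hc : Tendsto (fun i => P.c (g i)) l (𝓝 (P.c g₀)))
    (hl : ∀ v, Tendsto (fun i => P.lam (g i) v) l (𝓝 (P.lam g₀ v))) (w : Fk D) :
    Tendsto (fun i => P.piT (ht i) (g i) w) l (𝓝 (P.piT ht₀ g₀ w)) :=
  tendsto_AffI ht ht₀ htt hc (h := fun i => (P.lam (g i)).toLinearIsometry) (h₀ := (P.lam g₀).toLinearIsometry) hl w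

theorem RCoc.continuous_piT [TopologicalSpace S] (hc : Continuous P.c) (hl : ∀ v, Continuous fun g => P.lam g v) {t : ℝ}
    (ht : 0 ≤ t) (w : Fk D) : Continuous fun g => P.piT ht g w := by
  rw [continuous_iff_continuousAt]
  intro g₀
  exact P.tendsto_piT (fun _ => ht) ht tendsto_const_nhds (hc.tendsto g₀) (fun v => (hl v).tendsto g₀) w

end Rep

end Pool.Agent.Helper9.Fock
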