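import Pool.Agent.Helper9.CA.Fock3

/-!
# Project FP (MP_0f6f3f_an): tensor products of Fock spaces

`tens : Fk D → Fk D' → Fk (D ⊕ D')` bilinear with `⟪tens x y, tens x' y'⟫ = ⟪x, x'⟫ ⟪y, y'⟫`, `tens (Exp v) (Exp w) = Exp (v, w)`.
-/

set_option autoImplicit false
set_option linter.unusedSectionVars false

open Filter Topology
open scoped ComplexOrder ComplexConjugate

namespace Pool.Agent.Helper9.Fock

section Tot

variable {X : Type} {L L' : Type} [NormedAddCommGroup L] [InnerProductSpace ℂ L] [NormedAddCommGroup L'] [InnerProductSpace ℂ L']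

/-- a property closed under linear combinations and limits which holds on a total family holds everywhere -/
theorem total_induction {e : X → L} (ht : (Submodule.span ℂ (Set.range e)).topologicalClosure = ⊤) (M : Submodule ℂ L)
    (hM : IsClosed (M : Set L)) (h : ∀ x, e x ∈ M) (w : L) : w ∈ M := by
  have h1 : (Submodule.span ℂ (Set.range e)).topologicalClosure ≤ M := by
    refine Submodule.topologicalClosure_minimal _ (Submodule.span_le.2 ?_) hM
    rintro _ ⟨x, rfl⟩
    exact h x
  rw [ht] at h1
  exact h1 trivial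

end Tot

section Tens

variable {D D' : Type} [NormedAddCommGroup D] [InnerProductSpace ℂ D] [NormedAddCommGroup D'] [InnerProductSpace ℂ D']

/-- the pair `(v, w)` in `D ⊕ D'` -/
def pr (v : D) (w : D') : WithLp 2 (D × D') := WithLp.toLp 2 (v, w)

theorem inner_pr (v v' : D) (w w' : D') : inner ℂ (pr v w) (pr v' w') = inner ℂ v v' + inner ℂ w w' := by
  rw [WithLp.prod_inner_apply]
  rfl

theorem exists_pr (z : WithLp 2 (D × D')) : ∃ v w, z = pr v w := ⟨z.fst, z.snd, rfl⟩

theorem psd_zero {X : Type} : (0 : Matrix X X ℂ).PosSemidef := Matrix.PosSemidef.zero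

theorem exists_tw (w : D') : ∃ T : Fk D →L[ℂ] Fk (WithLp 2 (D × D')), (∀ v, T (Exp v) = Exp (pr v w)) ∧
    ∀ x, ‖T x‖ ≤ ‖Exp w‖ * ‖x‖ := by
  refine exists_bdd (Exp : D → Fk D) total_Exp _ (norm_nonneg _) ?_
  convert! psd_zero (X := D) using 1
  ext v v'
  rw [Matrix.of_apply, inner_Exp, inner_Exp, inner_pr, Complex.exp_add, Matrix.zero_apply]
  have h1 : inner ℂ (Exp w) (Exp w) = ((‖Exp w‖ : ℝ) : ℂ) ^ 2 := inner_self_eq_norm_sq_to_K _
  rw [inner_Exp] at h1
  rw [h1]
  push_cast
  ring

/-- the operator `x ↦ x ⊗ Exp w` -/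
noncomputable def tw (w : D') : Fk D →L[ℂ] Fk (WithLp 2 (D × D')) := (exists_tw w).choose

theorem tw_Exp (v : D) (w : D') : tw w (Exp v) = Exp (pr v w) := (exists_tw w).choose_spec.1 v

theorem inner_tw (w w' : D') (x x' : Fk D) : inner ℂ (tw w x) (tw w' x') = inner ℂ x x' * Complex.exp (inner ℂ w w') := by
  have h1 : ∀ v : D, ∀ x' : Fk D, inner ℂ (tw w (Exp v)) (tw w' x') = inner ℂ (Exp v) x' * Complex.exp (inner ℂ w w') := by
    intro v x'
    let M : Submodule ℂ (Fk D) :=
      { carrier := {x' | inner ℂ (tw w (Exp v)) (tw w' x') = inner ℂ (Exp v) x' * Complex.exp (inner ℂ w w')}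
        add_mem' := fun {a b} ha hb => by
          simp only [Set.mem_ofPred_eq, map_add, inner_add_right] at ha hb ⊢
          rw [ha, hb]; ring
        zero_mem' := by simp
        smul_mem' := fun c a ha => by
          simp only [Set.mem_ofPred_eq, map_smul, inner_smul_right] at ha ⊢
          rw [ha]; ring }
    have hMc : IsClosed (M : Set (Fk D)) := by
      refine isClosed_eq (continuous_const.inner (tw w').continuous) ?_
      exact (continuous_const.inner continuous_id).mul continuous_const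
    refine total_induction total_Exp M hMc (fun v' => ?_) x'
    show inner ℂ (tw w (Exp v)) (tw w' (Exp v')) = _
    rw [tw_Exp, tw_Exp, inner_Exp, inner_pr, Complex.exp_add, inner_Exp]
  let M : Submodule ℂ (Fk D) :=
    { carrier := {x | inner ℂ (tw w' x') (tw w x) = inner ℂ x' x * Complex.exp (inner ℂ w' w)}
      add_mem' := fun {a b} ha hb => by
        simp only [Set.mem_ofPred_eq, map_add, inner_add_right] at ha hb ⊢
        rw [ha, hb]; ring
      zero_mem' := by simp
      smul_mem' := fun c a ha => by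
        simp only [Set.mem_ofPred_eq, map_smul, inner_smul_right] at ha ⊢
        rw [ha]; ring }
  have hMc : IsClosed (M : Set (Fk D)) := by
    refine isClosed_eq (continuous_const.inner (tw w).continuous) ?_
    exact (continuous_const.inner continuous_id).mul continuous_const
  have h2 := total_induction total_Exp M hMc (fun v => by
    show inner ℂ (tw w' x') (tw w (Exp v)) = inner ℂ x' (Exp v) * Complex.exp (inner ℂ w' w)
    rw [← inner_conj_symm, h1 v x', map_mul, inner_conj_symm, ← Complex.exp_conj, inner_conj_symm]) x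
  have h3 : inner ℂ (tw w' x') (tw w x) = inner ℂ x' x * Complex.exp (inner ℂ w' w) := h2
  rw [← inner_conj_symm, h3, map_mul, inner_conj_symm, ← Complex.exp_conj, inner_conj_symm]

theorem exists_tx (x : Fk D) : ∃ T : Fk D' →L[ℂ] Fk (WithLp 2 (D × D')), (∀ w, T (Exp w) = tw w x) ∧
    ∀ y, ‖T y‖ ≤ ‖x‖ * ‖y‖ := by
  refine exists_bdd (Exp : D' → Fk D') total_Exp _ (norm_nonneg _) ?_
  convert! psd_zero (X := D') using 1
  ext w w'
  rw [Matrix.of_apply, inner_Exp, inner_tw, Matrix.zero_apply]
  have h1 : inner ℂ x x = ((‖x‖ : ℝ) : ℂ) ^ 2 := inner_self_eq_norm_sq_to_K _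
  rw [h1]
  push_cast
  ring

/-- the operator `y ↦ x ⊗ y` -/
noncomputable def tx (x : Fk D) : Fk D' →L[ℂ] Fk (WithLp 2 (D × D')) := (exists_tx x).choose

theorem tx_Exp (x : Fk D) (w : D') : tx x (Exp w) = tw w x := (exists_tx x).choose_spec.1 w

theorem norm_tx_le (x : Fk D) (y : Fk D') : ‖tx x y‖ ≤ ‖x‖ * ‖y‖ := (exists_tx x).choose_spec.2 y

theorem tx_add (x x' : Fk D) (y : Fk D') : tx (x + x') y = tx x y + tx x' y := by
  have h : (tx (x + x') : Fk D' →L[ℂ] _) = tx x + tx x' := clm_ext total_Exp fun w => by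
    show tx (x + x') (Exp w) = tx x (Exp w) + tx x' (Exp w)
    rw [tx_Exp, tx_Exp, tx_Exp, map_add]
  rw [h]
  rfl

theorem tx_smul (c : ℂ) (x : Fk D) (y : Fk D') : tx (c • x) y = c • tx x y := by
  have h : (tx (c • x) : Fk D' →L[ℂ] _) = c • tx x := clm_ext total_Exp fun w => by
    show tx (c • x) (Exp w) = c • tx x (Exp w)
    rw [tx_Exp, tx_Exp, map_smul]
  rw [h]
  rfl

/-- **The tensor product `Fk D × Fk D' → Fk (D ⊕ D')`.** -/
noncomputable def tens : Fk D →L[ℂ] Fk D' →L[ℂ] Fk (WithLp 2 (D × D')) :=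
  LinearMap.mkContinuous₂ (LinearMap.mk₂ ℂ (fun x y => tx x y) tx_add tx_smul (fun x y y' => map_add (tx x) y y')
    (fun c x y => map_smul (tx x) c y)) 1 (fun x y => by
      rw [one_mul]
      exact norm_tx_le x y)

theorem tens_apply (x : Fk D) (y : Fk D') : tens x y = tx x y := rfl

theorem tens_Exp (v : D) (w : D') : tens (Exp v) (Exp w) = Exp (pr v w) := by
  rw [tens_apply, tx_Exp, tw_Exp]

theorem inner_tens (x x' : Fk D) (y y' : Fk D') : inner ℂ (tens x y) (tens x' y') = inner ℂ x x' * inner ℂ y y' := by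
  have h1 : ∀ (w : D') (x x' : Fk D) (y' : Fk D'), inner ℂ (tens x (Exp w)) (tens x' y') = inner ℂ x x' * inner ℂ (Exp w) y' := by
    intro w x x' y'
    let M : Submodule ℂ (Fk D') :=
      { carrier := {y' | inner ℂ (tens x (Exp w)) (tens x' y') = inner ℂ x x' * inner ℂ (Exp w) y'}
        add_mem' := fun {a b} ha hb => by
          simp only [Set.mem_ofPred_eq, map_add, inner_add_right] at ha hb ⊢
          rw [ha, hb]; ring
        zero_mem' := by simp
        smul_mem' := fun c a ha => by
          simp only [Set.mem_ofPred_eq, map_smul, inner_smul_right] at ha ⊢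
          rw [ha]; ring }
    have hMc : IsClosed (M : Set (Fk D')) := by
      refine isClosed_eq (continuous_const.inner (tens x').continuous) ?_
      exact continuous_const.mul (continuous_const.inner continuous_id)
    refine total_induction total_Exp M hMc (fun w' => ?_) y'
    show inner ℂ (tens x (Exp w)) (tens x' (Exp w')) = _
    rw [tens_apply, tens_apply, tx_Exp, tx_Exp, inner_tw, inner_Exp]
  let M : Submodule ℂ (Fk D') :=
    { carrier := {y | inner ℂ (tens x' y') (tens x y) = inner ℂ x' x * inner ℂ y' y}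
      add_mem' := fun {a b} ha hb => by
        simp only [Set.mem_ofPred_eq, map_add, inner_add_right] at ha hb ⊢
        rw [ha, hb]; ring
      zero_mem' := by simp
      smul_mem' := fun c a ha => by
        simp only [Set.mem_ofPred_eq, map_smul, inner_smul_right] at ha ⊢
        rw [ha]; ring }
  have hMc : IsClosed (M : Set (Fk D')) := by
    refine isClosed_eq (continuous_const.inner (tens x).continuous) ?_
    exact continuous_const.mul (continuous_const.inner continuous_id)
  have h2 := total_induction total_Exp M hMc (fun w => by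
    show inner ℂ (tens x' y') (tens x (Exp w)) = inner ℂ x' x * inner ℂ y' (Exp w)
    rw [← inner_conj_symm, h1 w x x' y', map_mul, inner_conj_symm, inner_conj_symm]) y
  have h3 : inner ℂ (tens x' y') (tens x y) = inner ℂ x' x * inner ℂ y' y := h2
  rw [← inner_conj_symm, h3, map_mul, inner_conj_symm, inner_conj_symm]

theorem norm_tens (x : Fk D) (y : Fk D') : ‖tens x y‖ = ‖x‖ * ‖y‖ := by
  have h1 := inner_tens x x y y
  rw [inner_self_eq_norm_sq_to_K, inner_self_eq_norm_sq_to_K, inner_self_eq_norm_sq_to_K] at h1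
  have h2 : ‖tens x y‖ ^ 2 = ‖x‖ ^ 2 * ‖y‖ ^ 2 := by exact_mod_cast h1
  rw [← mul_pow] at h2
  exact (sq_eq_sq₀ (norm_nonneg _) (by positivity)).1 h2

theorem total_tens : (Submodule.span ℂ (Set.range fun p : Fk D × Fk D' => tens p.1 p.2)).topologicalClosure = ⊤ := by
  refine eq_top_iff.2 ?_
  rw [← total_Exp (D := WithLp 2 (D × D'))]
  refine Submodule.topologicalClosure_mono (Submodule.span_mono ?_)
  rintro _ ⟨z, rfl⟩
  obtain ⟨v, w, rfl⟩ := exists_pr z
  exact ⟨(Exp v, Exp w), tens_Exp v w⟩

/-- the vacuum in the second mode -/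
noncomputable def vac2 : Fk D →ₗᵢ[ℂ] Fk (WithLp 2 (D × D')) where
  toLinearMap := ((tens (D := D) (D' := D')).flip (Exp 0)).toLinearMap
  norm_map' x := by
    show ‖tens x (Exp 0)‖ = ‖x‖
    rw [norm_tens, norm_Exp]
    simp

theorem vac2_apply (x : Fk D) : vac2 (D' := D') x = tens x (Exp 0) := rfl

/-- the projection onto the vacuum of the second mode -/
noncomputable def pvac2 : Fk (WithLp 2 (D × D')) →L[ℂ] Fk D :=
  ContinuousLinearMap.adjoint (vac2 (D := D) (D' := D')).toContinuousLinearMap

theorem pvac2_Exp (v : D) (w : D') : pvac2 (Exp (pr v w)) = Exp v := by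
  have h : ∀ x : Fk D, inner ℂ (pvac2 (Exp (pr v w))) x = inner ℂ (Exp v) x := by
    intro x
    unfold pvac2
    rw [ContinuousLinearMap.adjoint_inner_left]
    show inner ℂ (Exp (pr v w)) (tens x (Exp 0)) = _
    rw [← tens_Exp, inner_tens, inner_Exp w 0]
    simp
  exact ext_inner_right ℂ h

theorem pvac2_tens (x : Fk D) (y : Fk D') : pvac2 (tens x y) = inner ℂ (Exp 0) y • x := by
  have h : ∀ z : Fk D, inner ℂ z (pvac2 (tens x y)) = inner ℂ z (inner ℂ (Exp (0 : D')) y • x) := by
    intro z
    unfold pvac2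
    rw [ContinuousLinearMap.adjoint_inner_right]
    show inner ℂ (tens z (Exp 0)) (tens x y) = _
    rw [inner_tens, inner_smul_right]
    ring
  exact ext_inner_left ℂ h

theorem norm_pvac2_le (z : Fk (WithLp 2 (D × D'))) : ‖pvac2 z‖ ≤ ‖z‖ := by
  unfold pvac2
  refine (ContinuousLinearMap.le_of_opNorm_le _ (c := 1) ?_ _).trans (by rw [one_mul])
  rw [LinearIsometryEquiv.norm_map]
  exact (vac2 (D := D) (D' := D')).norm_toContinuousLinearMap_le

theorem pvac2_vac2 (x : Fk D) : pvac2 (vac2 (D' := D') x) = x := by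
  rw [vac2_apply, pvac2_tens, inner_Exp]
  simp

end Tens

end Pool.Agent.Helper9.Fock
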