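import Pool.Agent.Helper9.CA.Fock4

/-!
# Project FP (MP_0f6f3f_an): rotation, contractions of the Fock space, estimates

`rotI a b` (`a² + b² = 1`): the isometry `Fk D → Fk (D ⊕ D)`, `Exp u ↦ Exp (a u, b u)`; `Pab a b` its adjoint, `Pab a b (tens (Exp v) (Exp w)) = Exp (a v + b w)`.
`GamR r`: `Exp v ↦ Exp (r v)`, norm `≤ r` on the orthogonal complement of the vacuum.
-/

set_option autoImplicit false
set_option linter.unusedSectionVars false

open Filter Topology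
open scoped ComplexOrder ComplexConjugate

namespace Pool.Agent.Helper9.Fock

variable {D : Type} [NormedAddCommGroup D] [InnerProductSpace ℂ D]

theorem total_ext_left {x y : Fk D} (h : ∀ u : D, inner ℂ x (Exp u) = inner ℂ y (Exp u)) : x = y := by
  let M : Submodule ℂ (Fk D) :=
    { carrier := {z | inner ℂ x z = inner ℂ y z}
      add_mem' := fun {a b} ha hb => by
        simp only [Set.mem_ofPred_eq, inner_add_right] at ha hb ⊢
        rw [ha, hb]
      zero_mem' := by simp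
      smul_mem' := fun c a ha => by
        simp only [Set.mem_ofPred_eq, inner_smul_right] at ha ⊢
        rw [ha] }
  have hMc : IsClosed (M : Set (Fk D)) :=
    isClosed_eq (continuous_const.inner continuous_id) (continuous_const.inner continuous_id)
  refine ext_inner_right ℂ fun z => ?_
  exact total_induction total_Exp M hMc h z

section Rot

variable {a b : ℝ}

theorem exists_rotI (h : a ^ 2 + b ^ 2 = 1) : ∃ T : Fk D →ₗᵢ[ℂ] Fk (WithLp 2 (D × D)), ∀ u, T (Exp u) = Exp (pr ((a : ℂ) • u) ((b : ℂ) • u)) := by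
  refine exists_isom (Exp : D → Fk D) total_Exp _ fun u u' => ?_
  rw [inner_Exp, inner_Exp, inner_pr, inner_smul_left, inner_smul_right, inner_smul_left, inner_smul_right,
    Complex.conj_ofReal, Complex.conj_ofReal]
  congr 1
  have h1 : (a : ℂ) ^ 2 + (b : ℂ) ^ 2 = 1 := by exact_mod_cast h
  linear_combination (- inner ℂ u u') * h1

/-- the isometry `Exp u ↦ Exp (a u, b u)` -/
noncomputable def rotI (h : a ^ 2 + b ^ 2 = 1) : Fk D →ₗᵢ[ℂ] Fk (WithLp 2 (D × D)) := (exists_rotI h).choose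

theorem rotI_Exp (h : a ^ 2 + b ^ 2 = 1) (u : D) : rotI h (Exp u) = Exp (pr ((a : ℂ) • u) ((b : ℂ) • u)) :=
  (exists_rotI h).choose_spec u

/-- the adjoint of `rotI` -/
noncomputable def Pab (h : a ^ 2 + b ^ 2 = 1) : Fk (WithLp 2 (D × D)) →L[ℂ] Fk D :=
  ContinuousLinearMap.adjoint (rotI (D := D) h).toContinuousLinearMap

theorem inner_Pab (h : a ^ 2 + b ^ 2 = 1) (z : Fk (WithLp 2 (D × D))) (x : Fk D) :
    inner ℂ (Pab h z) x = inner ℂ z (rotI h x) := by
  unfold Pab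
  rw [ContinuousLinearMap.adjoint_inner_left]
  rfl

theorem Pab_Exp (h : a ^ 2 + b ^ 2 = 1) (v w : D) : Pab h (Exp (pr v w)) = Exp ((a : ℂ) • v + (b : ℂ) • w) := by
  refine total_ext_left fun u => ?_
  rw [inner_Pab, rotI_Exp, inner_Exp, inner_pr, inner_Exp, inner_add_left, inner_smul_left, inner_smul_left,
    inner_smul_right, inner_smul_right, Complex.conj_ofReal, Complex.conj_ofReal]

theorem Pab_rotI (h : a ^ 2 + b ^ 2 = 1) (x : Fk D) : Pab h (rotI h x) = x := by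
  refine ext_inner_right ℂ fun y => ?_
  rw [inner_Pab, (rotI h).inner_map_map]

theorem norm_Pab_le (h : a ^ 2 + b ^ 2 = 1) (z : Fk (WithLp 2 (D × D))) : ‖Pab h z‖ ≤ ‖z‖ := by
  unfold Pab
  refine (ContinuousLinearMap.le_of_opNorm_le _ (c := 1) ?_ _).trans (by rw [one_mul])
  rw [LinearIsometryEquiv.norm_map]
  exact (rotI (D := D) h).norm_toContinuousLinearMap_le

end Rot

section GamR

/-- the sum of the positive coefficients times the powers of a positive semidefinite kernel -/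
theorem psd_series {X : Type} {A : Matrix X X ℂ} (hA : A.PosSemidef) {c : ℕ → ℝ} (hc : ∀ n, 0 ≤ c n)
    {B : Matrix X X ℂ} (h : ∀ x y, HasSum (fun n => (c n : ℂ) * A x y ^ n) (B x y)) : B.PosSemidef := by
  have h1 : ∀ n : ℕ, (Matrix.of fun x y => ((c n : ℝ) : ℂ) * (Matrix.of fun x y => A x y ^ n) x y).PosSemidef :=
    fun n => psd_smul (psd_pow hA n) (hc n)
  exact psd_lim (fun n => psd_sum h1 n) fun x y => (h x y).tendsto_sum_nat

theorem hasSum_exp (z : ℂ) : HasSum (fun n : ℕ => (((n.factorial : ℝ)⁻¹ : ℝ) : ℂ) * z ^ n) (Complex.exp z) := by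
  have h3 := NormedSpace.expSeries_div_hasSum_exp (𝔸 := ℂ) z
  rw [← Complex.exp_eq_exp_ℂ] at h3
  convert! h3 using 2
  push_cast
  field_simp

variable {r : ℝ}

theorem exists_GamR (hr0 : 0 ≤ r) (hr1 : r ≤ 1) : ∃ T : Fk D →L[ℂ] Fk D, (∀ v, T (Exp v) = Exp ((r : ℂ) • v)) ∧
    ∀ w, ‖T w‖ ≤ 1 * ‖w‖ := by
  refine exists_bdd (Exp : D → Fk D) total_Exp _ zero_le_one ?_
  refine psd_series (psd_gram (X := D) fun v : D => v) (c := fun n => (n.factorial : ℝ)⁻¹ * (1 - r ^ (2 * n))) (fun n => ?_)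
    fun v w => ?_
  · have : r ^ (2 * n) ≤ 1 := pow_le_one₀ hr0 hr1
    have : 0 ≤ 1 - r ^ (2 * n) := by linarith
    positivity
  · rw [Matrix.of_apply, Matrix.of_apply, inner_Exp, inner_Exp, inner_smul_left, inner_smul_right, Complex.conj_ofReal]
    have h1 := (hasSum_exp (inner ℂ v w)).sub (hasSum_exp ((r : ℂ) * ((r : ℂ) * inner ℂ v w)))
    rw [one_pow, Complex.ofReal_one, one_mul]
    convert! h1 using 1
    funext n
    push_cast
    ring

/-- the operator `Exp v ↦ Exp (r v)` -/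
noncomputable def GamR (hr0 : 0 ≤ r) (hr1 : r ≤ 1) : Fk D →L[ℂ] Fk D := (exists_GamR (D := D) hr0 hr1).choose

theorem GamR_Exp (hr0 : 0 ≤ r) (hr1 : r ≤ 1) (v : D) : GamR hr0 hr1 (Exp v) = Exp ((r : ℂ) • v) :=
  (exists_GamR hr0 hr1).choose_spec.1 v

theorem norm_GamR_le (hr0 : 0 ≤ r) (hr1 : r ≤ 1) (w : Fk D) : ‖GamR hr0 hr1 w‖ ≤ ‖w‖ := by
  have := (exists_GamR (D := D) hr0 hr1).choose_spec.2 w
  rwa [one_mul] at this

/-- **`Γ(r) ≤ r` on the orthogonal complement of the vacuum.** -/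
theorem norm_GamR_of_vac (hr0 : 0 ≤ r) (hr1 : r ≤ 1) {f : Fk D} (hf : inner ℂ (Exp (0 : D)) f = 0) :
    ‖GamR hr0 hr1 f‖ ≤ r * ‖f‖ := by
  -- the operator `Exp v ↦ Exp (r v) - Exp 0`
  obtain ⟨T, hT, hTn⟩ := exists_bdd (Exp : D → Fk D) total_Exp (fun v => Exp ((r : ℂ) • v) - Exp 0) hr0 (by
    refine psd_series (psd_gram (X := D) fun v : D => v)
      (c := fun n => if n = 0 then r ^ 2 else (n.factorial : ℝ)⁻¹ * (r ^ 2 - r ^ (2 * n))) (fun n => ?_) fun v w => ?_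
    · by_cases hn : n = 0
      · simp only [hn, if_true]
        positivity
      · simp only [hn, if_false]
        have : r ^ (2 * n) ≤ r ^ 2 := pow_le_pow_of_le_one hr0 hr1 (by omega)
        have : 0 ≤ r ^ 2 - r ^ (2 * n) := by linarith
        positivity
    · rw [Matrix.of_apply, Matrix.of_apply, inner_Exp, inner_sub_left, inner_sub_right, inner_sub_right, inner_Exp, inner_Exp,
        inner_Exp, inner_Exp, inner_smul_left, inner_smul_right, Complex.conj_ofReal, inner_zero_left, inner_zero_left,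
        inner_zero_right, Complex.exp_zero]
      have h1 := ((hasSum_exp (inner ℂ v w)).mul_left ((r ^ 2 : ℝ) : ℂ)).sub (hasSum_exp ((r : ℂ) * ((r : ℂ) * inner ℂ v w)))
      have h2 : HasSum (fun n : ℕ => if n = 0 then (1 : ℂ) else 0) 1 := hasSum_ite_eq 0 1
      have h3 := h1.add h2
      have e : ((r ^ 2 : ℝ) : ℂ) * Complex.exp (inner ℂ v w) - (Complex.exp ((r : ℂ) * ((r : ℂ) * inner ℂ v w)) - 1 - (1 - 1)) =
          ((r ^ 2 : ℝ) : ℂ) * Complex.exp (inner ℂ v w) - Complex.exp ((r : ℂ) * ((r : ℂ) * inner ℂ v w)) + 1 := by ring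
      rw [e]
      convert! h3 using 1
      funext n
      by_cases hn : n = 0
      · subst hn
        simp
      · simp only [hn, if_false]
        push_cast
        ring)
  have h1 : T = GamR hr0 hr1 - (ContinuousLinearMap.smulRight (innerSL ℂ (Exp (0 : D))) (Exp (0 : D))) := by
    refine clm_ext total_Exp fun v => ?_
    rw [hT]
    show _ = GamR hr0 hr1 (Exp v) - inner ℂ (Exp (0 : D)) (Exp v) • Exp (0 : D)
    rw [GamR_Exp, inner_Exp, inner_zero_left, Complex.exp_zero, one_smul]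
  have h2 : T f = GamR hr0 hr1 f := by
    rw [h1]
    show GamR hr0 hr1 f - inner ℂ (Exp (0 : D)) f • Exp (0 : D) = _
    rw [hf, zero_smul, sub_zero]
  rw [← h2]
  exact hTn f

/-- Cauchy–Schwarz as an inequality of kernels -/
theorem psd_cs {X : Type} {E : Type} [NormedAddCommGroup E] [InnerProductSpace ℂ E] (e : X → E) (b : E) :
    (Matrix.of fun x y => ((‖b‖ ^ 2 : ℝ) : ℂ) * inner ℂ (e x) (e y) - inner ℂ (e x) b * inner ℂ b (e y)).PosSemidef := by
  by_cases hb : b = 0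
  · subst hb
    convert! psd_zero (X := X) using 1
    ext x y
    simp
  · have hbn : ((‖b‖ : ℝ) : ℂ) ≠ 0 := by
      exact_mod_cast (norm_pos_iff.2 hb).ne'
    have hbb : inner ℂ b b = ((‖b‖ : ℝ) : ℂ) ^ 2 := inner_self_eq_norm_sq_to_K b
    have h := psd_gram (X := X) (fun x => ((‖b‖ : ℝ) : ℂ) • e x - (inner ℂ b (e x) / ((‖b‖ : ℝ) : ℂ)) • b)
    convert! h using 1
    ext x y
    rw [Matrix.of_apply, Matrix.of_apply, inner_sub_left, inner_sub_right, inner_sub_right, inner_smul_left, inner_smul_left,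
      inner_smul_right, inner_smul_right, inner_smul_left, inner_smul_right, inner_smul_left, inner_smul_right, hbb,
      map_div₀, Complex.conj_ofReal, inner_conj_symm]
    push_cast
    field_simp
    ring

/-- the operators `Exp u ↦ Exp (√r u + s v)` are bounded by `exp ‖v‖²` for `r ≤ 1/2`, `s² ≤ 1` -/
theorem exists_shift (hr0 : 0 ≤ r) (hr1 : r ≤ 1 / 2) {s : ℝ} (hs : s ^ 2 ≤ 1) (v : D) :
    ∃ T : Fk D →L[ℂ] Fk D, (∀ u, T (Exp u) = Exp ((Real.sqrt r : ℂ) • u + (s : ℂ) • v)) ∧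
      ∀ w, ‖T w‖ ≤ Real.exp (‖v‖ ^ 2) * ‖w‖ := by
  refine exists_bdd (Exp : D → Fk D) total_Exp _ (Real.exp_pos _).le ?_
  have hsr : ((Real.sqrt r : ℝ) : ℂ) * ((Real.sqrt r : ℝ) : ℂ) = (r : ℂ) := by exact_mod_cast Real.mul_self_sqrt hr0
  set k : ℝ := 1 - r with hk
  have hk0 : 0 < k := by linarith
  have hsk : ((Real.sqrt k : ℝ) : ℂ) * ((Real.sqrt k : ℝ) : ℂ) = (k : ℂ) := by exact_mod_cast Real.mul_self_sqrt hk0.le
  have hsk0 : ((Real.sqrt k : ℝ) : ℂ) ≠ 0 := by exact_mod_cast (Real.sqrt_pos.2 hk0).ne'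
  -- Cauchy-Schwarz in the Fock space, at `√k u`
  set bb : D := ((Real.sqrt r * s / Real.sqrt k : ℝ) : ℂ) • v with hbb
  have h1 := psd_cs (X := D) (fun u : D => Exp (((Real.sqrt k : ℝ) : ℂ) • u)) (Exp bb)
  have h2 : (Matrix.of fun u u' : D => Complex.exp ((r : ℂ) * inner ℂ u u')).PosSemidef := by
    have := psd_exp (psd_smul (psd_gram (X := D) fun u : D => u) hr0)
    exact this
  have h3 := psd_smul (psd_mul h2 h1) (Real.exp_pos (s ^ 2 * ‖v‖ ^ 2)).le
  -- the remaining positive part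
  have hbn : ‖bb‖ ^ 2 ≤ ‖v‖ ^ 2 := by
    rw [hbb, norm_smul, Complex.norm_real, mul_pow, Real.norm_eq_abs, sq_abs, div_pow, mul_pow, Real.sq_sqrt hr0, Real.sq_sqrt hk0.le]
    have h4 : r * s ^ 2 / k ≤ 1 := by
      rw [div_le_one hk0, hk]
      nlinarith [sq_nonneg s]
    calc r * s ^ 2 / k * ‖v‖ ^ 2 ≤ 1 * ‖v‖ ^ 2 := by gcongr
      _ = _ := one_mul _
  have h5 : 0 ≤ Real.exp (‖v‖ ^ 2) ^ 2 - Real.exp (s ^ 2 * ‖v‖ ^ 2) * Real.exp (‖bb‖ ^ 2) := by
    rw [← Real.exp_add, ← Real.exp_nat_mul, sub_nonneg, Real.exp_le_exp]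
    push_cast
    nlinarith [sq_nonneg ‖v‖]
  have h6 := psd_smul (psd_ker0 D) h5
  have h7 := psd_add h3 h6
  convert! h7 using 1
  ext u u'
  simp only [Matrix.of_apply, ker0]
  rw [inner_Exp, inner_Exp, inner_Exp, inner_Exp, inner_Exp]
  have e1 : inner ℂ ((Real.sqrt r : ℂ) • u + (s : ℂ) • v) ((Real.sqrt r : ℂ) • u' + (s : ℂ) • v) =
      (r : ℂ) * inner ℂ u u' + (Real.sqrt r * s : ℝ) * (inner ℂ u v + inner ℂ v u') + ((s ^ 2 * ‖v‖ ^ 2 : ℝ) : ℂ) := by
    have hvv : inner ℂ v v = ((‖v‖ : ℝ) : ℂ) ^ 2 := inner_self_eq_norm_sq_to_K v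
    rw [inner_add_left, inner_add_right, inner_add_right]
    simp only [inner_smul_left, inner_smul_right, Complex.conj_ofReal, hvv]
    push_cast
    linear_combination (inner ℂ u u') * hsr
  have e2 : inner ℂ (((Real.sqrt k : ℝ) : ℂ) • u) (((Real.sqrt k : ℝ) : ℂ) • u') = (k : ℂ) * inner ℂ u u' := by
    rw [inner_smul_left, inner_smul_right, Complex.conj_ofReal, ← mul_assoc, hsk]
  have e3 : inner ℂ (((Real.sqrt k : ℝ) : ℂ) • u) bb = ((Real.sqrt r * s : ℝ) : ℂ) * inner ℂ u v := by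
    rw [hbb, inner_smul_left, inner_smul_right, Complex.conj_ofReal]
    push_cast
    field_simp
  have e4 : inner ℂ bb (((Real.sqrt k : ℝ) : ℂ) • u') = ((Real.sqrt r * s : ℝ) : ℂ) * inner ℂ v u' := by
    rw [hbb, inner_smul_left, inner_smul_right, Complex.conj_ofReal]
    push_cast
    field_simp
  have e5 : ((‖Exp bb‖ ^ 2 : ℝ) : ℂ) = Complex.exp ((‖bb‖ ^ 2 : ℝ) : ℂ) := by
    rw [norm_Exp, ← Real.exp_nat_mul, ← Complex.ofReal_exp]
    congr 2
    push_cast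
    ring
  rw [e1, e2, e3, e4, e5]
  simp only [Complex.ofReal_sub, Complex.ofReal_mul, Complex.ofReal_pow, Complex.ofReal_exp]
  have e6 : Complex.exp (inner ℂ u u') = Complex.exp ((r : ℂ) * inner ℂ u u') * Complex.exp ((k : ℂ) * inner ℂ u u') := by
    rw [← Complex.exp_add]
    congr 1
    rw [hk]
    push_cast
    ring
  have e7 : Complex.exp ((r : ℂ) * inner ℂ u u' + (Real.sqrt r : ℂ) * (s : ℂ) * (inner ℂ u v + inner ℂ v u') + (s : ℂ) ^ 2 * (‖v‖ : ℂ) ^ 2) =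
      Complex.exp ((r : ℂ) * inner ℂ u u') * Complex.exp ((Real.sqrt r : ℂ) * (s : ℂ) * inner ℂ u v) *
        Complex.exp ((Real.sqrt r : ℂ) * (s : ℂ) * inner ℂ v u') * Complex.exp ((s : ℂ) ^ 2 * (‖v‖ : ℂ) ^ 2) := by
    rw [← Complex.exp_add, ← Complex.exp_add, ← Complex.exp_add]
    congr 1
    ring
  rw [e6, e7]
  ring

/-- **The smoothing estimate**: `‖P (f ⊗ Exp v)‖ ≤ exp ‖v‖² √a ‖f‖` for `f` orthogonal to the vacuum, `a ≤ 1/2`. -/
theorem norm_Pab_tens {a b : ℝ} (h : a ^ 2 + b ^ 2 = 1) (ha0 : 0 ≤ a) (ha : a ≤ 1 / 2) {f : Fk D}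
    (hf : inner ℂ (Exp (0 : D)) f = 0) (v : D) : ‖Pab h (tens f (Exp v))‖ ≤ Real.exp (‖v‖ ^ 2) * Real.sqrt a * ‖f‖ := by
  have hb : b ^ 2 ≤ 1 := by nlinarith [sq_nonneg a]
  have hsa0 : 0 ≤ Real.sqrt a := Real.sqrt_nonneg a
  have hsa1 : Real.sqrt a ≤ 1 := Real.sqrt_le_one.2 (by linarith)
  obtain ⟨T, hT, hTn⟩ := exists_shift ha0 ha hb v
  have h1 : (Pab h).comp ((tens (D := D) (D' := D)).flip (Exp v)) = T.comp (GamR hsa0 hsa1) := by
    refine clm_ext total_Exp fun u => ?_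
    show Pab h (tens (Exp u) (Exp v)) = T (GamR hsa0 hsa1 (Exp u))
    rw [tens_Exp, Pab_Exp, GamR_Exp, hT, smul_smul]
    congr 3
    exact_mod_cast (Real.mul_self_sqrt ha0).symm
  have h2 : Pab h (tens f (Exp v)) = T (GamR hsa0 hsa1 f) := congrArg (fun S => S f) h1
  rw [h2]
  calc ‖T (GamR hsa0 hsa1 f)‖ ≤ Real.exp (‖v‖ ^ 2) * ‖GamR hsa0 hsa1 f‖ := hTn _
    _ ≤ Real.exp (‖v‖ ^ 2) * (Real.sqrt a * ‖f‖) := by
        gcongr
        exact norm_GamR_of_vac hsa0 hsa1 hf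
    _ = _ := by ring

end GamR

end Pool.Agent.Helper9.Fock
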