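import Pool.Agent.Helper9.CA.Fock5

/-!
# Project FP (MP_0f6f3f_an): equivariance of the rotation

`P_{t,e}(π_t(g) x ⊗ π_e(g) y) = π_{t+e}(g) P_{t,e}(x ⊗ y)`.
-/

set_option autoImplicit false
set_option linter.unusedSectionVars false

open Filter Topology
open scoped ComplexOrder ComplexConjugate

namespace Pool.Agent.Helper9.Fock

variable {D D' : Type} [NormedAddCommGroup D] [InnerProductSpace ℂ D] [NormedAddCommGroup D'] [InnerProductSpace ℂ D']

/-- equality of two bounded operators on a tensor product of Fock spaces -/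
theorem clm_ext_tens {L : Type} [NormedAddCommGroup L] [InnerProductSpace ℂ L] [CompleteSpace L]
    {S T : Fk (WithLp 2 (D × D')) →L[ℂ] L} (h : ∀ v w, S (Exp (pr v w)) = T (Exp (pr v w))) : S = T := by
  refine clm_ext total_Exp fun z => ?_
  obtain ⟨v, w, rfl⟩ := exists_pr z
  exact h v w

/-- equality of two bounded bilinear maps on Fock spaces -/
theorem bil_ext {L : Type} [NormedAddCommGroup L] [InnerProductSpace ℂ L] [CompleteSpace L]
    {S T : Fk D →L[ℂ] Fk D' →L[ℂ] L} (h : ∀ v w, S (Exp v) (Exp w) = T (Exp v) (Exp w)) (x : Fk D) (y : Fk D') :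
    S x y = T x y := by
  have h1 : ∀ v, S (Exp v) = T (Exp v) := fun v => clm_ext total_Exp fun w => h v w
  have h2 : S.flip y = T.flip y := clm_ext total_Exp fun v => by
    show S (Exp v) y = T (Exp v) y
    rw [h1]
  exact congrArg (fun R => R x) h2

variable {S : Type*} [Group S]

section Eq

variable (P : RCoc S D)

/-- **Equivariance of the rotation.** -/
theorem RCoc.Pab_piT {t e : ℝ} (ht : 0 ≤ t) (he : 0 ≤ e) {a b : ℝ} (h : a ^ 2 + b ^ 2 = 1)
    (ha : a * Real.sqrt (t + e) = Real.sqrt t) (hb : b * Real.sqrt (t + e) = Real.sqrt e) (g : S) (x y : Fk D) :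
    Pab h (tens (P.piT ht g x) (P.piT he g y)) = P.piT (add_nonneg ht he) g (Pab h (tens x y)) := by
  -- both sides as bounded bilinear maps
  let A : Fk D →L[ℂ] Fk D →L[ℂ] Fk D :=
    (ContinuousLinearMap.compL ℂ (Fk D) (Fk (WithLp 2 (D × D))) (Fk D) (Pab h)).comp
      ((((ContinuousLinearMap.compL ℂ (Fk D) (Fk D) (Fk (WithLp 2 (D × D)))).flip
        ((P.piT he g).toContinuousLinearEquiv : Fk D →L[ℂ] Fk D)).comp tens).comp
        ((P.piT ht g).toContinuousLinearEquiv : Fk D →L[ℂ] Fk D))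
  let B : Fk D →L[ℂ] Fk D →L[ℂ] Fk D :=
    (ContinuousLinearMap.compL ℂ (Fk D) (Fk (WithLp 2 (D × D))) (Fk D)
      (((P.piT (add_nonneg ht he) g).toContinuousLinearEquiv : Fk D →L[ℂ] Fk D).comp (Pab h))).comp tens
  have key : A x y = B x y := by
    refine bil_ext (fun v w => ?_) x y
    show Pab h (tens (P.piT ht g (Exp v)) (P.piT he g (Exp w))) = P.piT (add_nonneg ht he) g (Pab h (tens (Exp v) (Exp w)))
    rw [P.piT_Exp, P.piT_Exp, tens_Exp, Pab_Exp, P.piT_Exp]
    have hsm : ∀ (c c' : ℂ) (p q : D), tens (c • Exp p) (c' • Exp q) = (c * c') • Exp (pr p q) := by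
      intro c c' p q
      rw [ContinuousLinearMap.map_smul₂, map_smul, tens_Exp, smul_smul]
    rw [hsm, map_smul, Pab_Exp, ← Complex.exp_add]
    have hte : Real.sqrt (t + e) * Real.sqrt (t + e) = t + e := Real.mul_self_sqrt (add_nonneg ht he)
    have htC : ((Real.sqrt t : ℝ) : ℂ) = (a : ℂ) * (Real.sqrt (t + e) : ℝ) := by exact_mod_cast ha.symm
    have heC : ((Real.sqrt e : ℝ) : ℂ) = (b : ℂ) * (Real.sqrt (t + e) : ℝ) := by exact_mod_cast hb.symm
    have hC : (a : ℂ) ^ 2 + (b : ℂ) ^ 2 = 1 := by exact_mod_cast h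
    congr 1
    · congr 1
      rw [map_add, map_smul, map_smul, inner_add_right, inner_smul_right, inner_smul_right, htC, heC]
      push_cast
      ring
    · congr 1
      rw [map_add, map_smul, map_smul, htC, heC]
      simp only [smul_add, smul_smul]
      have e1 : ((Real.sqrt (t + e) : ℝ) : ℂ) • P.c g =
          ((a : ℂ) * ((a : ℂ) * (Real.sqrt (t + e) : ℝ))) • P.c g + ((b : ℂ) * ((b : ℂ) * (Real.sqrt (t + e) : ℝ))) • P.c g := by
        rw [← add_smul]
        congr 1
        linear_combination (-((Real.sqrt (t + e) : ℝ) : ℂ)) * hC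
      rw [e1]
      abel
  exact key

theorem sq_coef {t e : ℝ} (ht : 0 ≤ t) (he : 0 ≤ e) (hte : 0 < t + e) :
    Real.sqrt (t / (t + e)) ^ 2 + Real.sqrt (e / (t + e)) ^ 2 = 1 := by
  rw [Real.sq_sqrt (by positivity), Real.sq_sqrt (by positivity)]
  field_simp

theorem coef_mul {t e : ℝ} (ht : 0 ≤ t) (hte : 0 < t + e) : Real.sqrt (t / (t + e)) * Real.sqrt (t + e) = Real.sqrt t := by
  rw [← Real.sqrt_mul (by positivity)]
  congr 1
  field_simp

end Eq

end Pool.Agent.Helper9.Fock
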