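import Pool.Agent.Helper9.CA.SL2C

/-!
# Project FP (MP_0f6f3f_an): the law of `|k₁₁|²` on `SU(2)` is uniform on `[0, 1]`

The moments are `1 / (n + 1)`: integrate `|z₁|²ⁿ exp (- |z|²)` over `ℂ²` and use the invariance under `SU(2)`.
-/

set_option autoImplicit false
set_option linter.unusedSectionVars false
set_option linter.style.haveILetI false
set_option linter.unusedSimpArgs false

open MeasureTheory Measure ENNReal Topology Matrix

namespace Pool.Agent.Helper9.CA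

/-- the Gaussian moments of `ℂ` -/
theorem lintegral_gauss (n : ℕ) : ∫⁻ z : ℂ, ‖z‖ₑ ^ (2 * n) * ENNReal.ofReal (Real.exp (-‖z‖ ^ 2)) =
    ENNReal.ofReal (Real.pi * n.factorial) := by
  have h1 := Complex.integral_rpow_mul_exp_neg_rpow (p := 2) (q := 2 * n) (by norm_num)
    (by have : (0 : ℝ) ≤ n := Nat.cast_nonneg n
        linarith)
  have e0 : ((2 * (n : ℝ) + 2) / 2) = n + 1 := by ring
  rw [e0, Real.Gamma_nat_eq_factorial] at h1
  have h2 : ∫ z : ℂ, ‖z‖ ^ (2 * n) * Real.exp (-‖z‖ ^ 2) = Real.pi * n.factorial := by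
    rw [← mul_div_cancel_left₀ Real.pi (two_ne_zero), ← h1]
    refine integral_congr_ae (Filter.Eventually.of_forall fun z => ?_)
    show ‖z‖ ^ (2 * n) * Real.exp (-‖z‖ ^ 2) = ‖z‖ ^ (2 * (n : ℝ)) * Real.exp (-‖z‖ ^ (2 : ℝ))
    have e1 : (2 * (n : ℝ)) = ((2 * n : ℕ) : ℝ) := by push_cast; ring
    rw [e1, Real.rpow_natCast]
    norm_num
  have hpos : (0 : ℝ) < Real.pi * n.factorial := by positivity
  have hint : Integrable fun z : ℂ => ‖z‖ ^ (2 * n) * Real.exp (-‖z‖ ^ 2) := by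
    by_contra hni
    rw [integral_undef hni] at h2
    linarith
  rw [← h2, ofReal_integral_eq_lintegral_ofReal hint (Filter.Eventually.of_forall fun z => by positivity)]
  refine lintegral_congr fun z => ?_
  rw [ENNReal.ofReal_mul (by positivity), ENNReal.ofReal_pow (norm_nonneg _), ofReal_norm]

/-- the squared norm on `ℂ²` -/
noncomputable def sq2 (z : Fin 2 → ℂ) : ℝ := ‖z 0‖ ^ 2 + ‖z 1‖ ^ 2

/-- the Gaussian weight -/
noncomputable def gw (z : Fin 2 → ℂ) : ℝ≥0∞ := ENNReal.ofReal (Real.exp (-sq2 z))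

theorem measurable_gw : Measurable gw := by
  unfold gw sq2
  fun_prop

theorem lintegral_gauss2 (i j : ℕ) : ∫⁻ z : Fin 2 → ℂ, ‖z 0‖ₑ ^ (2 * i) * ‖z 1‖ₑ ^ (2 * j) * gw z =
    ENNReal.ofReal (Real.pi * i.factorial) * ENNReal.ofReal (Real.pi * j.factorial) := by
  rw [← lintegral_gauss i, ← lintegral_gauss j]
  have h1 := (volume_preserving_finTwoArrow ℂ).lintegral_comp_emb (MeasurableEquiv.measurableEmbedding _)
    (fun p : ℂ × ℂ => (‖p.1‖ₑ ^ (2 * i) * ENNReal.ofReal (Real.exp (-‖p.1‖ ^ 2))) *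
      (‖p.2‖ₑ ^ (2 * j) * ENNReal.ofReal (Real.exp (-‖p.2‖ ^ 2))))
  have h2 : ∫⁻ p : ℂ × ℂ, (‖p.1‖ₑ ^ (2 * i) * ENNReal.ofReal (Real.exp (-‖p.1‖ ^ 2))) *
      (‖p.2‖ₑ ^ (2 * j) * ENNReal.ofReal (Real.exp (-‖p.2‖ ^ 2))) =
      (∫⁻ z : ℂ, ‖z‖ₑ ^ (2 * i) * ENNReal.ofReal (Real.exp (-‖z‖ ^ 2))) *
      ∫⁻ z : ℂ, ‖z‖ₑ ^ (2 * j) * ENNReal.ofReal (Real.exp (-‖z‖ ^ 2)) := by
    rw [volume_eq_prod]
    exact lintegral_prod_mul (f := fun z : ℂ => ‖z‖ₑ ^ (2 * i) * ENNReal.ofReal (Real.exp (-‖z‖ ^ 2)))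
      (g := fun z : ℂ => ‖z‖ₑ ^ (2 * j) * ENNReal.ofReal (Real.exp (-‖z‖ ^ 2))) (by fun_prop) (by fun_prop)
  rw [← h2, ← h1]
  refine lintegral_congr fun z => ?_
  show ‖z 0‖ₑ ^ (2 * i) * ‖z 1‖ₑ ^ (2 * j) * gw z = (‖z 0‖ₑ ^ (2 * i) * ENNReal.ofReal (Real.exp (-‖z 0‖ ^ 2))) *
    (‖z 1‖ₑ ^ (2 * j) * ENNReal.ofReal (Real.exp (-‖z 1‖ ^ 2)))
  have e : gw z = ENNReal.ofReal (Real.exp (-‖z 0‖ ^ 2)) * ENNReal.ofReal (Real.exp (-‖z 1‖ ^ 2)) := by
    rw [gw, sq2, ← ENNReal.ofReal_mul (by positivity), ← Real.exp_add]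
    congr 2
    ring
  rw [e]
  ring

/-- elements of `SL(2, ℂ)` preserve the volume of `ℂ²` -/
theorem lintegral_mulVec (k : S2) (F : (Fin 2 → ℂ) → ℝ≥0∞) (hF : Measurable F) :
    ∫⁻ z : Fin 2 → ℂ, F (k.1.mulVec z) = ∫⁻ z, F z := by
  have hdet : LinearMap.det ((Matrix.toLin' k.1).restrictScalars ℝ) = 1 := by
    rw [LinearMap.det_restrictScalars, LinearMap.det_toLin', k.2, map_one]
  have h1 := Measure.map_linearMap_addHaar_eq_smul_addHaar (volume : Measure (Fin 2 → ℂ))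
    (f := (Matrix.toLin' k.1).restrictScalars ℝ) (by rw [hdet]; exact one_ne_zero)
  rw [hdet, inv_one, abs_one, ENNReal.ofReal_one, one_smul] at h1
  conv_rhs => rw [← h1]
  rw [lintegral_map hF]
  · rfl
  · exact (LinearMap.continuous_of_finiteDimensional _).measurable

theorem sq2_mulVec {k : S2} (hk : k ∈ KU) (z : Fin 2 → ℂ) : sq2 (k.1.mulVec z) = sq2 z := by
  -- put `z` in the first column of a matrix
  have h1 := nsq_unitary_mul hk !![z 0, 0; z 1, 0]
  rw [nsq_two, nsq_two] at h1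
  simp only [Matrix.mul_apply, Fin.sum_univ_two, Matrix.of_apply, Matrix.cons_val_zero, Matrix.cons_val_one,
    Matrix.cons_val', Matrix.cons_val_fin_one, Fin.isValue, mul_zero, add_zero, norm_zero, ne_eq, OfNat.ofNat_ne_zero,
    not_false_eq_true, zero_pow] at h1
  unfold sq2
  simp only [Matrix.mulVec, dotProduct, Fin.sum_univ_two, Fin.isValue]
  exact h1

theorem continuous_entry (i j : Fin 2) : Continuous fun g : S2 => g.1 i j :=
  continuous_val.matrix_elem i j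

/-- the column `(a, b)` of norm one is the first column of an element of `SU(2)` -/
noncomputable def ofCol (a b : ℂ) (h : Complex.normSq a + Complex.normSq b = 1) : S2 :=
  ⟨!![a, -(starRingEnd ℂ b); b, starRingEnd ℂ a], by
    rw [det_fin_two_of]
    have h1 : a * starRingEnd ℂ a + b * starRingEnd ℂ b = 1 := by
      rw [Complex.mul_conj, Complex.mul_conj]; exact_mod_cast h
    linear_combination h1⟩

theorem ofCol_mem (a b : ℂ) (h : Complex.normSq a + Complex.normSq b = 1) : ofCol a b h ∈ KU := by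
  have h1 : a * starRingEnd ℂ a + b * starRingEnd ℂ b = 1 := by
    rw [Complex.mul_conj, Complex.mul_conj]; exact_mod_cast h
  rw [mem_KU]
  ext i j
  fin_cases i <;> fin_cases j <;> simp [ofCol, Matrix.mul_apply, Fin.sum_univ_two, conjTranspose_apply] <;>
    first | ring1 | linear_combination h1

variable [MeasurableSpace S2] [BorelSpace S2]

/-- the moments of `|k₁₁|²` -/
noncomputable def mom (ν : Measure S2) (n : ℕ) : ℝ≥0∞ := ∫⁻ k, ‖k.1 0 0‖ₑ ^ (2 * n) ∂ν

theorem lintegral_entry {ν : Measure S2} (hν : HaarOn KU ν) (n : ℕ) (z : Fin 2 → ℂ) :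
    ∫⁻ k, ‖(k.1.mulVec z) 0‖ₑ ^ (2 * n) ∂ν = ENNReal.ofReal (sq2 z) ^ n * mom ν n := by
  haveI := hν.prob
  by_cases hz : sq2 z = 0
  · have h0 : z 0 = 0 := by
      have : ‖z 0‖ ^ 2 = 0 := by
        unfold sq2 at hz
        nlinarith [sq_nonneg ‖z 0‖, sq_nonneg ‖z 1‖]
      simpa using this
    have h1 : z 1 = 0 := by
      have : ‖z 1‖ ^ 2 = 0 := by
        unfold sq2 at hz
        nlinarith [sq_nonneg ‖z 0‖, sq_nonneg ‖z 1‖]
      simpa using this
    rw [hz]
    simp only [Matrix.mulVec, dotProduct, Fin.sum_univ_two, h0, h1, mul_zero, add_zero, enorm_zero, ENNReal.ofReal_zero]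
    rcases Nat.eq_zero_or_pos n with rfl | hn
    · simp [mom]
    · rw [zero_pow (by omega), zero_pow (by omega)]
      simp
  · have hpos : 0 < sq2 z := lt_of_le_of_ne (by unfold sq2; positivity) (Ne.symm hz)
    set r := Real.sqrt (sq2 z) with hr
    have hr0 : 0 < r := Real.sqrt_pos.2 hpos
    have hr2 : r ^ 2 = sq2 z := Real.sq_sqrt hpos.le
    have hcol : Complex.normSq (z 0 / r) + Complex.normSq (z 1 / r) = 1 := by
      rw [Complex.normSq_div, Complex.normSq_div, Complex.normSq_ofReal, Complex.normSq_eq_norm_sq,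
        Complex.normSq_eq_norm_sq, ← add_div, ← pow_two, hr2, div_eq_one_iff_eq hz]
      rfl
    set c := ofCol (z 0 / r) (z 1 / r) hcol with hc
    have hcK : c ∈ KU := ofCol_mem _ _ _
    have e : ∀ k : S2, (k.1.mulVec z) 0 = r * (k * c).1 0 0 := by
      intro k
      show _ = (r : ℂ) * ((k.1 * c.1) 0 0)
      have hrC : (r : ℂ) ≠ 0 := by exact_mod_cast hr0.ne'
      simp only [hc, ofCol, Matrix.mulVec, dotProduct, Fin.sum_univ_two, Matrix.mul_apply, Matrix.of_apply,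
        Matrix.cons_val_zero, Matrix.cons_val_one, Matrix.cons_val', Matrix.cons_val_fin_one, Fin.isValue]
      field_simp
    have hm : Measurable fun k : S2 => ‖(r : ℂ) * k.1 0 0‖ₑ ^ (2 * n) := by
      have := continuous_entry 0 0
      have : Continuous fun k : S2 => ‖(r : ℂ) * k.1 0 0‖ₑ ^ (2 * n) := by fun_prop
      exact this.measurable
    have hm2 : Measurable fun k : S2 => ‖k.1 0 0‖ₑ ^ (2 * n) := by
      have := continuous_entry 0 0
      have : Continuous fun k : S2 => ‖k.1 0 0‖ₑ ^ (2 * n) := by fun_prop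
      exact this.measurable
    calc ∫⁻ k, ‖(k.1.mulVec z) 0‖ₑ ^ (2 * n) ∂ν = ∫⁻ k : S2, ‖(r : ℂ) * (k * c).1 0 0‖ₑ ^ (2 * n) ∂ν := by
          simp only [e]
      _ = ∫⁻ k : S2, ‖(r : ℂ) * k.1 0 0‖ₑ ^ (2 * n) ∂ν := hν.lintegral_right hcK hm
      _ = ENNReal.ofReal (sq2 z) ^ n * mom ν n := by
          rw [mom, ← lintegral_const_mul _ hm2]
          refine lintegral_congr fun k => ?_
          rw [enorm_mul, mul_pow, ← hr2, ENNReal.ofReal_pow hr0.le, ← pow_mul]
          congr 2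
          rw [← ofReal_norm, Complex.norm_real, Real.norm_of_nonneg hr0.le]

/-- **The moments are `1 / (n + 1)`.** -/
theorem mom_eq {ν : Measure S2} (hν : HaarOn KU ν) (n : ℕ) : mom ν n * (n + 1) = 1 := by
  haveI := hν.prob
  set c : ℝ≥0∞ := ENNReal.ofReal (Real.pi * n.factorial) * ENNReal.ofReal (Real.pi * (Nat.factorial 0)) with hc
  have hcpos : c ≠ 0 := by
    rw [hc]
    exact mul_ne_zero (ENNReal.ofReal_pos.2 (by positivity)).ne' (ENNReal.ofReal_pos.2 (by positivity)).ne'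
  have hctop : c ≠ ∞ := ENNReal.mul_ne_top ENNReal.ofReal_ne_top ENNReal.ofReal_ne_top
  have hm1 : ∀ k : S2, Measurable fun z : Fin 2 → ℂ => ‖(k.1.mulVec z) 0‖ₑ ^ (2 * n) * gw z := by
    intro k
    refine Measurable.mul ?_ measurable_gw
    have : Continuous fun z : Fin 2 → ℂ => ‖(k.1.mulVec z) 0‖ₑ ^ (2 * n) := by
      have h1 : Continuous fun z : Fin 2 → ℂ => (k.1.mulVec z) 0 := by
        simp only [Matrix.mulVec, dotProduct, Fin.sum_univ_two]
        fun_prop
      fun_prop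
    exact this.measurable
  have h1 : ∀ k ∈ KU, ∫⁻ z : Fin 2 → ℂ, ‖(k.1.mulVec z) 0‖ₑ ^ (2 * n) * gw z = c := by
    intro k hk
    have h2 := lintegral_mulVec k (fun z => ‖z 0‖ₑ ^ (2 * n) * gw z) (by
      refine Measurable.mul ?_ measurable_gw
      fun_prop)
    have h3 : ∀ z, gw (k.1.mulVec z) = gw z := fun z => by rw [gw, sq2_mulVec hk, gw]
    simp only [h3] at h2
    rw [h2, hc, ← lintegral_gauss2 n 0]
    simp
  have hm2 : Measurable fun p : S2 × (Fin 2 → ℂ) => ‖(p.1.1.mulVec p.2) 0‖ₑ ^ (2 * n) * gw p.2 := by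
    refine Measurable.mul ?_ (measurable_gw.comp measurable_snd)
    have : Continuous fun p : S2 × (Fin 2 → ℂ) => ‖(p.1.1.mulVec p.2) 0‖ₑ ^ (2 * n) := by
      have h1 : Continuous fun p : S2 × (Fin 2 → ℂ) => (p.1.1.mulVec p.2) 0 := by
        simp only [Matrix.mulVec, dotProduct, Fin.sum_univ_two]
        have h2 := (continuous_entry 0 0).comp (continuous_fst (X := S2) (Y := Fin 2 → ℂ))
        have h3 := (continuous_entry 0 1).comp (continuous_fst (X := S2) (Y := Fin 2 → ℂ))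
        simp only [Function.comp_def] at h2 h3
        fun_prop
      fun_prop
    exact this.measurable
  have h4 : ∫⁻ k : S2, (∫⁻ z : Fin 2 → ℂ, ‖(k.1.mulVec z) 0‖ₑ ^ (2 * n) * gw z) ∂ν = c := by
    calc ∫⁻ k : S2, (∫⁻ z : Fin 2 → ℂ, ‖(k.1.mulVec z) 0‖ₑ ^ (2 * n) * gw z) ∂ν = ∫⁻ _ : S2, c ∂ν := by
          refine lintegral_congr_ae ?_
          filter_upwards [hν.supp] with k hk
          exact h1 k hk
      _ = c := by simp
  rw [lintegral_lintegral_swap hm2.aemeasurable] at h4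
  have h5 : ∫⁻ z : Fin 2 → ℂ, (∫⁻ k : S2, ‖(k.1.mulVec z) 0‖ₑ ^ (2 * n) * gw z ∂ν) =
      mom ν n * ∫⁻ z : Fin 2 → ℂ, ENNReal.ofReal (sq2 z) ^ n * gw z := by
    rw [← lintegral_const_mul]
    · refine lintegral_congr fun z => ?_
      rw [lintegral_mul_const', lintegral_entry hν]
      · ring
      · exact ENNReal.ofReal_ne_top
    · refine Measurable.mul ?_ measurable_gw
      unfold sq2
      fun_prop
  rw [h5] at h4
  have h6 : ∫⁻ z : Fin 2 → ℂ, ENNReal.ofReal (sq2 z) ^ n * gw z = (n + 1) * c := by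
    have e : ∀ z : Fin 2 → ℂ, ENNReal.ofReal (sq2 z) ^ n * gw z =
        ∑ m ∈ Finset.range (n + 1), (n.choose m : ℝ≥0∞) * (‖z 0‖ₑ ^ (2 * m) * ‖z 1‖ₑ ^ (2 * (n - m)) * gw z) := by
      intro z
      have e1 : ENNReal.ofReal (sq2 z) = ‖z 0‖ₑ ^ 2 + ‖z 1‖ₑ ^ 2 := by
        rw [sq2, ENNReal.ofReal_add (by positivity) (by positivity), ENNReal.ofReal_pow (norm_nonneg _),
          ENNReal.ofReal_pow (norm_nonneg _), ofReal_norm, ofReal_norm]
      rw [e1, add_pow, Finset.sum_mul]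
      refine Finset.sum_congr rfl fun m _ => ?_
      rw [pow_mul, pow_mul]
      ring
    simp only [e]
    rw [lintegral_finsetSum]
    · have e2 : ∀ m ∈ Finset.range (n + 1), ∫⁻ z : Fin 2 → ℂ, (n.choose m : ℝ≥0∞) *
          (‖z 0‖ₑ ^ (2 * m) * ‖z 1‖ₑ ^ (2 * (n - m)) * gw z) = c := by
        intro m hm
        have hmn : m ≤ n := Nat.lt_succ_iff.1 (Finset.mem_range.1 hm)
        rw [lintegral_const_mul', lintegral_gauss2, hc, ← ENNReal.ofReal_mul (by positivity),
          ← ENNReal.ofReal_mul (by positivity), ← ENNReal.ofReal_natCast, ← ENNReal.ofReal_mul (by positivity)]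
        · congr 1
          have h7 : ((n.choose m : ℝ)) * m.factorial * (n - m).factorial = n.factorial := by
            exact_mod_cast Nat.choose_mul_factorial_mul_factorial hmn
          rw [← h7]
          simp only [Nat.factorial_zero, Nat.cast_one]
          ring
        · exact ENNReal.natCast_ne_top _
      rw [Finset.sum_congr rfl e2, Finset.sum_const, Finset.card_range, nsmul_eq_mul]
      push_cast
      rfl
    · intro m _
      refine Measurable.const_mul (Measurable.mul ?_ measurable_gw) _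
      fun_prop
  rw [h6, ← mul_assoc] at h4
  have h8 : (mom ν n * (n + 1)) * c = 1 * c := by rw [h4, one_mul]
  exact (ENNReal.mul_left_inj hcpos hctop).1 h8

end Pool.Agent.Helper9.CA
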