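import Pool.Agent.Helper9.CA.Hat

/-!
# Project FP (MP_0f6f3f_an): Archimedes' theorem for `SU(2)`, Cartan decomposition and product formula of `SL(2, ℂ)`
-/

set_option autoImplicit false
set_option linter.unusedSectionVars false
set_option linter.style.haveILetI false
set_option linter.unusedSimpArgs false

open MeasureTheory Measure Topology Matrix

namespace Pool.Agent.Helper9.CA

section Hat

variable [MeasurableSpace S2] [BorelSpace S2]

theorem entry_sq_le_one {k : S2} (hk : k ∈ KU) : ‖k.1 0 0‖ ^ 2 ≤ 1 := by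
  have h1 := sq2_mulVec hk (fun i => if i = 0 then 1 else 0)
  simp only [sq2, Matrix.mulVec, dotProduct, Fin.sum_univ_two, Fin.isValue, if_true, one_ne_zero, if_false, mul_one,
    mul_zero, add_zero, norm_one, norm_zero] at h1
  nlinarith [sq_nonneg ‖k.1 1 0‖]

theorem moment {ν : Measure S2} (hν : HaarOn KU ν) (n : ℕ) : ∫ k : S2, (‖k.1 0 0‖ ^ 2) ^ n ∂ν = 1 / (n + 1) := by
  have h1 := mom_eq hν n
  have h2 : ∫ k : S2, (‖k.1 0 0‖ ^ 2) ^ n ∂ν = (mom ν n).toReal := by
    rw [integral_eq_lintegral_of_nonneg_ae (Filter.Eventually.of_forall fun k => by positivity)]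
    · congr 1
      refine lintegral_congr fun k => ?_
      rw [← pow_mul, ENNReal.ofReal_pow (norm_nonneg _), ofReal_norm]
    · have := continuous_entry 0 0
      have : Continuous fun k : S2 => (‖k.1 0 0‖ ^ 2) ^ n := by fun_prop
      exact this.measurable.aestronglyMeasurable
  rw [h2]
  have h3 : (mom ν n).toReal * ((n : ℝ) + 1) = 1 := by
    have := congrArg ENNReal.toReal h1
    rw [ENNReal.toReal_mul, ENNReal.toReal_one] at this
    have e : ((n : ENNReal) + 1).toReal = (n : ℝ) + 1 := by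
      rw [ENNReal.toReal_add (ENNReal.natCast_ne_top n) ENNReal.one_ne_top]
      simp
    rw [e] at this
    exact this
  have h4 : ((n : ℝ) + 1) ≠ 0 := by positivity
  field_simp
  exact h3

theorem integrable_entry {ν : Measure S2} (hν : HaarOn KU ν) {h : ℝ → ℝ} (hc : ContinuousOn h (Set.Icc 0 1)) :
    Integrable (fun k : S2 => h (‖k.1 0 0‖ ^ 2)) ν := by
  haveI := hν.prob
  -- extend `h` to a continuous function
  let h' : ℝ → ℝ := fun x => h (max 0 (min 1 x))
  have hc' : Continuous h' := by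
    refine hc.comp_continuous (continuous_const.max (continuous_const.min continuous_id)) fun x => ?_
    exact ⟨le_max_left _ _, max_le (by norm_num) (min_le_left _ _)⟩
  have h1 : Integrable (fun k : S2 => h' (‖k.1 0 0‖ ^ 2)) ν := by
    have := continuous_entry 0 0
    have : Continuous fun k : S2 => h' (‖k.1 0 0‖ ^ 2) := by fun_prop
    obtain ⟨C, hC⟩ := (isCompact_KU.image this).isBounded.exists_norm_le
    refine Integrable.of_bound this.measurable.aestronglyMeasurable C ?_
    filter_upwards [hν.supp] with k hk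
    exact hC _ ⟨k, hk, rfl⟩
  refine h1.congr ?_
  filter_upwards [hν.supp] with k hk
  have h2 := entry_sq_le_one hk
  show h (max 0 (min 1 (‖k.1 0 0‖ ^ 2))) = _
  rw [min_eq_right h2, max_eq_right (by positivity)]

/-- **Archimedes' theorem: the law of `|k₁₁|²` is uniform.** -/
theorem hat {ν : Measure S2} (hν : HaarOn KU ν) {h : ℝ → ℝ} (hc : ContinuousOn h (Set.Icc 0 1)) :
    ∫ k : S2, h (‖k.1 0 0‖ ^ 2) ∂ν = ∫ t in (0 : ℝ)..1, h t := by
  haveI := hν.prob
  have hpoly : ∀ p : Polynomial ℝ, ∫ k : S2, p.eval (‖k.1 0 0‖ ^ 2) ∂ν = ∫ t in (0 : ℝ)..1, p.eval t := by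
    intro p
    induction p using Polynomial.induction_on' with
    | add p q hp hq =>
      have e1 : ∫ k : S2, (p + q).eval (‖k.1 0 0‖ ^ 2) ∂ν =
          ∫ k : S2, p.eval (‖k.1 0 0‖ ^ 2) ∂ν + ∫ k : S2, q.eval (‖k.1 0 0‖ ^ 2) ∂ν := by
        simp only [Polynomial.eval_add]
        exact integral_add (integrable_entry hν p.continuous.continuousOn) (integrable_entry hν q.continuous.continuousOn)
      have e2 : ∫ t in (0 : ℝ)..1, (p + q).eval t = (∫ t in (0 : ℝ)..1, p.eval t) + ∫ t in (0 : ℝ)..1, q.eval t := by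
        simp only [Polynomial.eval_add]
        exact intervalIntegral.integral_add (p.continuous.intervalIntegrable _ _) (q.continuous.intervalIntegrable _ _)
      rw [e1, e2, hp, hq]
    | monomial n a =>
      simp only [Polynomial.eval_monomial]
      rw [integral_const_mul, moment hν, intervalIntegral.integral_const_mul, integral_pow]
      simp
  refine eq_of_forall_dist_le fun ε hε => ?_
  obtain ⟨p, hp⟩ := exists_polynomial_near_of_continuousOn 0 1 h hc (ε / 2) (by positivity)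
  have h1 : dist (∫ k : S2, h (‖k.1 0 0‖ ^ 2) ∂ν) (∫ k : S2, p.eval (‖k.1 0 0‖ ^ 2) ∂ν) ≤ ε / 2 := by
    rw [dist_eq_norm, ← integral_sub (integrable_entry hν hc) (integrable_entry hν p.continuous.continuousOn)]
    have := norm_integral_le_of_norm_le_const (μ := ν) (f := fun k : S2 => h (‖k.1 0 0‖ ^ 2) - p.eval (‖k.1 0 0‖ ^ 2))
      (C := ε / 2) (by
        filter_upwards [hν.supp] with k hk
        rw [Real.norm_eq_abs, abs_sub_comm]
        exact (hp _ ⟨by positivity, entry_sq_le_one hk⟩).le)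
    simpa using this
  have h2 : dist (∫ t in (0 : ℝ)..1, p.eval t) (∫ t in (0 : ℝ)..1, h t) ≤ ε / 2 := by
    have hci : IntervalIntegrable h volume 0 1 := by
      apply ContinuousOn.intervalIntegrable
      rwa [Set.uIcc_of_le (by norm_num : (0 : ℝ) ≤ 1)]
    rw [dist_eq_norm, ← intervalIntegral.integral_sub (p.continuous.intervalIntegrable _ _) hci]
    have := intervalIntegral.norm_integral_le_of_norm_le_const (a := 0) (b := 1) (f := fun t => p.eval t - h t)
      (C := ε / 2) (by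
        intro x hx
        rw [Set.uIoc_of_le (by norm_num : (0 : ℝ) ≤ 1)] at hx
        exact (hp x ⟨hx.1.le, hx.2⟩).le)
    simpa using this
  calc dist (∫ k : S2, h (‖k.1 0 0‖ ^ 2) ∂ν) (∫ t in (0 : ℝ)..1, h t)
      ≤ dist (∫ k : S2, h (‖k.1 0 0‖ ^ 2) ∂ν) (∫ k : S2, p.eval (‖k.1 0 0‖ ^ 2) ∂ν) +
        dist (∫ k : S2, p.eval (‖k.1 0 0‖ ^ 2) ∂ν) (∫ t in (0 : ℝ)..1, h t) := dist_triangle _ _ _
    _ ≤ ε / 2 + ε / 2 := by
        rw [hpoly p]
        rw [hpoly p] at h1
        exact add_le_add h1 h2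
    _ = ε := by ring

/-- the complex form -/
theorem hatC {ν : Measure S2} (hν : HaarOn KU ν) {h : ℝ → ℂ} (hc : ContinuousOn h (Set.Icc 0 1)) :
    ∫ k : S2, h (‖k.1 0 0‖ ^ 2) ∂ν = ∫ t in (0 : ℝ)..1, h t := by
  haveI := hν.prob
  have hre : ContinuousOn (fun t => (h t).re) (Set.Icc 0 1) := Complex.continuous_re.comp_continuousOn hc
  have him : ContinuousOn (fun t => (h t).im) (Set.Icc 0 1) := Complex.continuous_im.comp_continuousOn hc
  have i1 := integrable_entry hν hre
  have i2 := integrable_entry hν him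
  have hci : IntervalIntegrable h volume 0 1 := by
    apply ContinuousOn.intervalIntegrable
    rwa [Set.uIcc_of_le (by norm_num : (0 : ℝ) ≤ 1)]
  have e1 : ∀ t, h t = ((h t).re : ℂ) + ((h t).im : ℂ) * Complex.I := fun t => (Complex.re_add_im (h t)).symm
  have e2 : ∫ k : S2, h (‖k.1 0 0‖ ^ 2) ∂ν =
      ((∫ k : S2, (h (‖k.1 0 0‖ ^ 2)).re ∂ν : ℝ) : ℂ) + ((∫ k : S2, (h (‖k.1 0 0‖ ^ 2)).im ∂ν : ℝ) : ℂ) * Complex.I := by
    have j1 : ∫ k : S2, (((h (‖k.1 0 0‖ ^ 2)).re : ℝ) : ℂ) ∂ν = ((∫ k : S2, (h (‖k.1 0 0‖ ^ 2)).re ∂ν : ℝ) : ℂ) :=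
      integral_ofReal
    have j2 : ∫ k : S2, (((h (‖k.1 0 0‖ ^ 2)).im : ℝ) : ℂ) * Complex.I ∂ν =
        ((∫ k : S2, (h (‖k.1 0 0‖ ^ 2)).im ∂ν : ℝ) : ℂ) * Complex.I := by
      rw [integral_mul_const]
      congr 1
      exact integral_ofReal
    have j3 : Integrable (fun k : S2 => (((h (‖k.1 0 0‖ ^ 2)).re : ℝ) : ℂ)) ν := i1.ofReal
    have j4 : Integrable (fun k : S2 => (((h (‖k.1 0 0‖ ^ 2)).im : ℝ) : ℂ) * Complex.I) ν := i2.ofReal.mul_const _
    rw [← j1, ← j2, ← integral_add j3 j4]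
    exact integral_congr_ae (Filter.Eventually.of_forall fun k => e1 _)
  have e3 : ∫ t in (0 : ℝ)..1, h t =
      ((∫ t in (0 : ℝ)..1, (h t).re : ℝ) : ℂ) + ((∫ t in (0 : ℝ)..1, (h t).im : ℝ) : ℂ) * Complex.I := by
    rw [← intervalIntegral.integral_ofReal, ← intervalIntegral.integral_ofReal, ← intervalIntegral.integral_mul_const,
      ← intervalIntegral.integral_add]
    · exact intervalIntegral.integral_congr fun t _ => e1 t
    · apply ContinuousOn.intervalIntegrable
      rw [Set.uIcc_of_le (by norm_num : (0 : ℝ) ≤ 1)]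
      exact Complex.continuous_ofReal.comp_continuousOn hre
    · apply ContinuousOn.intervalIntegrable
      rw [Set.uIcc_of_le (by norm_num : (0 : ℝ) ≤ 1)]
      exact (Complex.continuous_ofReal.comp_continuousOn him).mul continuousOn_const
  rw [e2, e3, hat hν hre, hat hν him]

end Hat

section KAK

/-- `diag(e^{t/2}, e^{-t/2})` -/
noncomputable def aR (t : ℝ) : S2 :=
  ⟨!![(Real.exp (t / 2) : ℂ), 0; 0, (Real.exp (-t / 2) : ℂ)], by
    rw [det_fin_two_of, mul_zero, sub_zero, ← Complex.ofReal_mul, ← Real.exp_add]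
    norm_num
    ring_nf
    simp⟩

theorem aR_add (s t : ℝ) : aR (s + t) = aR s * aR t := by
  apply Subtype.ext
  show (aR (s + t)).1 = (aR s).1 * (aR t).1
  ext i j
  fin_cases i <;> fin_cases j <;> simp [aR, Matrix.mul_apply, Fin.sum_univ_two]
  · rw [← Complex.exp_add]; congr 1; ring
  · rw [← Complex.exp_add]; congr 1; ring

theorem aR_zero : aR 0 = 1 := by
  apply Subtype.ext
  show (aR 0).1 = (1 : Matrix (Fin 2) (Fin 2) ℂ)
  ext i j
  fin_cases i <;> fin_cases j <;> simp [aR]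

theorem aR_neg (t : ℝ) : aR (-t) = (aR t)⁻¹ := by
  rw [eq_inv_iff_mul_eq_one, ← aR_add, neg_add_cancel, aR_zero]

theorem nsq_aR (t : ℝ) : nsq (aR t).1 = 2 * Real.cosh t := by
  rw [nsq_two]
  have h1 : ‖((Real.exp (t / 2) : ℝ) : ℂ)‖ ^ 2 = Real.exp t := by
    rw [Complex.norm_real, Real.norm_of_nonneg (Real.exp_pos _).le, ← Real.exp_nat_mul]
    congr 1
    push_cast
    ring
  have h2 : ‖((Real.exp (-t / 2) : ℝ) : ℂ)‖ ^ 2 = Real.exp (-t) := by
    rw [Complex.norm_real, Real.norm_of_nonneg (Real.exp_pos _).le, ← Real.exp_nat_mul]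
    congr 1
    push_cast
    ring
  simp only [aR, Matrix.of_apply, Matrix.cons_val_zero, Matrix.cons_val_one, Matrix.cons_val', Matrix.cons_val_fin_one,
    Fin.isValue, h1, h2]
  rw [Real.cosh_eq]
  simp
  ring

end KAK

end Pool.Agent.Helper9.CA
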