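import Pool.Agent.Helper9.CA.Energy
import Pool.Agent.Helper96.FR.Rge2

/-!
# Project FF (MP_0f6f3f_an): `SL(2, ℂ)` has no harmonic functions with finite Dirichlet energy

The geometric input for `eq_zero_of_energy`: `G = SL(2, ℂ)`, `K = SU(2)`, `N` the Frobenius norm.
-/

set_option autoImplicit false
set_option linter.unusedSectionVars false
set_option linter.style.haveILetI false
set_option linter.unusedSimpArgs false

open MeasureTheory Measure ENNReal Topology Matrix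

namespace Pool.Agent.Helper9.CA

/-- the group `SL(2, ℂ)` -/
abbrev S2 : Type := SpecialLinearGroup (Fin 2) ℂ

/-- `SU(2)`, the unitary matrices in `SL(2, ℂ)` -/
def KU : Subgroup S2 where
  carrier := {k | k.1 * k.1ᴴ = 1}
  one_mem' := by
    show (1 : Matrix (Fin 2) (Fin 2) ℂ) * (1 : Matrix (Fin 2) (Fin 2) ℂ)ᴴ = 1
    simp
  mul_mem' := by
    intro a b ha hb
    have ha' : a.1 * a.1ᴴ = 1 := ha
    have hb' : b.1 * b.1ᴴ = 1 := hb
    show (a.1 * b.1) * (a.1 * b.1)ᴴ = 1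
    rw [conjTranspose_mul, mul_assoc, ← mul_assoc b.1, hb', one_mul, ha']
  inv_mem' := by
    intro a ha
    have ha' : a.1 * a.1ᴴ = 1 := ha
    have h1 : (a⁻¹).1 * a.1 = 1 := congrArg Subtype.val (inv_mul_cancel a)
    have h2 : (a⁻¹).1 = a.1ᴴ := by
      calc (a⁻¹).1 = (a⁻¹).1 * (a.1 * a.1ᴴ) := by rw [ha', mul_one]
        _ = a.1ᴴ := by rw [← mul_assoc, h1, one_mul]
    show (a⁻¹).1 * (a⁻¹).1ᴴ = 1
    rw [h2, conjTranspose_conjTranspose, mul_eq_one_comm.1 ha']

theorem mem_KU {k : S2} : k ∈ KU ↔ k.1 * k.1ᴴ = 1 := Iff.rfl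

theorem mem_KU' {k : S2} : k ∈ KU ↔ k.1ᴴ * k.1 = 1 := by rw [mem_KU, mul_eq_one_comm]

/-- the square of the Frobenius norm -/
noncomputable def nsq (A : Matrix (Fin 2) (Fin 2) ℂ) : ℝ := ∑ i, ∑ j, ‖A i j‖ ^ 2

theorem nsq_nonneg (A : Matrix (Fin 2) (Fin 2) ℂ) : 0 ≤ nsq A :=
  Finset.sum_nonneg fun _ _ => Finset.sum_nonneg fun _ _ => by positivity

/-- the Frobenius norm -/
noncomputable def nF (A : Matrix (Fin 2) (Fin 2) ℂ) : ℝ := Real.sqrt (nsq A)

theorem nF_nonneg (A : Matrix (Fin 2) (Fin 2) ℂ) : 0 ≤ nF A := Real.sqrt_nonneg _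

theorem nF_sq (A : Matrix (Fin 2) (Fin 2) ℂ) : nF A ^ 2 = nsq A := Real.sq_sqrt (nsq_nonneg A)

section Frob

open scoped Matrix.Norms.Frobenius

theorem nF_eq (A : Matrix (Fin 2) (Fin 2) ℂ) : nF A = ‖A‖ := by
  rw [frobenius_norm_def, nF, nsq, Real.sqrt_eq_rpow]
  simp only [← Real.rpow_natCast]
  norm_num

theorem nF_mul (A B : Matrix (Fin 2) (Fin 2) ℂ) : nF (A * B) ≤ nF A * nF B := by
  rw [nF_eq, nF_eq, nF_eq]
  exact frobenius_norm_mul A B

theorem nF_add (A B : Matrix (Fin 2) (Fin 2) ℂ) : nF (A + B) ≤ nF A + nF B := by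
  rw [nF_eq, nF_eq, nF_eq]
  exact norm_add_le A B

end Frob

theorem entry_le_nF (A : Matrix (Fin 2) (Fin 2) ℂ) (i j : Fin 2) : ‖A i j‖ ≤ nF A := by
  refine Real.le_sqrt_of_sq_le ?_
  unfold nsq
  calc ‖A i j‖ ^ 2 ≤ ∑ j, ‖A i j‖ ^ 2 :=
        Finset.single_le_sum (f := fun j => ‖A i j‖ ^ 2) (fun _ _ => by positivity) (Finset.mem_univ j)
    _ ≤ _ := Finset.single_le_sum (f := fun i => ∑ j, ‖A i j‖ ^ 2)
        (fun _ _ => Finset.sum_nonneg fun _ _ => by positivity) (Finset.mem_univ i)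

theorem continuous_nF : Continuous nF := by
  unfold nF nsq
  fun_prop

theorem nsq_eq_trace (A : Matrix (Fin 2) (Fin 2) ℂ) : nsq A = (Aᴴ * A).trace.re := by
  have h : ∀ z : ℂ, ‖z‖ ^ 2 = ((starRingEnd ℂ) z * z).re := fun z => by
    rw [← Complex.normSq_eq_conj_mul_self, Complex.ofReal_re, Complex.normSq_eq_norm_sq]
  simp only [nsq, Matrix.trace, Matrix.diag, Matrix.mul_apply, Fin.sum_univ_two, conjTranspose_apply,
    RCLike.star_def, Complex.add_re, h]
  ring

theorem nsq_unitary_mul {k : S2} (hk : k ∈ KU) (A : Matrix (Fin 2) (Fin 2) ℂ) : nsq (k.1 * A) = nsq A := by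
  rw [nsq_eq_trace, nsq_eq_trace, conjTranspose_mul, mul_assoc, ← mul_assoc (k.1ᴴ), mem_KU'.1 hk, one_mul]

/-- the length function on `SL(2, ℂ)` -/
noncomputable def N2 (g : S2) : NNReal := ⟨nF g.1, nF_nonneg _⟩

theorem N2_coe (g : S2) : (N2 g : ℝ) = nF g.1 := rfl

theorem N2_mul (x y : S2) : N2 (x * y) ≤ N2 x * N2 y := by
  rw [← NNReal.coe_le_coe, NNReal.coe_mul]
  exact nF_mul x.1 y.1

theorem N2_K {k : S2} (hk : k ∈ KU) (g : S2) : N2 (k * g) = N2 g := by
  apply NNReal.eq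
  show Real.sqrt (nsq (k.1 * g.1)) = _
  rw [nsq_unitary_mul hk]
  rfl

theorem nsq_two (A : Matrix (Fin 2) (Fin 2) ℂ) :
    nsq A = ‖A 0 0‖ ^ 2 + ‖A 0 1‖ ^ 2 + (‖A 1 0‖ ^ 2 + ‖A 1 1‖ ^ 2) := by
  simp only [nsq, Fin.sum_univ_two]

theorem nsq_ge (g : S2) : 2 ≤ nsq g.1 := by
  have h := g.2
  rw [det_fin_two] at h
  have h1 : (1 : ℝ) ≤ ‖g.1 0 0‖ * ‖g.1 1 1‖ + ‖g.1 0 1‖ * ‖g.1 1 0‖ := by
    calc (1 : ℝ) = ‖(1 : ℂ)‖ := by simp
      _ = ‖g.1 0 0 * g.1 1 1 - g.1 0 1 * g.1 1 0‖ := by rw [h]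
      _ ≤ _ := (norm_sub_le _ _).trans (by rw [norm_mul, norm_mul])
  rw [nsq_two]
  nlinarith [sq_nonneg (‖g.1 0 0‖ - ‖g.1 1 1‖), sq_nonneg (‖g.1 0 1‖ - ‖g.1 1 0‖)]

theorem N2_ge (g : S2) : 1 ≤ N2 g := by
  rw [← NNReal.coe_le_coe]
  show (1 : ℝ) ≤ Real.sqrt (nsq g.1)
  rw [Real.one_le_sqrt]
  linarith [nsq_ge g]

/-- the adjugate preserves the Frobenius norm -/
theorem nsq_adjugate (A : Matrix (Fin 2) (Fin 2) ℂ) : nsq A.adjugate = nsq A := by
  rw [adjugate_fin_two, nsq_two, nsq_two]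
  simp
  ring

theorem coe_inv (g : S2) : (g⁻¹).1 = g.1.adjugate := Matrix.SpecialLinearGroup.coe_inv g

theorem nF_inv (g : S2) : nF (g⁻¹).1 = nF g.1 := by rw [coe_inv, nF, nsq_adjugate, nF]

theorem nF_inv_sub_one (g : S2) : nF ((g⁻¹).1 - 1) = nF (g.1 - 1) := by
  have h : (g⁻¹).1 - 1 = (g.1 - 1).adjugate := by
    rw [coe_inv, adjugate_fin_two, adjugate_fin_two]
    ext i j
    fin_cases i <;> fin_cases j <;> simp
  rw [h, nF, nsq_adjugate, nF]

theorem continuous_val : Continuous fun g : S2 => g.1 := continuous_subtype_val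

theorem continuous_N2 : Continuous N2 := by
  have : Continuous fun g : S2 => nF g.1 := continuous_nF.comp continuous_val
  exact this.subtype_mk _

theorem isCompact_ball (R : NNReal) : IsCompact {g : S2 | N2 g ≤ R} := by
  refine Pool.Agent.Helper96.FR.isCompact_SL (isClosed_le continuous_N2 continuous_const) (M := R) fun A hA x y => ?_
  exact (entry_le_nF _ _ _).trans (by exact_mod_cast hA)

theorem isCompact_KU : IsCompact (KU : Set S2) := by
  have hc : IsClosed (KU : Set S2) := by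
    have : (KU : Set S2) = {k | k.1 * k.1ᴴ = 1} := rfl
    rw [this]
    exact isClosed_eq (continuous_val.mul continuous_val.matrix_conjTranspose) continuous_const
  refine Pool.Agent.Helper96.FR.isCompact_SL hc (M := nF (1 : Matrix (Fin 2) (Fin 2) ℂ)) fun A hA x y => ?_
  refine (entry_le_nF _ _ _).trans (le_of_eq ?_)
  have := nsq_unitary_mul hA 1
  rw [mul_one] at this
  rw [nF, this, nF]

/-- the one-parameter subgroup `cos t + sin t J` of `SU(2)`, `J = (i y, b; - b̄, - i y)`, `y² + |b|² = 1` -/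
noncomputable def rot (y : ℝ) (b : ℂ) (h : y ^ 2 + Complex.normSq b = 1) (t : ℝ) : S2 :=
  ⟨!![(Real.cos t : ℂ) + Complex.I * y * Real.sin t, b * Real.sin t;
      -(starRingEnd ℂ b) * Real.sin t, (Real.cos t : ℂ) - Complex.I * y * Real.sin t], by
    rw [det_fin_two_of]
    have h1 : (Real.cos t : ℂ) ^ 2 + (Real.sin t : ℂ) ^ 2 = 1 := by exact_mod_cast Real.cos_sq_add_sin_sq t
    have h2 : (y : ℂ) ^ 2 + b * starRingEnd ℂ b = 1 := by
      rw [Complex.mul_conj]; exact_mod_cast h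
    linear_combination h1 + (Real.sin t : ℂ) ^ 2 * h2 - (Real.sin t : ℂ) ^ 2 * (y : ℂ) ^ 2 * Complex.I_sq⟩

theorem rot_add (y : ℝ) (b : ℂ) (h : y ^ 2 + Complex.normSq b = 1) (s t : ℝ) :
    rot y b h (s + t) = rot y b h s * rot y b h t := by
  have h2 : (y : ℂ) ^ 2 + b * starRingEnd ℂ b = 1 := by
    rw [Complex.mul_conj]; exact_mod_cast h
  have hc : ((Real.cos (s + t) : ℝ) : ℂ) = Real.cos s * Real.cos t - Real.sin s * Real.sin t := by
    rw [Real.cos_add]; push_cast; ring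
  have hs : ((Real.sin (s + t) : ℝ) : ℂ) = Real.sin s * Real.cos t + Real.cos s * Real.sin t := by
    rw [Real.sin_add]; push_cast; ring
  apply Subtype.ext
  show (rot y b h (s + t)).1 = (rot y b h s).1 * (rot y b h t).1
  ext i j
  fin_cases i <;> fin_cases j <;> simp only [rot, Matrix.mul_apply, Fin.sum_univ_two, Matrix.of_apply, Matrix.cons_val_zero,
    Matrix.cons_val_one, Matrix.cons_val', Matrix.cons_val_fin_one, Fin.zero_eta, Fin.mk_one, Fin.isValue, hc, hs]
  · linear_combination ((Real.sin s : ℂ) * Real.sin t) * h2 - ((Real.sin s : ℂ) * Real.sin t) * (y : ℂ) ^ 2 * Complex.I_sq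
  · ring
  · ring
  · linear_combination ((Real.sin s : ℂ) * Real.sin t) * h2 - ((Real.sin s : ℂ) * Real.sin t) * (y : ℂ) ^ 2 * Complex.I_sq

theorem rot_zero (y : ℝ) (b : ℂ) (h : y ^ 2 + Complex.normSq b = 1) : rot y b h 0 = 1 := by
  apply Subtype.ext
  show (rot y b h 0).1 = (1 : Matrix (Fin 2) (Fin 2) ℂ)
  ext i j
  fin_cases i <;> fin_cases j <;> simp [rot]

theorem rot_pow (y : ℝ) (b : ℂ) (h : y ^ 2 + Complex.normSq b = 1) (t : ℝ) (n : ℕ) :
    rot y b h t ^ n = rot y b h (n * t) := by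
  induction n with
  | zero => rw [pow_zero, Nat.cast_zero, zero_mul, rot_zero]
  | succ n ih => rw [pow_succ, ih, ← rot_add]; congr 1; push_cast; ring

theorem rot_mem (y : ℝ) (b : ℂ) (h : y ^ 2 + Complex.normSq b = 1) (t : ℝ) : rot y b h t ∈ KU := by
  have h1 : (rot y b h t).1ᴴ = (rot y b h (-t)).1 := by
    ext i j
    fin_cases i <;> fin_cases j <;> simp [rot, conjTranspose_apply, Complex.cos_conj, Complex.sin_conj,
      ← Complex.ofReal_cos, ← Complex.ofReal_sin, sub_eq_add_neg]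
  rw [mem_KU, h1]
  have h2 := rot_add y b h t (-t)
  rw [add_neg_cancel, rot_zero] at h2
  exact (congrArg Subtype.val h2).symm

theorem exists_rot {k : S2} (hk : k ∈ KU) : ∃ (y : ℝ) (b : ℂ) (h : y ^ 2 + Complex.normSq b = 1) (t : ℝ),
    0 ≤ t ∧ t ≤ Real.pi ∧ k = rot y b h t := by
  have h1 := mem_KU.1 hk
  have hinv : k.1ᴴ = k.1.adjugate := by
    have h3 : k.1 * k.1.adjugate = 1 := by rw [mul_adjugate, k.2, one_smul]
    have h4 : k.1.adjugate * k.1 = 1 := by rw [adjugate_mul, k.2, one_smul]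
    calc k.1ᴴ = (k.1.adjugate * k.1) * k.1ᴴ := by rw [h4, one_mul]
      _ = k.1.adjugate := by rw [mul_assoc, h1, mul_one]
  rw [adjugate_fin_two] at hinv
  have e0 : starRingEnd ℂ (k.1 0 0) = k.1 1 1 := by
    have := congrFun (congrFun hinv 0) 0
    simpa [conjTranspose_apply] using this
  have e1 : starRingEnd ℂ (k.1 1 0) = - k.1 0 1 := by
    have := congrFun (congrFun hinv 0) 1
    simpa [conjTranspose_apply] using this
  have hd := k.2
  rw [det_fin_two, ← e0] at hd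
  have e2 : k.1 1 0 = - starRingEnd ℂ (k.1 0 1) := by
    have := congrArg (starRingEnd ℂ) e1
    rw [Complex.conj_conj, map_neg] at this
    exact this
  set a := k.1 0 0 with ha
  set c := k.1 0 1 with hc
  have hn : Complex.normSq a + Complex.normSq c = 1 := by
    have h5 : a * starRingEnd ℂ a + c * starRingEnd ℂ c = 1 := by
      rw [e2] at hd
      linear_combination hd
    rw [Complex.mul_conj, Complex.mul_conj] at h5
    exact_mod_cast h5
  have hn' : a.re ^ 2 + (a.im ^ 2 + Complex.normSq c) = 1 := by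
    rw [Complex.normSq_apply] at hn
    linarith
  have hc0 : 0 ≤ Complex.normSq c := Complex.normSq_nonneg c
  have hx1 : a.re ≤ 1 := by nlinarith [sq_nonneg a.im, sq_nonneg (a.re - 1)]
  have hx2 : -1 ≤ a.re := by nlinarith [sq_nonneg a.im, sq_nonneg (a.re + 1)]
  set s := Real.sqrt (a.im ^ 2 + Complex.normSq c) with hs
  have hs0 : 0 ≤ s := Real.sqrt_nonneg _
  have hs2 : s ^ 2 = a.im ^ 2 + Complex.normSq c := Real.sq_sqrt (by positivity)
  have hcos : Real.cos (Real.arccos a.re) = a.re := Real.cos_arccos hx2 hx1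
  have hsin : Real.sin (Real.arccos a.re) = s := by
    rw [Real.sin_arccos, hs]
    congr 1
    linarith
  by_cases hs' : s = 0
  · have h6 : a.im ^ 2 + Complex.normSq c = 0 := by rw [← hs2, hs']; ring
    have h7 : a.im = 0 := by nlinarith [sq_nonneg a.im]
    have h8 : c = 0 := by
      rw [← Complex.normSq_eq_zero]
      nlinarith [sq_nonneg a.im]
    refine ⟨1, 0, by simp, Real.arccos a.re, Real.arccos_nonneg _, Real.arccos_le_pi _, ?_⟩
    apply Subtype.ext
    ext i j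
    have ha' : a = (a.re : ℂ) := by
      apply Complex.ext <;> simp [h7]
    fin_cases i <;> fin_cases j
    · simp only [rot, Matrix.of_apply, Matrix.cons_val_zero, Matrix.cons_val_one, Matrix.cons_val', Matrix.cons_val_fin_one,
        Fin.zero_eta, Fin.mk_one, Fin.isValue, hcos, hsin, hs']
      rw [← ha, ha']
      simp
    · simp only [rot, Matrix.of_apply, Matrix.cons_val_zero, Matrix.cons_val_one, Matrix.cons_val', Matrix.cons_val_fin_one,
        Fin.zero_eta, Fin.mk_one, Fin.isValue, hcos, hsin, hs']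
      rw [← hc, h8]
      simp
    · simp only [rot, Matrix.of_apply, Matrix.cons_val_zero, Matrix.cons_val_one, Matrix.cons_val', Matrix.cons_val_fin_one,
        Fin.zero_eta, Fin.mk_one, Fin.isValue, hcos, hsin, hs']
      rw [e2, h8]
      simp
    · simp only [rot, Matrix.of_apply, Matrix.cons_val_zero, Matrix.cons_val_one, Matrix.cons_val', Matrix.cons_val_fin_one,
        Fin.zero_eta, Fin.mk_one, Fin.isValue, hcos, hsin, hs']
      rw [← e0, ha']
      simp
  · refine ⟨a.im / s, c / s, ?_, Real.arccos a.re, Real.arccos_nonneg _, Real.arccos_le_pi _, ?_⟩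
    · rw [Complex.normSq_div, Complex.normSq_ofReal, div_pow]
      field_simp
      linarith
    · have hsC : (s : ℂ) ≠ 0 := by exact_mod_cast hs'
      have ha' : a = (a.re : ℂ) + Complex.I * (a.im : ℂ) := by
        apply Complex.ext <;> simp
      have ha'' : starRingEnd ℂ a = (a.re : ℂ) - Complex.I * (a.im : ℂ) := by
        apply Complex.ext <;> simp
      apply Subtype.ext
      ext i j
      fin_cases i <;> fin_cases j
      · simp only [rot, Matrix.of_apply, Matrix.cons_val_zero, Matrix.cons_val_one, Matrix.cons_val', Matrix.cons_val_fin_one,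
          Fin.zero_eta, Fin.mk_one, Fin.isValue, hcos, hsin]
        rw [← ha]
        push_cast
        field_simp
        exact ha'
      · simp only [rot, Matrix.of_apply, Matrix.cons_val_zero, Matrix.cons_val_one, Matrix.cons_val', Matrix.cons_val_fin_one,
          Fin.zero_eta, Fin.mk_one, Fin.isValue, hcos, hsin]
        rw [← hc]
        field_simp
      · simp only [rot, Matrix.of_apply, Matrix.cons_val_zero, Matrix.cons_val_one, Matrix.cons_val', Matrix.cons_val_fin_one,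
          Fin.zero_eta, Fin.mk_one, Fin.isValue, hcos, hsin]
        rw [e2, map_div₀, Complex.conj_ofReal]
        field_simp
      · simp only [rot, Matrix.of_apply, Matrix.cons_val_zero, Matrix.cons_val_one, Matrix.cons_val', Matrix.cons_val_fin_one,
          Fin.zero_eta, Fin.mk_one, Fin.isValue, hcos, hsin]
        rw [← e0]
        push_cast
        field_simp
        exact ha''

theorem nsq_rot_sub_one (y : ℝ) (b : ℂ) (h : y ^ 2 + Complex.normSq b = 1) (t : ℝ) :
    nsq ((rot y b h t).1 - 1) = 4 * (1 - Real.cos t) := by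
  have h0 : ∀ z : ℂ, ‖z‖ ^ 2 = z.re ^ 2 + z.im ^ 2 := fun z => by
    rw [← Complex.normSq_eq_norm_sq, Complex.normSq_apply]; ring
  have hb : b.re ^ 2 + b.im ^ 2 = 1 - y ^ 2 := by
    rw [Complex.normSq_apply] at h; linarith
  have hcs := Real.cos_sq_add_sin_sq t
  rw [nsq_two]
  simp only [h0, rot, Matrix.sub_apply, Matrix.of_apply, Matrix.cons_val_zero, Matrix.cons_val_one, Matrix.cons_val',
    Matrix.cons_val_fin_one, Matrix.one_apply_eq, ne_eq, Fin.isValue, Matrix.one_apply, Complex.sub_re, Complex.sub_im,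
    Complex.add_re, Complex.add_im, Complex.mul_re, Complex.mul_im, Complex.ofReal_re, Complex.ofReal_im, Complex.I_re,
    Complex.I_im, Complex.one_re, Complex.one_im, Complex.neg_re, Complex.neg_im, Complex.conj_re, Complex.conj_im,
    if_true, zero_ne_one, one_ne_zero, if_false, Complex.zero_re, Complex.zero_im]
  linear_combination (2 * Real.sin t ^ 2) * hb + 2 * hcs

theorem nF_rot_sub_one (y : ℝ) (b : ℂ) (h : y ^ 2 + Complex.normSq b = 1) (t : ℝ) :
    nF ((rot y b h t).1 - 1) ≤ 2 * |t| := by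
  rw [nF, nsq_rot_sub_one]
  refine Real.sqrt_le_iff.2 ⟨by positivity, ?_⟩
  have h1 := Real.one_sub_sq_div_two_le_cos (x := t)
  have h2 : |t| ^ 2 = t ^ 2 := sq_abs t
  nlinarith [sq_nonneg t]

theorem nF_one : nF (1 : Matrix (Fin 2) (Fin 2) ℂ) ≤ 2 := by
  rw [nF, nsq_two]
  refine Real.sqrt_le_iff.2 ⟨by norm_num, ?_⟩
  simp
  norm_num

/-- the compact neighbourhood `‖h - 1‖ ≤ 1` -/
def B1 : Set S2 := {h | nF (h.1 - 1) ≤ 1}

theorem N2_B1 {h : S2} (hh : h ∈ B1) : N2 h ≤ 3 := by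
  rw [← NNReal.coe_le_coe]
  show nF h.1 ≤ 3
  have h1 := nF_add (h.1 - 1) 1
  rw [sub_add_cancel] at h1
  have h2 : nF (h.1 - 1) ≤ 1 := hh
  linarith [nF_one]

theorem chain_S2 : Chain KU B1 9 N2 := by
  intro k hk g
  obtain ⟨y, b, h, t, ht0, htpi, rfl⟩ := exists_rot hk
  have hN : (1 : ℝ) ≤ N2 g := by exact_mod_cast N2_ge g
  obtain ⟨n, hn1, hn2⟩ : ∃ n : ℕ, 8 * (N2 g : ℝ) ^ 2 ≤ n ∧ (n : ℝ) ≤ 9 * (N2 g : ℝ) ^ 2 := by
    refine ⟨⌈8 * (N2 g : ℝ) ^ 2⌉₊, Nat.le_ceil _, ?_⟩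
    have := Nat.ceil_lt_add_one (a := 8 * (N2 g : ℝ) ^ 2) (by positivity)
    nlinarith
  have hn0 : (0 : ℝ) < n := lt_of_lt_of_le (by positivity) hn1
  refine ⟨rot y b h (t / n), rot_mem y b h _, n, ?_, ?_, ?_⟩
  · rw [rot_pow]
    congr 1
    field_simp
  · rw [← NNReal.coe_le_coe]
    push_cast
    exact hn2
  · show nF ((g⁻¹ * rot y b h (t / n) * g).1 - 1) ≤ 1
    have e : (g⁻¹ * rot y b h (t / n) * g).1 - 1 = (g⁻¹).1 * ((rot y b h (t / n)).1 - 1) * g.1 := by
      have h1 : (g⁻¹).1 * g.1 = 1 := congrArg Subtype.val (inv_mul_cancel g)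
      show (g⁻¹).1 * (rot y b h (t / n)).1 * g.1 - 1 = _
      rw [mul_sub, sub_mul, mul_one, h1]
    rw [e]
    have h2 := nF_mul ((g⁻¹).1 * ((rot y b h (t / n)).1 - 1)) g.1
    have h3 := nF_mul (g⁻¹).1 ((rot y b h (t / n)).1 - 1)
    have h4 := nF_rot_sub_one y b h (t / n)
    rw [nF_inv] at h3
    have h5 : |t / n| ≤ 4 / n := by
      rw [abs_of_nonneg (by positivity)]
      gcongr
      exact htpi.trans Real.pi_le_four
    have hg0 : 0 ≤ nF g.1 := nF_nonneg _
    have hNg : (N2 g : ℝ) = nF g.1 := rfl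
    rw [hNg] at hn1
    calc nF ((g⁻¹).1 * ((rot y b h (t / n)).1 - 1) * g.1)
        ≤ nF g.1 * (2 * (4 / n)) * nF g.1 := by
          refine h2.trans ?_
          gcongr
          refine h3.trans ?_
          gcongr
          refine h4.trans ?_
          gcongr
      _ = 8 * nF g.1 ^ 2 / n := by ring
      _ ≤ 1 := by
          rw [div_le_one hn0]
          exact hn1

end Pool.Agent.Helper9.CA
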