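import Pool.Agent.Helper9.CA.SL2C

/-!
# Project FF (MP_0f6f3f_an): the integral of `N⁻⁴` over `SL(2, ℂ)` is infinite; the vanishing theorem for `SL(2, ℂ)`
-/

set_option autoImplicit false
set_option linter.unusedSectionVars false
set_option linter.style.haveILetI false
set_option linter.unusedSimpArgs false

open MeasureTheory Measure ENNReal Topology Matrix

namespace Pool.Agent.Helper9.CA

/-- the matrices `(2ⁿ, 0; w / 2ⁿ, 2⁻ⁿ)` -/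
noncomputable def famM (n : ℕ) (w : ℂ) : S2 :=
  ⟨!![(2 : ℂ) ^ n, 0; w / 2 ^ n, ((2 : ℂ) ^ n)⁻¹], by
    rw [det_fin_two_of]
    have : ((2 : ℂ) ^ n) ≠ 0 := pow_ne_zero _ two_ne_zero
    field_simp
    ring⟩

/-- the index set -/
abbrev Idx : Type := Σ n : ℕ, Fin (4 ^ n) × Fin (4 ^ n)

/-- the separated family -/
noncomputable def fam (i : Idx) : S2 := famM i.1 ((i.2.1.1 : ℂ) + (i.2.2.1 : ℂ) * Complex.I)

theorem sep_aux {u v x y : S2} (hu : nF (u.1 - 1) ≤ 1 / 4) (hv : nF (v.1 - 1) ≤ 1 / 4) (h : x * u = y * v) :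
    nF ((y⁻¹ * x).1 - 1) < 1 := by
  have e : y⁻¹ * x = v * u⁻¹ := by
    rw [eq_mul_inv_iff_mul_eq, mul_assoc, h, inv_mul_cancel_left]
  rw [e]
  have e2 : (v * u⁻¹).1 - 1 = (v.1 - 1) * (u⁻¹).1 + ((u⁻¹).1 - 1) := by
    show v.1 * (u⁻¹).1 - 1 = _
    rw [sub_mul, one_mul]
    abel
  rw [e2]
  have h1 := nF_add ((v.1 - 1) * (u⁻¹).1) ((u⁻¹).1 - 1)
  have h2 := nF_mul (v.1 - 1) (u⁻¹).1
  have h3 : nF (u⁻¹).1 ≤ nF (u.1 - 1) + nF 1 := by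
    rw [nF_inv]
    have := nF_add (u.1 - 1) 1
    rwa [sub_add_cancel] at this
  rw [nF_inv_sub_one] at h1
  have h4 := nF_one
  have h5 := nF_nonneg (v.1 - 1)
  nlinarith [nF_nonneg (u⁻¹).1]

theorem fam_inv_mul (n m : ℕ) (w z : ℂ) : ((famM n w)⁻¹ * famM m z).1 =
    !![(2 : ℂ) ^ m / 2 ^ n, 0; (2 ^ n / 2 ^ m) * z - (2 ^ m / 2 ^ n) * w, (2 : ℂ) ^ n / 2 ^ m] := by
  show ((famM n w)⁻¹).1 * (famM m z).1 = _
  rw [coe_inv, adjugate_fin_two]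
  have h1 : ((2 : ℂ) ^ n) ≠ 0 := pow_ne_zero _ two_ne_zero
  have h2 : ((2 : ℂ) ^ m) ≠ 0 := pow_ne_zero _ two_ne_zero
  ext i j
  fin_cases i <;> fin_cases j <;> simp only [famM, Matrix.mul_apply, Fin.sum_univ_two, Matrix.of_apply, Matrix.cons_val_zero,
    Matrix.cons_val_one, Matrix.cons_val', Matrix.cons_val_fin_one, Fin.zero_eta, Fin.mk_one, Fin.isValue] <;> field_simp <;> ring

theorem norm_pow_div_sub_one {n m : ℕ} (h : n < m) : 1 ≤ ‖(2 : ℂ) ^ m / 2 ^ n - 1‖ := by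
  obtain ⟨k, rfl⟩ := Nat.exists_eq_add_of_lt h
  have e : (2 : ℂ) ^ (n + k + 1) / 2 ^ n = 2 ^ (k + 1) := by
    have h1 : ((2 : ℂ) ^ n) ≠ 0 := pow_ne_zero _ two_ne_zero
    field_simp
    ring
  rw [e]
  have h2 : ‖(2 : ℂ) ^ (k + 1)‖ - ‖(1 : ℂ)‖ ≤ ‖(2 : ℂ) ^ (k + 1) - 1‖ := norm_sub_norm_le _ _
  rw [norm_pow, norm_one] at h2
  have h3 : (2 : ℝ) ≤ ‖(2 : ℂ)‖ ^ (k + 1) := by
    have h4 : ‖(2 : ℂ)‖ = 2 := by simp
    rw [h4]
    calc (2 : ℝ) = 2 ^ 1 := by norm_num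
      _ ≤ 2 ^ (k + 1) := pow_le_pow_right₀ (by norm_num) (by omega)
  linarith

theorem gauss_norm {a b c d : ℕ} (h : 1 > ‖((a : ℂ) + (b : ℂ) * Complex.I) - ((c : ℂ) + (d : ℂ) * Complex.I)‖) :
    a = c ∧ b = d := by
  have h0 : ∀ z : ℂ, ‖z‖ ^ 2 = z.re ^ 2 + z.im ^ 2 := fun z => by
    rw [← Complex.normSq_eq_norm_sq, Complex.normSq_apply]; ring
  have h1 := h0 (((a : ℂ) + (b : ℂ) * Complex.I) - ((c : ℂ) + (d : ℂ) * Complex.I))
  simp only [Complex.sub_re, Complex.add_re, Complex.mul_re, Complex.natCast_re, Complex.natCast_im, Complex.I_re,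
    Complex.I_im, Complex.sub_im, Complex.add_im, Complex.mul_im] at h1
  have h2 : ‖((a : ℂ) + (b : ℂ) * Complex.I) - ((c : ℂ) + (d : ℂ) * Complex.I)‖ ^ 2 < 1 := by
    have := norm_nonneg (((a : ℂ) + (b : ℂ) * Complex.I) - ((c : ℂ) + (d : ℂ) * Complex.I))
    nlinarith
  have h3 : (((a : ℤ) - c) ^ 2 + ((b : ℤ) - d) ^ 2 : ℤ) < 1 := by
    have : ((((a : ℤ) - c) ^ 2 + ((b : ℤ) - d) ^ 2 : ℤ) : ℝ) < 1 := by
      push_cast
      rw [h1] at h2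
      ring_nf at h2 ⊢
      linarith
    exact_mod_cast this
  have h4 : ((a : ℤ) - c) ^ 2 = 0 := by nlinarith [sq_nonneg ((a : ℤ) - c), sq_nonneg ((b : ℤ) - d)]
  have h5 : ((b : ℤ) - d) ^ 2 = 0 := by nlinarith [sq_nonneg ((a : ℤ) - c), sq_nonneg ((b : ℤ) - d)]
  have h6 := pow_eq_zero_iff (two_ne_zero) |>.1 h4
  have h7 := pow_eq_zero_iff (two_ne_zero) |>.1 h5
  omega

theorem fam_sep {i j : Idx} (hij : i ≠ j) {u v : S2} (hu : nF (u.1 - 1) ≤ 1 / 4) (hv : nF (v.1 - 1) ≤ 1 / 4) :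
    fam i * u ≠ fam j * v := by
  intro h
  have h1 := sep_aux hu hv h
  obtain ⟨m, a, b⟩ := i
  obtain ⟨n, c, d⟩ := j
  unfold fam at h1
  have h2 : ∀ k l, ‖(((famM n ((c.1 : ℂ) + (d.1 : ℂ) * Complex.I))⁻¹ *
      famM m ((a.1 : ℂ) + (b.1 : ℂ) * Complex.I)).1 - 1) k l‖ < 1 := fun k l => (entry_le_nF _ _ _).trans_lt h1
  rw [fam_inv_mul] at h2
  rcases lt_trichotomy n m with hnm | hnm | hnm
  · have h3 := h2 0 0
    simp only [Matrix.sub_apply, Matrix.of_apply, Matrix.cons_val_zero, Matrix.cons_val', Matrix.cons_val_fin_one,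
      Matrix.one_apply_eq, Fin.isValue] at h3
    exact absurd (norm_pow_div_sub_one hnm) (not_le.2 h3)
  · subst hnm
    have h3 := h2 1 0
    simp only [Matrix.sub_apply, Matrix.of_apply, Matrix.cons_val_zero, Matrix.cons_val_one, Matrix.cons_val',
      Matrix.cons_val_fin_one, Matrix.one_apply, one_ne_zero, if_false, sub_zero, Fin.isValue] at h3
    have h4 : ((2 : ℂ) ^ n) ≠ 0 := pow_ne_zero _ two_ne_zero
    rw [div_self h4, one_mul, one_mul] at h3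
    obtain ⟨h5, h6⟩ := gauss_norm h3
    apply hij
    have e1 : a = c := Fin.ext h5
    have e2 : b = d := Fin.ext h6
    rw [e1, e2]
  · have h3 := h2 1 1
    simp only [Matrix.sub_apply, Matrix.of_apply, Matrix.cons_val_zero, Matrix.cons_val_one, Matrix.cons_val',
      Matrix.cons_val_fin_one, Matrix.one_apply_eq, Fin.isValue] at h3
    exact absurd (norm_pow_div_sub_one hnm) (not_le.2 h3)

theorem fam_norm (n : ℕ) (a b : Fin (4 ^ n)) : nF (fam ⟨n, a, b⟩).1 ^ 4 ≤ 16 * (4 ^ n * 4 ^ n) := by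
  have h0 : ∀ z : ℂ, ‖z‖ ^ 2 = z.re ^ 2 + z.im ^ 2 := fun z => by
    rw [← Complex.normSq_eq_norm_sq, Complex.normSq_apply]; ring
  have e4 : ((2 : ℝ) ^ n) ^ 2 = 4 ^ n := by rw [← pow_mul, mul_comm, pow_mul]; norm_num
  have h4 : (1 : ℝ) ≤ 4 ^ n := one_le_pow₀ (by norm_num)
  have ha : (a.1 : ℝ) ≤ 4 ^ n := by exact_mod_cast a.2.le
  have hb : (b.1 : ℝ) ≤ 4 ^ n := by exact_mod_cast b.2.le
  have ha0 : (0 : ℝ) ≤ (a.1 : ℝ) := Nat.cast_nonneg _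
  have hb0 : (0 : ℝ) ≤ (b.1 : ℝ) := Nat.cast_nonneg _
  have h1 : nsq (fam ⟨n, a, b⟩).1 ≤ 4 * 4 ^ n := by
    rw [nsq_two]
    simp only [fam, famM, Matrix.of_apply, Matrix.cons_val_zero, Matrix.cons_val_one, Matrix.cons_val',
      Matrix.cons_val_fin_one, Fin.isValue, norm_pow, norm_zero, norm_div, norm_inv, div_pow]
    have h5 : ‖(2 : ℂ)‖ = 2 := by simp
    rw [h5, e4, h0 ((a.1 : ℂ) + (b.1 : ℂ) * Complex.I), inv_pow, e4]
    simp only [Complex.add_re, Complex.mul_re, Complex.natCast_re, Complex.natCast_im, Complex.I_re,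
      Complex.I_im, Complex.add_im, Complex.mul_im, mul_zero, zero_mul, sub_zero, mul_one, add_zero, zero_add]
    have h6 : ((a.1 : ℝ) ^ 2 + (b.1 : ℝ) ^ 2) / 4 ^ n ≤ 2 * 4 ^ n := by
      rw [div_le_iff₀ (by positivity)]
      nlinarith
    have h7 : ((4 : ℝ) ^ n)⁻¹ ≤ 1 := inv_le_one_of_one_le₀ h4
    norm_num
    linarith
  calc nF (fam ⟨n, a, b⟩).1 ^ 4 = (nsq (fam ⟨n, a, b⟩).1) ^ 2 := by rw [← nF_sq]; ring
    _ ≤ (4 * 4 ^ n) ^ 2 := by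
        have := nsq_nonneg (fam ⟨n, a, b⟩).1
        gcongr
    _ = _ := by ring

theorem tsum_fam : ∑' i, ((N2 (fam i) : ℝ≥0∞) ^ 4)⁻¹ = ∞ := by
  rw [ENNReal.tsum_sigma']
  rw [eq_top_iff]
  have h1 : ∀ n : ℕ, (16 : ℝ≥0∞)⁻¹ ≤ ∑' p : Fin (4 ^ n) × Fin (4 ^ n), ((N2 (fam ⟨n, p⟩) : ℝ≥0∞) ^ 4)⁻¹ := by
    intro n
    rw [tsum_fintype]
    have h2 : ∀ p : Fin (4 ^ n) × Fin (4 ^ n), (16 * (4 ^ n * 4 ^ n) : ℝ≥0∞)⁻¹ ≤ ((N2 (fam ⟨n, p⟩) : ℝ≥0∞) ^ 4)⁻¹ := by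
      intro p
      rw [ENNReal.inv_le_inv]
      have h3 : N2 (fam ⟨n, p⟩) ^ 4 ≤ 16 * (4 ^ n * 4 ^ n) := by
        rw [← NNReal.coe_le_coe]
        push_cast
        exact fam_norm n p.1 p.2
      exact_mod_cast h3
    calc (16 : ℝ≥0∞)⁻¹ = ∑ _p : Fin (4 ^ n) × Fin (4 ^ n), (16 * (4 ^ n * 4 ^ n) : ℝ≥0∞)⁻¹ := by
          rw [Finset.sum_const, Finset.card_univ, Fintype.card_prod, Fintype.card_fin, nsmul_eq_mul,
            ENNReal.mul_inv (Or.inl (by norm_num)) (Or.inl (by norm_num))]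
          push_cast
          rw [mul_left_comm, ENNReal.mul_inv_cancel, mul_one]
          · exact mul_ne_zero (pow_ne_zero _ (by norm_num)) (pow_ne_zero _ (by norm_num))
          · exact ENNReal.mul_ne_top (ENNReal.pow_ne_top (by norm_num)) (ENNReal.pow_ne_top (by norm_num))
      _ ≤ _ := Finset.sum_le_sum fun p _ => h2 p
  calc (∞ : ℝ≥0∞) = ∑' _ : ℕ, (16 : ℝ≥0∞)⁻¹ := by
        rw [ENNReal.tsum_const_eq_top_of_ne_zero]
        exact ENNReal.inv_ne_zero.2 (by norm_num)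
    _ ≤ _ := ENNReal.tsum_le_tsum h1

variable [MeasurableSpace S2] [BorelSpace S2]

theorem lintegral_N2 (μ : Measure S2) [μ.IsHaarMeasure] : ∫⁻ g, ((N2 g : ℝ≥0∞) ^ 4)⁻¹ ∂μ = ∞ := by
  have ho : IsOpen {u : S2 | nF (u.1 - 1) < 1 / 4} :=
    isOpen_lt (continuous_nF.comp (continuous_val.sub continuous_const)) continuous_const
  refine lintegral_eq_top_of_family (U := {u : S2 | nF (u.1 - 1) < 1 / 4}) fam ho.measurableSet ?_ ?_ N2_mul (M := 3) ?_ tsum_fam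
  · refine (ho.measure_pos μ ⟨1, ?_⟩).ne'
    show nF ((1 : Matrix (Fin 2) (Fin 2) ℂ) - 1) < 1 / 4
    rw [sub_self, nF, nsq]
    simp
  · intro i j hij u hu v hv
    exact fam_sep hij (le_of_lt hu) (le_of_lt hv)
  · intro u hu
    refine N2_B1 ?_
    have : nF (u.1 - 1) < 1 / 4 := hu
    show nF (u.1 - 1) ≤ 1
    linarith

/-- **A harmonic function on `SL(2, ℂ) / SU(2)` with finite Dirichlet energy which vanishes at the base point is zero.** -/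
theorem eq_zero_SL2C {E : Type*} [NormedAddCommGroup E] [NormedSpace ℝ E] [CompleteSpace E] {f : S2 → E}
    {ν : Measure S2} (hν : HaarOn KU ν) (μ : Measure S2) [μ.IsHaarMeasure] (hf : Harm KU ν f) (h1 : f 1 = 0)
    (hen : ∀ B : Set S2, IsCompact B → ∃ D : ℝ≥0∞, D ≠ ∞ ∧ ∀ b ∈ B, ∫⁻ g, ‖f (g * b) - f g‖ₑ ^ 2 ∂μ ≤ D)
    (x : S2) : f x = 0 := by
  have hB := isCompact_ball 2
  have hB' := isCompact_ball 6
  obtain ⟨D, hD, hDb⟩ := hen _ hB'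
  refine eq_zero_of_energy (μ := μ) (B := {g | N2 g ≤ 2}) (B₁ := B1) (B' := {g | N2 g ≤ 6}) hν hf h1 hB.measurableSet
    hB'.measurableSet (fun k hk g => ?_) (fun τ hτ b hb => ?_) ?_ hB'.measure_lt_top.ne chain_S2
    continuous_N2.measurable N2_ge N2_mul (fun k hk g => N2_K hk g) (lintegral_N2 μ) hD hDb x
  · show N2 (k * g) ≤ 2 ↔ N2 g ≤ 2
    rw [N2_K hk]
  · show N2 (τ * b) ≤ 6
    refine (N2_mul τ b).trans ?_
    have h2 : N2 b ≤ 2 := hb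
    calc N2 τ * N2 b ≤ 3 * 2 := mul_le_mul' (N2_B1 hτ) h2
      _ = 6 := by norm_num
  · have ho : IsOpen {g : S2 | N2 g < 2} := isOpen_lt continuous_N2 continuous_const
    refine ((ho.measure_pos μ ⟨1, ?_⟩).trans_le (measure_mono fun g (hg : N2 g < 2) => (le_of_lt hg : N2 g ≤ 2))).ne'
    show N2 1 < 2
    rw [← NNReal.coe_lt_coe]
    show Real.sqrt (nsq (1 : Matrix (Fin 2) (Fin 2) ℂ)) < 2
    rw [Real.sqrt_lt' (by norm_num), nsq_two]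
    simp
    norm_num

end Pool.Agent.Helper9.CA
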